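import Mathlib
set_option autoImplicit false

namespace H63Fish

section Alg
variable {S : Type*} [CommRing S]

/-- weighted sum over a stack -/
def GA (u y : S) : List ℕ → S
  | [] => 0
  | a :: A => u ^ (a + 1) + y * GA u y A

/-- sum of GA over nonempty suffixes -/
def S1 (u y : S) : List ℕ → S
  | [] => 0
  | a :: A => GA u y (a :: A) + S1 u y A

/-- Σ_j w^j GA_y(drop j) -/
def TT (u y w : S) : List ℕ → S
  | [] => 0
  | a :: A => GA u y (a :: A) + w * TT u y w A

/-- geometric sum -/
def geo (w : S) : ℕ → S
  | 0 => 0
  | k + 1 => 1 + w * geo w k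

/-- suffix data -/
def suff : List ℕ → List (ℕ × ℕ × List ℕ)
  | [] => []
  | t :: A => (0, t, t :: A) :: (suff A).map (fun p => (p.1 + 1, p.2.1, p.2.2))

/-- sum of a function over suffix data -/
def sumSuf (F : ℕ → ℕ → List ℕ → S) (A : List ℕ) : S :=
  ((suff A).map (fun p => F p.1 p.2.1 p.2.2)).sum

theorem sumSuf_nil (F : ℕ → ℕ → List ℕ → S) : sumSuf F [] = 0 := by
  simp [sumSuf, suff]

theorem sumSuf_cons (F : ℕ → ℕ → List ℕ → S) (t : ℕ) (A : List ℕ) :
    sumSuf F (t :: A) = F 0 t (t :: A) + sumSuf (fun j => F (j + 1)) A := by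
  simp [sumSuf, suff, List.map_map, Function.comp_def]

theorem sumSuf_add (F G : ℕ → ℕ → List ℕ → S) (A : List ℕ) :
    sumSuf (fun j t s => F j t s + G j t s) A = sumSuf F A + sumSuf G A := by
  simp [sumSuf, List.sum_map_add]

theorem sumSuf_mul (c : S) (F : ℕ → ℕ → List ℕ → S) (A : List ℕ) :
    sumSuf (fun j t s => c * F j t s) A = c * sumSuf F A := by
  simp [sumSuf, List.sum_map_mul_left]

theorem sumSuf_mul_right (c : S) (F : ℕ → ℕ → List ℕ → S) (A : List ℕ) :
    sumSuf (fun j t s => F j t s * c) A = sumSuf F A * c := by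
  simp [sumSuf, List.sum_map_mul_right]

/-- Σ_j y^j u^{A_j+1} = GA -/
theorem sumSuf_pow (u y : S) (A : List ℕ) :
    sumSuf (fun j t _ => y ^ j * u ^ (t + 1)) A = GA u y A := by
  induction A with
  | nil => simp [sumSuf_nil, GA]
  | cons a A ih =>
    rw [sumSuf_cons, GA, ← ih, ← sumSuf_mul]
    congr 1
    · simp
    · congr 1; funext j t s; ring

theorem sumSuf_one (u : S) (A : List ℕ) :
    sumSuf (fun _ t _ => u ^ (t + 1)) A = GA u 1 A := by
  rw [← sumSuf_pow]; congr 1; funext j t s; simp

theorem sumSuf_GA (u y : S) (A : List ℕ) :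
    sumSuf (fun _ _ s => GA u y s) A = S1 u y A := by
  induction A with
  | nil => simp [sumSuf_nil, S1]
  | cons a A ih => rw [sumSuf_cons, S1, ← ih]

theorem S1_eq (u y : S) (A : List ℕ) : (1 - y) * S1 u y A = GA u 1 A - y * GA u y A := by
  induction A with
  | nil => simp [S1, GA]
  | cons a A ih =>
    rw [S1, mul_add, ih]
    simp only [GA]; ring

/-- Σ_j geo(w,j+1) u^{A_j+1} = S1 -/
theorem sumSuf_geo1 (u w : S) (A : List ℕ) :
    sumSuf (fun j t _ => geo w (j + 1) * u ^ (t + 1)) A = S1 u w A := by
  induction A with
  | nil => simp [sumSuf_nil, S1]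
  | cons a A ih =>
    rw [sumSuf_cons]
    have h1 : sumSuf (fun j t (_ : List ℕ) => geo w (j + 1 + 1) * u ^ (t + 1)) A
        = GA u 1 A + w * S1 u w A := by
      rw [← ih, ← sumSuf_one, ← sumSuf_mul, ← sumSuf_add]
      congr 1; funext j t s
      show (1 + w * geo w (j + 1)) * u ^ (t + 1) = _
      ring
    rw [h1, S1]
    have h2 := S1_eq u w A
    simp only [geo, GA]
    linear_combination h2 * (-1)

theorem sumSuf_geo0 (u w : S) (a : ℕ) (A : List ℕ) :
    sumSuf (fun j t _ => geo w j * u ^ (t + 1)) (a :: A) = S1 u w A := by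
  rw [sumSuf_cons, sumSuf_geo1]
  simp [geo]

theorem sumSuf_powGA (u y w : S) (A : List ℕ) :
    sumSuf (fun j _ s => w ^ j * GA u y s) A = TT u y w A := by
  induction A with
  | nil => simp [sumSuf_nil, TT]
  | cons a A ih =>
    rw [sumSuf_cons, TT, ← ih, ← sumSuf_mul]
    congr 1
    · simp
    · congr 1; funext j t s; ring

/-- the symmetric kernel sum -/
theorem TT_symm (u y w : S) (A : List ℕ) :
    TT u y w A = TT u w y A := by
  -- via recursion TT(a::A) = u^{a+1} + y GA_y A + w TT A ; need y GA_y A + w TT_{y,w} A = w GA_w A + y TT_{w,y} A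
  have key : ∀ A : List ℕ, TT u y w A = TT u w y A ∧
      y * GA u y A + w * TT u y w A = w * GA u w A + y * TT u w y A := by
    intro A
    induction A with
    | nil => simp [TT, GA]
    | cons a A ih =>
      obtain ⟨h1, h2⟩ := ih
      have h3 : TT u y w (a :: A) = TT u w y (a :: A) := by
        simp only [TT, GA]
        linear_combination h2
      refine ⟨h3, ?_⟩
      simp only [TT, GA] at h3 ⊢
      linear_combination (y + w) * h2 - y * w * h1
  exact (key A).1

variable (t u v w y : S)

/-- claim T' -/
theorem TT_kernel (hk : y * (1 - t * w) = w * (1 - t)) (A : List ℕ) :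
    t * (1 - w) * TT u y w A = (1 - t * w) * GA u w A - (1 - t) * GA u y A := by
  induction A with
  | nil => simp [TT, GA]
  | cons a A ih =>
    simp only [TT, GA]
    linear_combination w * ih + (GA u y A) * hk

/-- claim S -/
theorem S1_kernel (hk : y * (1 - t * w) = w * (1 - t)) (A : List ℕ) :
    S1 u y A = (1 - t * w) * S1 u w A + t * w * TT u y w A := by
  induction A with
  | nil => simp [S1, TT]
  | cons a A ih =>
    have h := TT_kernel t u w y hk A
    simp only [S1, TT]
    have e1 : GA u y (a :: A) = u ^ (a + 1) + y * GA u y A := rfl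
    have e2 : GA u w (a :: A) = u ^ (a + 1) + w * GA u w A := rfl
    rw [e1, e2]
    linear_combination ih + w * h + (GA u y A) * hk

/-- U_{w,y}(B) = Σ_j geo(y,j+1) GA_w(drop j B) -/
def UU (u y w : S) (A : List ℕ) : S := sumSuf (fun j _ s => geo y (j + 1) * GA u w s) A

theorem UU_nil : UU u y w [] = 0 := by simp [UU, sumSuf_nil]

theorem UU_cons (a : ℕ) (A : List ℕ) :
    UU u y w (a :: A) = GA u w (a :: A) + S1 u w A + y * UU u y w A := by
  unfold UU
  rw [sumSuf_cons, ← sumSuf_GA, ← sumSuf_mul, add_assoc, ← sumSuf_add]
  congr 1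
  · simp [geo]
  · congr 1; funext j t s
    show (1 + y * geo y (j + 1)) * GA u w s = _
    ring

/-- (1-w) U_{y,w}(A) with U = Σ geo(w,j+1) GA_y(drop j A) -/
theorem UU_eq (A : List ℕ) : (1 - w) * UU u w y A = S1 u y A - w * TT u y w A := by
  induction A with
  | nil => simp [UU_nil, S1, TT]
  | cons a A ih =>
    rw [UU_cons, S1, TT]
    linear_combination w * ih

/-- claim Q -/
theorem UU_kernel (hk : y * (1 - t * w) = w * (1 - t)) (A : List ℕ) :
    t * (1 - w) * UU u y w A = (1 - t * w) * S1 u w A - (1 - t) * S1 u y A := by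
  induction A with
  | nil => simp [UU_nil, S1]
  | cons a A ih =>
    have h1 := S1_eq u y A
    have h2 := S1_eq u w A
    rw [UU_cons]
    simp only [S1, GA]
    linear_combination y * ih + (1 - t) * h1 - (1 - t) * h2 + S1 u w A * hk

end Alg

section Mach

/-- state: lr, left stack, rl, right stack -/
abbrev St := ℕ × List ℕ × ℕ × List ℕ

def chA (s : St) : List St :=
  (suff s.2.1).map (fun p => (p.2.1 + 1, p.2.2, s.2.2.1 + 1,
    List.replicate (p.1 + 1) s.2.2.1 ++ s.2.2.2))

def chB (s : St) : List St :=
  (suff s.2.2.2).map (fun p => (s.1 + 1, List.replicate p.1 s.1 ++ s.2.1, p.2.1 + 1, p.2.2))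

def children (s : St) : List St := chA s ++ chB s

variable {S : Type*} [CommRing S]

def wE (u v : S) (s : St) : S := u ^ s.1 * v ^ s.2.2.1
def wf (u v y : S) (s : St) : S := GA u y s.2.1 * v ^ s.2.2.1
def wg (u v w : S) (s : St) : S := u ^ s.1 * GA v w s.2.2.2
def wh (u v y w : S) (s : St) : S := GA u y s.2.1 * GA v w s.2.2.2

def LL (Ψ : St → S) (s : St) : S := ((children s).map Ψ).sum

theorem GA_replicate (v w : S) (k r : ℕ) (B : List ℕ) :
    GA v w (List.replicate k r ++ B) = v ^ (r + 1) * geo w k + w ^ k * GA v w B := by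
  induction k with
  | zero => simp [geo]
  | succ k ih =>
    rw [List.replicate_succ, List.cons_append]
    simp only [GA, geo]
    rw [ih]; ring

theorem LL_eq (Ψ : St → S) (lr : ℕ) (A : List ℕ) (rl : ℕ) (B : List ℕ) :
    LL Ψ (lr, A, rl, B) =
      sumSuf (fun j t s => Ψ (t + 1, s, rl + 1, List.replicate (j + 1) rl ++ B)) A +
      sumSuf (fun j t s => Ψ (lr + 1, List.replicate j lr ++ A, t + 1, s)) B := by
  simp [LL, children, chA, chB, sumSuf, List.map_map, Function.comp_def]

variable (t u v w y : S)

theorem LL_wE (lr : ℕ) (A : List ℕ) (rl : ℕ) (B : List ℕ) :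
    LL (wE u v) (lr, A, rl, B) = v ^ (rl + 1) * GA u 1 A + u ^ (lr + 1) * GA v 1 B := by
  rw [LL_eq]
  simp only [wE]
  rw [sumSuf_mul_right, sumSuf_mul, sumSuf_one, sumSuf_one]
  ring

theorem LL_wf (lr : ℕ) (A : List ℕ) (rl : ℕ) (b : ℕ) (B : List ℕ) :
    LL (wf u v y) (lr, A, rl, b :: B) =
      v ^ (rl + 1) * S1 u y A + u ^ (lr + 1) * S1 v y B + GA u y A * GA v y (b :: B) := by
  rw [LL_eq]
  simp only [wf]
  rw [sumSuf_mul_right, sumSuf_GA]
  have h : sumSuf (fun j t (_ : List ℕ) =>
      GA u y (List.replicate j lr ++ A) * v ^ (t + 1)) (b :: B)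
      = u ^ (lr + 1) * S1 v y B + GA u y A * GA v y (b :: B) := by
    rw [← sumSuf_geo0 v y b B, ← sumSuf_pow v y (b :: B), ← sumSuf_mul, ← sumSuf_mul, ← sumSuf_add]
    congr 1; funext j t s
    rw [GA_replicate]; ring
  rw [h]; ring

theorem LL_wg (lr : ℕ) (A : List ℕ) (rl : ℕ) (B : List ℕ) :
    LL (wg u v w) (lr, A, rl, B) =
      v ^ (rl + 1) * S1 u w A + w * GA u w A * GA v w B + u ^ (lr + 1) * S1 v w B := by
  rw [LL_eq]
  simp only [wg]
  rw [sumSuf_mul, sumSuf_GA]
  have h : sumSuf (fun j t (_ : List ℕ) =>
      u ^ (t + 1) * GA v w (List.replicate (j + 1) rl ++ B)) A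
      = v ^ (rl + 1) * S1 u w A + w * GA u w A * GA v w B := by
    rw [← sumSuf_geo1 u w A, ← sumSuf_pow u w A, ← sumSuf_mul, ← sumSuf_mul, ← sumSuf_mul_right,
      ← sumSuf_add]
    congr 1; funext j t s
    rw [GA_replicate]; ring
  rw [h]

theorem LL_wh (lr : ℕ) (A : List ℕ) (rl : ℕ) (b : ℕ) (B : List ℕ) :
    LL (wh u v y w) (lr, A, rl, b :: B) =
      v ^ (rl + 1) * UU u w y A + w * TT u y w A * GA v w (b :: B)
      + u ^ (lr + 1) * UU v y w B + GA u y A * TT v w y (b :: B) := by
  rw [LL_eq]
  simp only [wh]
  have h1 : sumSuf (fun j _ s =>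
      GA u y s * GA v w (List.replicate (j + 1) rl ++ (b :: B))) A
      = v ^ (rl + 1) * UU u w y A + w * TT u y w A * GA v w (b :: B) := by
    rw [← sumSuf_powGA u y w A, UU, ← sumSuf_mul, ← sumSuf_mul, ← sumSuf_mul_right, ← sumSuf_add]
    congr 1; funext j t s
    rw [GA_replicate]; ring
  have h2 : sumSuf (fun j _ s =>
      GA u y (List.replicate j lr ++ A) * GA v w s) (b :: B)
      = u ^ (lr + 1) * UU v y w B + GA u y A * TT v w y (b :: B) := by
    have h3 : sumSuf (fun j _ s => geo y j * GA v w s) (b :: B) = UU v y w B := by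
      rw [sumSuf_cons, UU]; simp [geo]
    rw [← sumSuf_powGA v w y (b :: B), ← h3, ← sumSuf_mul, ← sumSuf_mul, ← sumSuf_add]
    congr 1; funext j t s
    rw [GA_replicate]; ring
  rw [h1, h2]; ring

/-- identity (K') per state -/
theorem kernel_state (hk : y * (1 - t * w) = w * (1 - t)) (s : St) (hs : s.2.2.2 ≠ []) :
    (1 - t) * LL (wf u v y) s = (1 - t * w) * (LL (wg u v w) s - u * wg u v w s)
      + (1 - w) * (wh u v y w s - t * LL (wh u v y w) s) := by
  obtain ⟨lr, A, rl, B⟩ := s
  obtain ⟨b, B, rfl⟩ : ∃ b B', B = b :: B' := by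
    cases B with
    | nil => exact absurd rfl hs
    | cons b B => exact ⟨b, B, rfl⟩
  rw [LL_wf, LL_wg, LL_wh]
  simp only [wg, wh]
  have hTA := TT_kernel t u w y hk A
  have hSA := S1_kernel t u w y hk A
  have hUA := UU_eq u w y A
  have hTB := TT_kernel t v w y hk (b :: B)
  have hUB := UU_kernel t v w y hk B
  have hsym := TT_symm v w y (b :: B)
  rw [hsym]
  have e1 : S1 v w (b :: B) = GA v w (b :: B) + S1 v w B := rfl
  rw [e1]
  generalize GA v w (b :: B) = bw at *
  generalize GA v y (b :: B) = by' at *
  generalize TT v y w (b :: B) = TB at *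
  linear_combination (v ^ (rl + 1)) * hSA + t * (v ^ (rl + 1)) * hUA + w * bw * hTA
    + GA u y A * hTB + u ^ (lr + 1) * hUB

/-- identity (star 1) per state -/
theorem star1_state (s : St) (hs : s.2.2.2 ≠ []) :
    LL (wg u v y) s = LL (wE u v) s + y * LL (wf u v y) s - v * y * wf u v y s := by
  obtain ⟨lr, A, rl, B⟩ := s
  obtain ⟨b, B, rfl⟩ : ∃ b B', B = b :: B' := by
    cases B with
    | nil => exact absurd rfl hs
    | cons b B => exact ⟨b, B, rfl⟩
  rw [LL_wf, LL_wg, LL_wE]
  simp only [wf]
  have hA := S1_eq u y A
  have hB := S1_eq v y B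
  have e1 : S1 v y (b :: B) = GA v y (b :: B) + S1 v y B := rfl
  have e2 : GA v y (b :: B) = v ^ (b + 1) + y * GA v y B := rfl
  have e3 : GA v 1 (b :: B) = v ^ (b + 1) + 1 * GA v 1 B := rfl
  rw [e1, e3, e2]
  linear_combination v ^ (rl + 1) * hA + u ^ (lr + 1) * hB

end Mach

section Seq

def statesN : ℕ → List St
  | 0 => [(1, [0], 1, [0])]
  | n + 1 => (statesN n).flatMap children

theorem suff_ne_nil (A : List ℕ) : ∀ p ∈ suff A, p.2.2 ≠ [] := by
  induction A with
  | nil => simp [suff]
  | cons a A ih =>
    intro p hp
    simp only [suff, List.mem_cons, List.mem_map] at hp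
    rcases hp with rfl | ⟨q, hq, rfl⟩
    · simp
    · exact ih q hq

theorem statesN_ne_nil (n : ℕ) : ∀ s ∈ statesN n, s.2.2.2 ≠ [] := by
  cases n with
  | zero => intro s hs; simp only [statesN, List.mem_singleton] at hs; subst hs; simp
  | succ n =>
    intro s hs
    simp only [statesN, List.mem_flatMap, children, List.mem_append, chA, chB, List.mem_map] at hs
    obtain ⟨s', _, h⟩ := hs
    rcases h with ⟨p, _, rfl⟩ | ⟨p, hp, rfl⟩
    · simp
    · exact suff_ne_nil _ p hp

variable {S : Type*} [CommRing S]

def II (Ψ : St → S) (n : ℕ) : S := ((statesN n).map Ψ).sum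

theorem II_succ (Ψ : St → S) (n : ℕ) : II Ψ (n + 1) = II (LL Ψ) n := by
  unfold II
  rw [statesN]
  induction statesN n with
  | nil => simp
  | cons a l ih => simp [List.flatMap_cons, List.sum_append, ih, LL]

theorem II_congr {Ψ Φ : St → S} {n : ℕ} (h : ∀ s ∈ statesN n, Ψ s = Φ s) : II Ψ n = II Φ n := by
  unfold II
  congr 1
  exact List.map_congr_left h

theorem II_add (Ψ Φ : St → S) (n : ℕ) : II (fun s => Ψ s + Φ s) n = II Ψ n + II Φ n := by
  simp [II, List.sum_map_add]

theorem II_sub (Ψ Φ : St → S) (n : ℕ) : II (fun s => Ψ s - Φ s) n = II Ψ n - II Φ n := by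
  unfold II
  induction statesN n with
  | nil => simp
  | cons a l ih => simp only [List.map_cons, List.sum_cons, ih]; ring

theorem II_mul (c : S) (Ψ : St → S) (n : ℕ) : II (fun s => c * Ψ s) n = c * II Ψ n := by
  simp [II, List.sum_map_mul_left]

variable (t u v w y : S)

theorem II_zero_wE : II (wE u v) 0 = u * v := by simp [II, statesN, wE]
theorem II_zero_wf : II (wf u v y) 0 = u * v := by simp [II, statesN, wf, GA]
theorem II_zero_wg : II (wg u v w) 0 = u * v := by simp [II, statesN, wg, GA]
theorem II_zero_wh : II (wh u v y w) 0 = u * v := by simp [II, statesN, wh, GA]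

theorem kernel_n (hk : y * (1 - t * w) = w * (1 - t)) (n : ℕ) :
    (1 - t) * II (wf u v y) (n + 1) = (1 - t * w) * (II (wg u v w) (n + 1) - u * II (wg u v w) n)
      + (1 - w) * (II (wh u v y w) n - t * II (wh u v y w) (n + 1)) := by
  rw [II_succ, II_succ, II_succ, ← II_mul, ← II_mul, ← II_mul, ← II_sub, ← II_sub, ← II_mul,
    ← II_mul, ← II_add]
  exact II_congr (fun s hs => kernel_state t u v w y hk s (statesN_ne_nil n s hs))

theorem star1_n (n : ℕ) :
    II (wg u v y) (n + 1) = II (wE u v) (n + 1) + y * II (wf u v y) (n + 1)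
      - v * y * II (wf u v y) n := by
  rw [II_succ, II_succ, II_succ, ← II_mul, ← II_mul, ← II_add, ← II_sub]
  exact II_congr (fun s hs => star1_state u v y s (statesN_ne_nil n s hs))

/-- truncated generating function -/
def TS (t : S) (g : ℕ → S) (N : ℕ) : S := ∑ n ∈ Finset.range (N + 1), t ^ n * g n

theorem TS_succ (g : ℕ → S) (N : ℕ) : TS t g (N + 1) = TS t g N + t ^ (N + 1) * g (N + 1) := by
  simp [TS, Finset.sum_range_succ]

theorem TS_zero (g : ℕ → S) : TS t g 0 = g 0 := by simp [TS]

theorem kernel_sum (hk : y * (1 - t * w) = w * (1 - t)) (N : ℕ) :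
    (1 - t) * TS t (II (wf u v y)) N = (1 - t * w) * (1 - u * t) * TS t (II (wg u v w)) N
      + t ^ (N + 1) * ((1 - t * w) * u * II (wg u v w) N - (1 - w) * II (wh u v y w) N) := by
  induction N with
  | zero =>
    rw [TS_zero, TS_zero, II_zero_wf, II_zero_wg, II_zero_wh]
    ring
  | succ N ih =>
    rw [TS_succ, TS_succ]
    have h := kernel_n t u v w y hk N
    linear_combination ih + t ^ (N + 1) * h

theorem star1_sum (N : ℕ) :
    TS t (II (wg u v y)) N = TS t (II (wE u v)) N - u * v * y
      + y * (1 - v * t) * TS t (II (wf u v y)) N + t ^ (N + 1) * (v * y * II (wf u v y) N) := by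
  induction N with
  | zero =>
    rw [TS_zero, TS_zero, TS_zero, II_zero_wf, II_zero_wg, II_zero_wE]
    ring
  | succ N ih =>
    rw [TS_succ, TS_succ, TS_succ]
    have h := star1_n u v y N
    linear_combination ih + t ^ (N + 1) * h

theorem func_eq (hk : y * (1 - t * w) = w * (1 - t)) (N : ℕ) :
    ∃ δ : S, (1 - t) * (TS t (II (wg u v y)) N - TS t (II (wE u v)) N + u * v * y
      - w * (1 - u * t) * (1 - v * t) * TS t (II (wg u v w)) N) = t ^ (N + 1) * δ := by
  have h1 := kernel_sum t u v w y hk N
  have h2 := star1_sum t u v y N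
  refine ⟨(1 - t) * (v * y * II (wf u v y) N) +
    y * (1 - v * t) * ((1 - t * w) * u * II (wg u v w) N - (1 - w) * II (wh u v y w) N), ?_⟩
  linear_combination (1 - t) * h2 + y * (1 - v * t) * h1
    + (1 - v * t) * (1 - u * t) * TS t (II (wg u v w)) N * hk

section Nat'
variable {S' : Type*} [CommRing S'] (φ : S →+* S')

theorem map_GA (A : List ℕ) : φ (GA u y A) = GA (φ u) (φ y) A := by
  induction A with
  | nil => simp [GA]
  | cons a A ih => simp [GA, ih]

theorem map_II_wE (n : ℕ) : φ (II (wE u v) n) = II (wE (φ u) (φ v)) n := by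
  simp only [II, map_list_sum, List.map_map]
  congr 1
  apply List.map_congr_left
  intro s _
  simp [wE]

theorem map_II_wg (n : ℕ) : φ (II (wg u v w) n) = II (wg (φ u) (φ v) (φ w)) n := by
  simp only [II, map_list_sum, List.map_map]
  congr 1
  apply List.map_congr_left
  intro s _
  simp [wg, map_GA]
end Nat'

end Seq

section Symm

open MvPolynomial

abbrev A0 := MvPolynomial (Fin 3) ℤ

noncomputable def Uu : A0 := X 0
noncomputable def Vv : A0 := X 1
noncomputable def Ww : A0 := X 2

/-- universal evaluation -/
noncomputable def ev {S : Type*} [CommRing S] (u v w : S) : A0 →+* S :=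
  eval₂Hom (Int.castRingHom S) ![u, v, w]

theorem ev_U {S : Type*} [CommRing S] (u v w : S) : ev u v w Uu = u := by
  simp [ev, Uu]
theorem ev_V {S : Type*} [CommRing S] (u v w : S) : ev u v w Vv = v := by
  simp [ev, Vv]
theorem ev_W {S : Type*} [CommRing S] (u v w : S) : ev u v w Ww = w := by
  simp [ev, Ww]

theorem symm_main (n : ℕ) :
    II (wg Uu Vv Ww) n = II (wg Vv Uu Ww) n ∧ II (wE Uu Vv) n = II (wE Vv Uu) n := by
  induction n using Nat.strong_induction_on with
  | _ N ih =>
    have ihg : ∀ {S : Type} [CommRing S] (u v w : S) (m : ℕ), m < N →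
        II (wg u v w) m = II (wg v u w) m := by
      intro S _ u v w m hm
      have h := congrArg (ev u v w) (ih m hm).1
      rwa [map_II_wg, map_II_wg, ev_U, ev_V, ev_W] at h
    have ihE : ∀ {S : Type} [CommRing S] (u v : S) (m : ℕ), m < N →
        II (wE u v) m = II (wE v u) m := by
      intro S _ u v m hm
      have h := congrArg (ev u v (0 : S)) (ih m hm).2
      rwa [map_II_wE, map_II_wE, ev_U, ev_V] at h
    -- the power series ring
    let t : PowerSeries A0 := PowerSeries.X
    let u : PowerSeries A0 := PowerSeries.C Uu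
    let v : PowerSeries A0 := PowerSeries.C Vv
    let w : PowerSeries A0 := PowerSeries.C Ww
    have hunit : IsUnit (1 - t * w) := by
      rw [PowerSeries.isUnit_iff_constantCoeff]
      simp [t, w]
    obtain ⟨r, hr⟩ := hunit.exists_left_inv
    let y : PowerSeries A0 := w * (1 - t) * r
    have hk : y * (1 - t * w) = w * (1 - t) := by
      show w * (1 - t) * r * (1 - t * w) = w * (1 - t)
      rw [mul_assoc, hr, mul_one]
    have hy : PowerSeries.constantCoeff y = Ww := by
      have h := congrArg PowerSeries.constantCoeff hk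
      simpa [t, w] using h
    obtain ⟨δ1, h1⟩ := func_eq t u v w y hk N
    obtain ⟨δ2, h2⟩ := func_eq t v u w y hk N
    -- truncated sums differ only in the last term
    have hTS : ∀ (g g' : ℕ → PowerSeries A0), (∀ m < N, g m = g' m) →
        TS t g N - TS t g' N = t ^ N * (g N - g' N) := by
      intro g g' hgg
      simp only [TS, Finset.sum_range_succ]
      have : ∑ n ∈ Finset.range N, t ^ n * g n = ∑ n ∈ Finset.range N, t ^ n * g' n := by
        apply Finset.sum_congr rfl
        intro m hm
        rw [hgg m (Finset.mem_range.mp hm)]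
      rw [this]; ring
    have d1 := hTS (II (wg u v y)) (II (wg v u y)) (fun m hm => ihg u v y m hm)
    have d2 := hTS (II (wE u v)) (II (wE v u)) (fun m hm => ihE u v m hm)
    have d3 := hTS (II (wg u v w)) (II (wg v u w)) (fun m hm => ihg u v w m hm)
    have h3 : t ^ N * ((1 - t) * ((II (wg u v y) N - II (wg v u y) N)
        - (II (wE u v) N - II (wE v u) N)
        - w * (1 - u * t) * (1 - v * t) * (II (wg u v w) N - II (wg v u w) N)))
        = t ^ N * (t * (δ1 - δ2)) := by
      linear_combination h1 - h2 - (1 - t) * d1 + (1 - t) * d2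
        + (1 - t) * (w * (1 - u * t) * (1 - v * t)) * d3
    have ht : t ^ N ≠ 0 := pow_ne_zero _ PowerSeries.X_ne_zero
    have h4 := mul_left_cancel₀ ht h3
    have h5 := congrArg PowerSeries.constantCoeff h4
    have hc : ∀ a : A0, PowerSeries.constantCoeff (PowerSeries.C a) = a := by
      intro a; simp
    have hu : PowerSeries.constantCoeff u = Uu := hc _
    have hv : PowerSeries.constantCoeff v = Vv := hc _
    have hw : PowerSeries.constantCoeff w = Ww := hc _
    have ht0 : PowerSeries.constantCoeff t = 0 := by simp [t]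
    simp only [map_mul, map_sub, map_one, ht0, map_II_wg, map_II_wE, hu, hv, hw, hy] at h5
    have h6 : (1 - Ww) * (II (wg Uu Vv Ww) N - II (wg Vv Uu Ww) N)
        = II (wE Uu Vv) N - II (wE Vv Uu) N := by
      linear_combination h5
    -- evaluate W = 1
    have h7 := congrArg (ev Uu Vv (1 : A0)) h6
    simp only [map_mul, map_sub, map_one, map_II_wg, map_II_wE, ev_U, ev_V, ev_W] at h7
    have h8 : II (wE Uu Vv) N - II (wE Vv Uu) N = 0 := by
      rw [← h7]; ring
    rw [h8] at h6
    have h9 : (1 - Ww : A0) ≠ 0 := by
      intro h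
      have := congrArg (ev (0 : ℤ) 0 0) h
      simp only [map_sub, map_one, ev_W, map_zero] at this
      norm_num at this
    have h10 := (mul_eq_zero.mp h6).resolve_left h9
    exact ⟨sub_eq_zero.mp h10, sub_eq_zero.mp h8⟩

end Symm

section Comb

/-- number of right-to-left maxima of a list -/
def rlc : List ℕ → ℕ
  | [] => 0
  | x :: l => (if ∀ y ∈ l, y < x then 1 else 0) + rlc l

/-- left stack, from reversed left part -/
def LA : List ℕ → List ℕ
  | [] => [0]
  | x :: r => if x + 1 ∈ r then rlc r :: LA r else LA r

/-- tail of the right stack -/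
def BT : List ℕ → List ℕ → List ℕ
  | _, [] => []
  | ρ, x :: τ => (if x + 1 ∈ ρ then [rlc τ] else []) ++ BT (x :: ρ) τ

def state (r : List ℕ) (m : ℕ) (τ : List ℕ) : St :=
  (rlc r + 1, LA r, rlc τ + 1, rlc τ :: BT (m :: r) τ)

theorem BT_congr (τ : List ℕ) : ∀ (ρ ρ' : List ℕ), (∀ x ∈ τ, (x + 1 ∈ ρ ↔ x + 1 ∈ ρ')) →
    BT ρ τ = BT ρ' τ := by
  induction τ with
  | nil => intro ρ ρ' _; simp [BT]
  | cons x τ ih =>
    intro ρ ρ' h
    simp only [BT]
    have h1 := h x (by simp)
    rw [ih (x :: ρ) (x :: ρ')]
    · simp only [h1]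
    · intro y hy
      have := h y (by simp [hy])
      simp only [List.mem_cons, this]

def leftIns : List ℕ → List ℕ → List (List ℕ × List ℕ)
  | [], τ' => [([], τ')]
  | x :: r, τ' => (if x + 1 ∈ r then [(x :: r, τ')] else []) ++ leftIns r (x :: τ')

def rightTail : List ℕ → List ℕ → List (List ℕ × List ℕ)
  | _, [] => []
  | ρ, x :: τ => (if x + 1 ∈ ρ then [(x :: ρ, τ)] else []) ++ rightTail (x :: ρ) τ

theorem rlc_cons_of_lt {x m : ℕ} {l : List ℕ} (hm : m ∈ l) (hx : x < m) : rlc (x :: l) = rlc l := by
  simp only [rlc]
  rw [if_neg, zero_add]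
  intro h
  have := h m hm
  omega

theorem rlc_cons_of_max {m : ℕ} {l : List ℕ} (h : ∀ y ∈ l, y < m) : rlc (m :: l) = rlc l + 1 := by
  simp only [rlc]
  rw [if_pos h, add_comm]

theorem left_states (m : ℕ) (R : ℕ) : ∀ (r τ' : List ℕ), m ∈ τ' → rlc τ' = R → (∀ x ∈ r, x < m) →
    (leftIns r τ').map (fun p => state p.1 (m + 1) p.2) =
    (suff (LA r)).map (fun p => (p.2.1 + 1, p.2.2, R + 1,
      List.replicate p.1 R ++ (R :: BT ((m + 1) :: r) τ'))) := by
  intro r
  induction r with
  | nil =>
    intro τ' hm hR _
    simp [leftIns, LA, suff, state, rlc, hR]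
  | cons x r ih =>
    intro τ' hm hR hx
    have hxm : x < m := hx x (by simp)
    have h1 : rlc (x :: τ') = R := by rw [rlc_cons_of_lt hm hxm, hR]
    have ih' := ih (x :: τ') (by simp [hm]) h1 (fun z hz => hx z (by simp [hz]))
    simp only [leftIns, LA, List.map_append]
    rw [ih']
    have hBT : BT ((m + 1) :: r) (x :: τ') =
        (if x + 1 ∈ r then [R] else []) ++ BT ((m + 1) :: x :: r) τ' := by
      simp only [BT, hR]
      have e1 : (x + 1 ∈ (m + 1) :: r) ↔ x + 1 ∈ r := by
        simp only [List.mem_cons]
        constructor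
        · rintro (h | h)
          · omega
          · exact h
        · intro h; exact Or.inr h
      simp only [e1]
      congr 1
      apply BT_congr
      intro z _
      simp only [List.mem_cons]
      tauto
    rw [hBT]
    by_cases hact : x + 1 ∈ r
    · rw [if_pos hact, if_pos hact, if_pos hact]
      simp only [suff, List.map_cons, List.map_nil, List.map_map]
      have hnl : ¬ (∀ y ∈ r, y < x) := by
        intro h
        have := h _ hact
        omega
      have h2 : rlc (x :: r) = rlc r := by simp [rlc, hnl]
      simp only [List.singleton_append, List.cons.injEq]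
      constructor
      · simp [state, h2, LA, hact, hR]
      · apply List.map_congr_left
        intro p _
        simp [Function.comp, List.replicate_succ', List.append_assoc]
    · rw [if_neg hact, if_neg hact, if_neg hact]
      simp

theorem left_states' (m : ℕ) (r τ : List ℕ) (hr : ∀ x ∈ r, x < m) (hτ : ∀ x ∈ τ, x < m) :
    (leftIns r (m :: τ)).map (fun p => state p.1 (m + 1) p.2) = chA (state r m τ) := by
  have h1 : rlc (m :: τ) = rlc τ + 1 := rlc_cons_of_max hτ
  rw [left_states m (rlc τ + 1) r (m :: τ) (by simp) h1 hr]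
  unfold chA
  apply List.map_congr_left
  intro p _
  have h2 : BT ((m + 1) :: r) (m :: τ) = rlc τ :: BT (m :: r) τ := by
    simp only [BT]
    rw [if_pos (by simp)]
    simp only [List.singleton_append, List.cons.injEq, true_and]
    apply BT_congr
    intro z hz
    have := hτ z hz
    simp only [List.mem_cons]
    constructor
    · rintro (h | h | h)
      · exact Or.inl h
      · omega
      · exact Or.inr h
    · rintro (h | h)
      · exact Or.inl h
      · exact Or.inr (Or.inr h)
  rw [h2]
  simp [state, List.replicate_succ', List.append_assoc]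

theorem right_states (m : ℕ) (L : ℕ) : ∀ (τ ρ : List ℕ), m ∈ ρ → rlc ρ = L → (∀ x ∈ τ, x < m) →
    (rightTail ρ τ).map (fun p => state p.1 (m + 1) p.2) =
    (suff (BT ρ τ)).map (fun p => (L + 1, List.replicate (p.1 + 1) L ++ LA ρ, p.2.1 + 1, p.2.2)) := by
  intro τ
  induction τ with
  | nil => intro ρ _ _ _; simp [rightTail, BT, suff]
  | cons x τ ih =>
    intro ρ hm hL hx
    have hxm : x < m := hx x (by simp)
    have h1 : rlc (x :: ρ) = L := by rw [rlc_cons_of_lt hm hxm, hL]
    have ih' := ih (x :: ρ) (by simp [hm]) h1 (fun z hz => hx z (by simp [hz]))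
    simp only [rightTail, BT, List.map_append]
    rw [ih']
    by_cases hact : x + 1 ∈ ρ
    · rw [if_pos hact, if_pos hact]
      simp only [List.singleton_append, suff, List.map_cons, List.map_nil, List.map_map,
        List.cons.injEq]
      constructor
      · have : BT ((m + 1) :: x :: ρ) τ = BT (x :: ρ) τ := by
          apply BT_congr
          intro z hz
          have := hx z (by simp [hz])
          simp only [List.mem_cons]
          constructor
          · rintro (h | h | h)
            · omega
            · exact Or.inl h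
            · exact Or.inr h
          · rintro (h | h)
            · exact Or.inr (Or.inl h)
            · exact Or.inr (Or.inr h)
        simp [state, h1, LA, hact, hL, this]
      · apply List.map_congr_left
        intro p _
        simp [Function.comp, LA, hact, hL, List.replicate_succ']
    · rw [if_neg hact, if_neg hact]
      simp only [List.map_nil, List.nil_append]
      apply List.map_congr_left
      intro p _
      simp [LA, hact]

theorem right_states' (m : ℕ) (r τ : List ℕ) (hr : ∀ x ∈ r, x < m) (hτ : ∀ x ∈ τ, x < m) :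
    (((m :: r, τ) :: rightTail (m :: r) τ).map (fun p => state p.1 (m + 1) p.2))
      = chB (state r m τ) := by
  have h1 : rlc (m :: r) = rlc r + 1 := rlc_cons_of_max hr
  have hLA : LA (m :: r) = LA r := by
    simp only [LA]
    rw [if_neg]
    intro h
    have := hr _ h
    omega
  simp only [List.map_cons]
  rw [right_states m (rlc r + 1) τ (m :: r) (by simp) h1 hτ]
  unfold chB
  simp only [state, suff, List.map_cons, List.map_map, List.cons.injEq]
  constructor
  · have : BT ((m + 1) :: m :: r) τ = BT (m :: r) τ := by
      apply BT_congr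
      intro z hz
      have := hτ z hz
      simp only [List.mem_cons]
      constructor
      · rintro (h | h | h)
        · omega
        · exact Or.inl h
        · exact Or.inr h
      · rintro (h | h)
        · exact Or.inr (Or.inl h)
        · exact Or.inr (Or.inr h)
    simp [h1, hLA, this]
  · apply List.map_congr_left
    intro p _
    simp [Function.comp, hLA]

/-- zipper children -/
def zch (z : List ℕ × List ℕ) (m : ℕ) : List (List ℕ × List ℕ) :=
  leftIns z.1 (m :: z.2) ++ ((m :: z.1, z.2) :: rightTail (m :: z.1) z.2)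

/-- zippers: at stage n the maximum is n -/
def ZN : ℕ → List (List ℕ × List ℕ)
  | 0 => [([], [])]
  | n + 1 => (ZN n).flatMap (fun z => zch z n)

def toL (n : ℕ) (z : List ℕ × List ℕ) : List ℕ := z.1.reverse ++ n :: z.2

theorem mem_leftIns : ∀ (r τ' : List ℕ) (p : List ℕ × List ℕ), p ∈ leftIns r τ' ↔
    ∃ r2, r = r2 ++ p.1 ∧ p.2 = r2.reverse ++ τ' ∧
      (p.1 = [] ∨ ∃ x r1, p.1 = x :: r1 ∧ x + 1 ∈ r1) := by
  intro r
  induction r with
  | nil =>
    intro τ' p
    simp only [leftIns, List.mem_singleton]
    constructor
    · rintro rfl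
      exact ⟨[], by simp, by simp, Or.inl rfl⟩
    · rintro ⟨r2, h1, h2, _⟩
      have h3 := List.append_eq_nil_iff.mp h1.symm
      obtain ⟨rfl, h4⟩ := h3
      ext1
      · exact h4
      · simpa using h2
  | cons x r ih =>
    intro τ' p
    simp only [leftIns, List.mem_append, ih]
    constructor
    · rintro (h | ⟨r2, h1, h2, h3⟩)
      · split_ifs at h with hx
        · simp only [List.mem_singleton] at h
          subst h
          exact ⟨[], by simp, by simp, Or.inr ⟨x, r, rfl, hx⟩⟩
        · simp at h
      · exact ⟨x :: r2, by simp [h1], by simp [h2], h3⟩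
    · rintro ⟨r2, h1, h2, h3⟩
      cases r2 with
      | nil =>
        left
        simp only [List.nil_append, List.reverse_nil] at h1 h2
        rcases h3 with h3 | ⟨x', r1, h3, h4⟩
        · rw [h3] at h1; simp at h1
        · rw [h3] at h1
          simp only [List.cons.injEq] at h1
          obtain ⟨rfl, rfl⟩ := h1
          rw [if_pos h4]
          simp only [List.mem_singleton]
          ext1
          · exact h3
          · exact h2
      | cons z r2 =>
        right
        simp only [List.cons_append, List.cons.injEq] at h1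
        obtain ⟨rfl, h1⟩ := h1
        exact ⟨r2, h1, by simpa using h2, h3⟩

theorem mem_rightTail : ∀ (τ ρ : List ℕ) (p : List ℕ × List ℕ), p ∈ rightTail ρ τ ↔
    ∃ τ1 x, τ = τ1 ++ x :: p.2 ∧ p.1 = x :: (τ1.reverse ++ ρ) ∧ x + 1 ∈ τ1.reverse ++ ρ := by
  intro τ
  induction τ with
  | nil =>
    intro ρ p
    simp [rightTail]
  | cons y τ ih =>
    intro ρ p
    simp only [rightTail, List.mem_append, ih]
    constructor
    · rintro (h | ⟨τ1, x, h1, h2, h3⟩)
      · split_ifs at h with hx
        · simp only [List.mem_singleton] at h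
          subst h
          exact ⟨[], y, by simp, by simp, by simpa using hx⟩
        · simp at h
      · exact ⟨y :: τ1, x, by simp [h1], by simp [h2], by
          simp only [List.reverse_cons, List.mem_append, List.mem_cons, List.mem_reverse] at h3 ⊢
          simp only [List.not_mem_nil, or_false]
          tauto⟩
    · rintro ⟨τ1, x, h1, h2, h3⟩
      cases τ1 with
      | nil =>
        left
        simp only [List.nil_append, List.cons.injEq] at h1
        obtain ⟨rfl, rfl⟩ := h1
        simp only [List.reverse_nil, List.nil_append] at h2 h3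
        have h3' : y + 1 ∈ ρ := by simpa using h3
        rw [if_pos h3']
        simp only [List.mem_singleton]
        ext1
        · exact h2
        · rfl
      | cons z τ1 =>
        right
        simp only [List.cons_append, List.cons.injEq] at h1
        obtain ⟨rfl, h1⟩ := h1
        refine ⟨τ1, x, h1, by simpa using h2, ?_⟩
        simp only [List.reverse_cons, List.append_assoc, List.mem_append, List.mem_cons,
          List.mem_reverse] at h3 ⊢
        simp only [List.not_mem_nil, or_false] at h3
        tauto


theorem ZN_lt : ∀ (n : ℕ) (z : List ℕ × List ℕ), z ∈ ZN n →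
    (∀ x ∈ z.1, x < n) ∧ (∀ x ∈ z.2, x < n) := by
  intro n
  induction n with
  | zero =>
    intro z hz
    simp only [ZN, List.mem_singleton] at hz
    subst hz
    simp
  | succ n ih =>
    intro z hz
    simp only [ZN, List.mem_flatMap, zch, List.mem_append, List.mem_cons] at hz
    obtain ⟨z0, hz0, h⟩ := hz
    obtain ⟨h1, h2⟩ := ih z0 hz0
    rcases h with h | h | h
    · rw [mem_leftIns] at h
      obtain ⟨r2, e1, e2, _⟩ := h
      constructor
      · intro x hx
        have : x < n := h1 x (by rw [e1]; simp [hx])
        omega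
      · intro x hx
        rw [e2] at hx
        simp only [List.mem_append, List.mem_reverse, List.mem_cons] at hx
        rcases hx with hx | hx | hx
        · have : x < n := h1 x (by rw [e1]; simp [hx])
          omega
        · omega
        · have := h2 x hx
          omega
    · subst h
      constructor
      · intro x hx
        simp only [List.mem_cons] at hx
        rcases hx with hx | hx
        · omega
        · have := h1 x hx
          omega
      · intro x hx
        have := h2 x hx
        omega
    · rw [mem_rightTail] at h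
      obtain ⟨τ1, y, e1, e2, _⟩ := h
      constructor
      · intro x hx
        rw [e2] at hx
        simp only [List.mem_cons, List.mem_append, List.mem_reverse] at hx
        rcases hx with hx | hx | hx | hx
        · have := h2 x (by rw [e1]; simp [hx])
          omega
        · have := h2 x (by rw [e1]; simp [hx])
          omega
        · omega
        · have := h1 x hx
          omega
      · intro x hx
        have := h2 x (by rw [e1]; simp [hx])
        omega

theorem ZN_states : ∀ n : ℕ, (ZN n).map (fun z => state z.1 n z.2) = statesN n := by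
  intro n
  induction n with
  | zero => simp [ZN, statesN, state, rlc, LA, BT]
  | succ n ih =>
    rw [statesN, ← ih, ZN, List.map_flatMap, List.flatMap_map]
    rw [List.flatMap_def, List.flatMap_def]
    congr 1
    apply List.map_congr_left
    intro z hz
    obtain ⟨h1, h2⟩ := ZN_lt n z hz
    rw [zch, List.map_append, left_states' n z.1 z.2 h1 h2, right_states' n z.1 z.2 h1 h2]
    rfl

/-- avoidance for lists -/
def Av : List ℕ → Prop
  | a :: b :: s => ¬ (a + 1 ∈ s ∧ a + 1 < b) ∧ Av (b :: s)
  | _ => True

/-- the site between `l1` and `l2` is active -/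
def act (l1 l2 : List ℕ) : Prop := ∀ a, l1.getLast? = some a → a + 1 ∉ l2

theorem Av_cons_big (n : ℕ) (l : List ℕ) (h : ∀ x ∈ l, x < n) : Av (n :: l) ↔ Av l := by
  cases l with
  | nil => simp [Av]
  | cons b s =>
    simp only [Av]
    constructor
    · exact fun h => h.2
    · intro h'
      refine ⟨?_, h'⟩
      rintro ⟨h1, h2⟩
      have := h (n + 1) (by simp [h1])
      omega

theorem Av_insert (n : ℕ) (l2 : List ℕ) (h2 : ∀ x ∈ l2, x < n) : ∀ (l1 : List ℕ),
    (∀ x ∈ l1, x < n) → (Av (l1 ++ n :: l2) ↔ Av (l1 ++ l2) ∧ act l1 l2) := by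
  intro l1
  induction l1 with
  | nil =>
    intro _
    simp only [List.nil_append, act, List.getLast?_nil]
    rw [Av_cons_big n l2 h2]
    simp
  | cons a l1 ih =>
    intro h1
    have ih' := ih (fun x hx => h1 x (by simp [hx]))
    cases l1 with
    | nil =>
      simp only [List.cons_append, List.nil_append, act, List.getLast?_singleton,
        Option.some.injEq, forall_eq'] at ih' ⊢
      simp only [Av]
      rw [Av_cons_big n l2 h2]
      cases l2 with
      | nil => simp [Av]
      | cons b s =>
        simp only [Av, List.mem_cons]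
        constructor
        · rintro ⟨h3, h4⟩
          refine ⟨⟨?_, h4⟩, ?_⟩
          · rintro ⟨h5, h6⟩
            apply h3
            refine ⟨Or.inr h5, ?_⟩
            exact h2 _ (by simp [h5])
          · intro h5
            apply h3
            refine ⟨h5, ?_⟩
            exact h2 _ (by simpa using h5)
        · rintro ⟨⟨_, h4⟩, h5⟩
          exact ⟨fun h => h5 h.1, h4⟩
    | cons b l1 =>
      simp only [List.cons_append] at ih' ⊢
      simp only [Av]
      rw [ih']
      have hb : b < n := h1 b (by simp)
      have e1 : act (a :: b :: l1) l2 ↔ act (b :: l1) l2 := by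
        simp [act, List.getLast?_cons_cons]
      rw [e1]
      have e2 : (a + 1 ∈ l1 ++ n :: l2 ∧ a + 1 < b) ↔ (a + 1 ∈ l1 ++ l2 ∧ a + 1 < b) := by
        simp only [List.mem_append, List.mem_cons]
        constructor
        · rintro ⟨h3 | h3 | h3, h4⟩
          · exact ⟨Or.inl h3, h4⟩
          · omega
          · exact ⟨Or.inr h3, h4⟩
        · rintro ⟨h3 | h3, h4⟩
          · exact ⟨Or.inl h3, h4⟩
          · exact ⟨Or.inr (Or.inr h3), h4⟩
      rw [e2]
      tauto

/-- characterization of the zippers -/
theorem mem_ZN : ∀ (n : ℕ) (z : List ℕ × List ℕ),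
    z ∈ ZN n ↔ (toL n z).Perm (List.range (n + 1)) ∧ Av (toL n z) := by
  intro n
  induction n with
  | zero =>
    intro z
    simp only [ZN, List.mem_singleton, toL]
    constructor
    · rintro rfl
      simp [Av]
    · rintro ⟨h, _⟩
      have hl := h.length_eq
      simp only [List.length_append, List.length_reverse, List.length_cons, List.length_range] at hl
      obtain ⟨a, b⟩ := z
      simp only at hl
      have ha : a = [] := List.eq_nil_of_length_eq_zero (by omega)
      have hb : b = [] := List.eq_nil_of_length_eq_zero (by omega)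
      rw [ha, hb]
  | succ n ih =>
    intro z
    constructor
    · intro hz
      have hlt := ZN_lt (n + 1) z hz
      simp only [ZN, List.mem_flatMap, zch, List.mem_append, List.mem_cons] at hz
      obtain ⟨z0, hz0, h⟩ := hz
      obtain ⟨hp, hav⟩ := (ih z0).mp hz0
      obtain ⟨h1, h2⟩ := ZN_lt n z0 hz0
      -- the concatenation of the two sides is toL n z0
      have hsplit : z.1.reverse ++ z.2 = toL n z0 := by
        rcases h with h | h | h
        · rw [mem_leftIns] at h
          obtain ⟨r2, e1, e2, _⟩ := h
          rw [e2, toL, e1]; simp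
        · subst h; simp [toL]
        · rw [mem_rightTail] at h
          obtain ⟨τ1, y, e1, e2, _⟩ := h
          rw [e2, toL, e1]; simp
      have hnd : (toL n z0).Nodup := (hp.nodup_iff).mpr List.nodup_range
      have hact : act z.1.reverse z.2 := by
        intro a ha hmem
        rw [List.getLast?_reverse] at ha
        obtain ⟨x, r1, hzr⟩ : ∃ x r1, z.1 = x :: r1 := by
          cases hh : z.1 with
          | nil => rw [hh] at ha; simp at ha
          | cons x r1 => exact ⟨x, r1, rfl⟩
        have hxa : x = a := by rw [hzr] at ha; simpa using ha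
        subst hxa
        have key : x + 1 ∈ r1 ∨ x = n := by
          rcases h with h | h | h
          · rw [mem_leftIns] at h
            obtain ⟨r2, e1, e2, h3⟩ := h
            rcases h3 with h3 | ⟨x', r1', h3, h4⟩
            · rw [h3] at hzr; simp at hzr
            · rw [h3] at hzr
              simp only [List.cons.injEq] at hzr
              obtain ⟨rfl, rfl⟩ := hzr
              exact Or.inl h4
          · subst h
            simp only [List.cons.injEq] at hzr
            exact Or.inr hzr.1.symm
          · rw [mem_rightTail] at h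
            obtain ⟨τ1, y, e1, e2, h3⟩ := h
            rw [hzr] at e2
            simp only [List.cons.injEq] at e2
            obtain ⟨rfl, rfl⟩ := e2
            exact Or.inl h3
        rcases key with key | key
        · -- x+1 occurs both in z.1 and z.2: contradiction with nodup
          rw [← hsplit, hzr] at hnd
          have := List.disjoint_of_nodup_append hnd
          exact this (a := x + 1) (by simp [key]) hmem
        · subst key
          have hm : x + 1 ∈ toL x z0 := by
            rw [← hsplit]; simp [hmem]
          have := (hp.mem_iff).mp hm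
          simp at this
      constructor
      · have : (toL (n + 1) z).Perm ((n + 1) :: (z.1.reverse ++ z.2)) := by
          simp only [toL]
          exact List.perm_middle
        refine this.trans ?_
        rw [hsplit, List.range_succ (n := n + 1)]
        refine (List.Perm.cons (n + 1) hp).trans ?_
        exact (List.perm_append_singleton (n + 1) (List.range (n + 1))).symm
      · simp only [toL]
        rw [Av_insert (n + 1) z.2 hlt.2 z.1.reverse (by simpa using hlt.1)]
        exact ⟨by rw [hsplit]; exact hav, hact⟩
    · rintro ⟨hp, hav⟩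
      have hnd : (toL (n + 1) z).Nodup := (hp.nodup_iff).mpr List.nodup_range
      have hlt : ∀ x ∈ z.1.reverse ++ z.2, x < n + 1 := by
        intro x hx
        have hm : x ∈ toL (n + 1) z := by
          simp only [toL, List.mem_append, List.mem_cons] at hx ⊢
          tauto
        have h1 := (hp.mem_iff).mp hm
        simp only [List.mem_range] at h1
        have h2 : x ≠ n + 1 := by
          rintro rfl
          simp only [toL] at hnd
          rw [List.nodup_middle] at hnd
          exact (List.nodup_cons.mp hnd).1 hx
        omega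
      have hlt1 : ∀ x ∈ z.1.reverse, x < n + 1 := fun x hx => hlt x (by simp at hx ⊢; tauto)
      have hlt2 : ∀ x ∈ z.2, x < n + 1 := fun x hx => hlt x (by simp [hx])
      have hp0 : (z.1.reverse ++ z.2).Perm (List.range (n + 1)) := by
        have h1 : ((n + 1) :: (z.1.reverse ++ z.2)).Perm ((n + 1) :: List.range (n + 1)) := by
          have h2 : (toL (n + 1) z).Perm ((n + 1) :: (z.1.reverse ++ z.2)) := by
            simp only [toL]
            exact List.perm_middle
          refine h2.symm.trans (hp.trans ?_)
          rw [List.range_succ (n := n + 1)]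
          exact List.perm_append_singleton (n + 1) (List.range (n + 1))
        exact (List.perm_cons _).mp h1
      simp only [toL] at hav
      rw [Av_insert (n + 1) z.2 hlt2 z.1.reverse hlt1] at hav
      obtain ⟨hav0, hact⟩ := hav
      -- split at n
      have hnmem : n ∈ z.1.reverse ++ z.2 := (hp0.mem_iff).mpr (by simp)
      have hnd0 : (z.1.reverse ++ z.2).Nodup := (hp0.nodup_iff).mpr List.nodup_range
      -- x+1 known to be present
      have hact' : ∀ x r1, z.1 = x :: r1 → x ≠ n → x + 1 ∈ r1 := by
        intro x r1 hz1 hxn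
        have h1 : x < n + 1 := hlt x (by rw [hz1]; simp)
        have h2 : x + 1 ∈ z.1.reverse ++ z.2 := (hp0.mem_iff).mpr (by simp; omega)
        have h3 : x + 1 ∉ z.2 := hact x (by rw [hz1]; simp)
        rw [hz1] at h2
        simp only [List.reverse_cons, List.append_assoc, List.mem_append, List.mem_reverse,
          List.mem_cons, List.not_mem_nil, or_false] at h2
        rcases h2 with h2 | h2 | h2
        · exact h2
        · omega
        · exact absurd h2 h3
      simp only [ZN, List.mem_flatMap, zch, List.mem_append, List.mem_cons]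
      rcases List.mem_append.mp hnmem with hn1 | hn2
      · -- n in the left part: right insertion
        rw [List.mem_reverse] at hn1
        obtain ⟨ra, rb, hr⟩ := List.append_of_mem hn1
        refine ⟨(rb, ra.reverse ++ z.2), ?_, Or.inr ?_⟩
        · rw [ih]
          have e : toL n (rb, ra.reverse ++ z.2) = z.1.reverse ++ z.2 := by
            simp [toL, hr]
          rw [e]
          exact ⟨hp0, hav0⟩
        · cases ra with
          | nil =>
            left
            simp only [List.nil_append] at hr
            ext1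
            · exact hr
            · simp
          | cons x ra =>
            right
            rw [mem_rightTail]
            refine ⟨ra.reverse, x, by simp, by simp [hr], ?_⟩
            have hxn : x ≠ n := by
              rintro rfl
              rw [hr] at hnd0
              have h9 := List.Nodup.of_append_left hnd0
              rw [List.nodup_reverse, List.nodup_middle] at h9
              exact (List.nodup_cons.mp h9).1 (by simp)
            have := hact' x (ra ++ n :: rb) (by simp [hr]) hxn
            simpa using this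
      · obtain ⟨ta, tb, ht⟩ := List.append_of_mem hn2
        refine ⟨(ta.reverse ++ z.1, tb), ?_, Or.inl ?_⟩
        · rw [ih]
          have e : toL n (ta.reverse ++ z.1, tb) = z.1.reverse ++ z.2 := by
            simp [toL, ht]
          rw [e]
          exact ⟨hp0, hav0⟩
        · rw [mem_leftIns]
          refine ⟨ta.reverse, rfl, by simp [ht], ?_⟩
          cases hz1 : z.1 with
          | nil => exact Or.inl rfl
          | cons x r1 =>
            right
            refine ⟨x, r1, rfl, ?_⟩
            apply hact' x r1 hz1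
            rintro rfl
            rw [hz1, ht] at hnd0
            have h9 := List.disjoint_of_nodup_append hnd0
            exact h9 (a := x) (by simp) (by simp)

theorem leftIns_len : ∀ (r τ' : List ℕ) (p : List ℕ × List ℕ), p ∈ leftIns r τ' →
    p.1.length ≤ r.length := by
  intro r τ' p hp
  rw [mem_leftIns] at hp
  obtain ⟨r2, e1, _⟩ := hp
  rw [e1]; simp

theorem leftIns_nodup : ∀ (r τ' : List ℕ), (leftIns r τ').Nodup := by
  intro r
  induction r with
  | nil => intro τ'; simp [leftIns]
  | cons x r ih =>
    intro τ'
    simp only [leftIns]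
    rw [List.nodup_append]
    refine ⟨by split_ifs <;> simp, ih _, ?_⟩
    intro a ha b hb hab
    subst hab
    have h1 := leftIns_len _ _ _ hb
    split_ifs at ha with h
    · simp only [List.mem_singleton] at ha
      subst ha
      simp at h1
    · simp at ha

theorem rightTail_len : ∀ (τ ρ : List ℕ) (p : List ℕ × List ℕ), p ∈ rightTail ρ τ →
    p.2.length < τ.length ∧ ρ.length < p.1.length := by
  intro τ ρ p hp
  rw [mem_rightTail] at hp
  obtain ⟨τ1, x, e1, e2, _⟩ := hp
  constructor
  · rw [e1]; simp only [List.length_append, List.length_cons]; omega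
  · rw [e2]; simp only [List.length_append, List.length_cons]; omega

theorem rightTail_nodup : ∀ (τ ρ : List ℕ), (rightTail ρ τ).Nodup := by
  intro τ
  induction τ with
  | nil => intro ρ; simp [rightTail]
  | cons x τ ih =>
    intro ρ
    simp only [rightTail]
    rw [List.nodup_append]
    refine ⟨by split_ifs <;> simp, ih _, ?_⟩
    intro a ha b hb hab
    subst hab
    have h1 := rightTail_len _ _ _ hb
    split_ifs at ha with h
    · simp only [List.mem_singleton] at ha
      subst ha
      exact absurd h1.1 (lt_irrefl _)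
    · simp at ha

theorem zch_nodup (z : List ℕ × List ℕ) (m : ℕ) : (zch z m).Nodup := by
  unfold zch
  rw [List.nodup_append]
  refine ⟨leftIns_nodup _ _, ?_, ?_⟩
  · rw [List.nodup_cons]
    refine ⟨?_, rightTail_nodup _ _⟩
    intro h
    have := rightTail_len _ _ _ h
    simp at this
  · intro a ha b hb hab
    subst hab
    have h1 := leftIns_len _ _ _ ha
    rw [List.mem_cons] at hb
    rcases hb with hb | hb
    · subst hb; simp at h1
    · have h2 := (rightTail_len _ _ _ hb).2
      simp at h2
      omega

theorem zch_concat {z w : List ℕ × List ℕ} {m : ℕ} (h : w ∈ zch z m) :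
    w.1.reverse ++ w.2 = toL m z := by
  simp only [zch, List.mem_append, List.mem_cons] at h
  rcases h with h | h | h
  · rw [mem_leftIns] at h
    obtain ⟨r2, e1, e2, _⟩ := h
    rw [e2, toL, e1]; simp
  · subst h; simp [toL]
  · rw [mem_rightTail] at h
    obtain ⟨τ1, y, e1, e2, _⟩ := h
    rw [e2, toL, e1]; simp

theorem toL_inj {n : ℕ} {z w : List ℕ × List ℕ} (hz : ∀ x ∈ z.1, x < n) (hw : ∀ x ∈ w.1, x < n)
    (h : toL n z = toL n w) : z = w := by
  simp only [toL] at h
  rw [List.append_eq_append_iff] at h
  rcases h with ⟨a, h1, h2⟩ | ⟨a, h1, h2⟩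
  · cases a with
    | nil =>
      simp only [List.append_nil, List.nil_append, List.cons.injEq, true_and] at h1 h2
      ext1
      · exact (List.reverse_inj.mp h1.symm)
      · exact h2
    | cons c a =>
      simp only [List.cons_append, List.cons.injEq] at h2
      obtain ⟨rfl, h2⟩ := h2
      have : n ∈ w.1.reverse := by rw [h1]; simp
      rw [List.mem_reverse] at this
      have := hw n this
      omega
  · cases a with
    | nil =>
      simp only [List.append_nil, List.nil_append, List.cons.injEq, true_and] at h1 h2
      ext1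
      · exact (List.reverse_inj.mp h1)
      · exact h2.symm
    | cons c a =>
      simp only [List.cons_append, List.cons.injEq] at h2
      obtain ⟨rfl, h2⟩ := h2
      have : n ∈ z.1.reverse := by rw [h1]; simp
      rw [List.mem_reverse] at this
      have := hz n this
      omega

theorem ZN_nodup : ∀ n : ℕ, (ZN n).Nodup := by
  intro n
  induction n with
  | zero => simp [ZN]
  | succ n ih =>
    rw [ZN, List.nodup_flatMap]
    refine ⟨fun z _ => zch_nodup z n, ?_⟩
    refine List.Pairwise.imp_of_mem ?_ ih
    intro a b ha hb hab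
    intro w hwa hwb
    apply hab
    have h1 := zch_concat hwa
    have h2 := zch_concat hwb
    obtain ⟨a1, a2⟩ := ZN_lt n a ha
    obtain ⟨b1, b2⟩ := ZN_lt n b hb
    exact toL_inj a1 b1 (h1.symm.trans h2)

/-- number of left-to-right maxima, via reversal -/
theorem toL_rlc (n : ℕ) (z : List ℕ × List ℕ) (h1 : ∀ x ∈ z.1, x < n) (h2 : ∀ x ∈ z.2, x < n) :
    rlc (toL n z) = rlc z.2 + 1 ∧ rlc (toL n z).reverse = rlc z.1 + 1 := by
  have key : ∀ (a b : List ℕ), (∀ x ∈ a, x < n) → (∀ x ∈ b, x < n) →
      rlc (a ++ n :: b) = rlc b + 1 := by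
    intro a b ha hb
    induction a with
    | nil => simpa using rlc_cons_of_max hb
    | cons x a ih =>
      rw [List.cons_append, rlc_cons_of_lt (m := n) (by simp) (ha x (by simp))]
      exact ih (fun y hy => ha y (by simp [hy]))
  constructor
  · exact key _ _ (by simpa using h1) h2
  · simp only [toL, List.reverse_append, List.reverse_cons, List.reverse_reverse,
      List.append_assoc, List.singleton_append]
    exact key _ _ (by simpa using h2) h1

end Comb

section Perm

theorem rlc_ofFn : ∀ (n : ℕ) (f : Fin n → ℕ),
    rlc (List.ofFn f) = (Finset.univ.filter fun i : Fin n => ∀ m, i < m → f m < f i).card := by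
  intro n
  induction n with
  | zero => intro f; simp [rlc]
  | succ n ih =>
    intro f
    rw [List.ofFn_succ, rlc, ih, Finset.card_filter, Finset.card_filter, Fin.sum_univ_succ]
    congr 1
    · congr 1
      simp only [List.forall_mem_ofFn_iff, eq_iff_iff]
      constructor
      · intro h m hm
        obtain ⟨k, rfl⟩ := Fin.exists_succ_eq.mpr (Fin.pos_iff_ne_zero.mp hm)
        exact h k
      · intro h k
        exact h _ (Fin.succ_pos k)
    · apply Finset.sum_congr rfl
      intro j _
      congr 1
      simp only [eq_iff_iff]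
      constructor
      · intro h m hm
        have hm0 : m ≠ 0 := by
          rintro rfl
          exact absurd hm (by simp)
        obtain ⟨k, rfl⟩ := Fin.exists_succ_eq.mpr hm0
        exact h k (Fin.succ_lt_succ_iff.mp hm)
      · intro h k hk
        exact h _ (Fin.succ_lt_succ_iff.mpr hk)

theorem reverse_ofFn' {n : ℕ} (f : Fin n → ℕ) :
    (List.ofFn f).reverse = List.ofFn (fun i => f (Fin.rev i)) := by
  apply List.ext_getElem
  · simp
  · intro i h1 h2
    simp only [List.length_reverse, List.length_ofFn] at h1
    rw [List.getElem_reverse]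
    simp only [List.getElem_ofFn, List.length_ofFn]
    congr 1
    apply Fin.ext
    simp only [Fin.val_rev]
    omega

theorem lrc_ofFn (n : ℕ) (f : Fin n → ℕ) :
    rlc (List.ofFn f).reverse
      = (Finset.univ.filter fun i : Fin n => ∀ m, m < i → f m < f i).card := by
  rw [reverse_ofFn', rlc_ofFn]
  apply Finset.card_bij (fun i _ => Fin.rev i)
  · intro i hi
    simp only [Finset.mem_filter, Finset.mem_univ, true_and] at hi ⊢
    intro m hm
    have h := hi (Fin.rev m) (by rw [Fin.lt_rev_iff]; exact hm)
    simpa using h
  · intro i _ j _ h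
    exact Fin.rev_injective h
  · intro i hi
    refine ⟨Fin.rev i, ?_, by simp⟩
    simp only [Finset.mem_filter, Finset.mem_univ, true_and] at hi ⊢
    intro m hm
    simp only [Fin.rev_rev]
    apply hi
    rwa [Fin.rev_lt_iff]

theorem Av_ofFn : ∀ (n : ℕ) (f : Fin n → ℕ), Av (List.ofFn f) ↔
    ∀ i j k : Fin n, (i : ℕ) + 1 = j → j < k → f i + 1 = f k → ¬ f k < f j := by
  intro n
  induction n with
  | zero => intro f; simp [Av]
  | succ n ih =>
    intro f
    cases n with
    | zero =>
      simp only [Nat.reduceAdd, List.ofFn_succ, List.ofFn_zero, Av, true_iff]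
      intro i j k h1 h2
      exfalso
      have := j.isLt
      omega
    | succ n =>
      have ih' := ih (fun i => f i.succ)
      rw [List.ofFn_succ] at ih' ⊢
      rw [List.ofFn_succ]
      simp only [Av]
      rw [ih']
      constructor
      · rintro ⟨h1, h2⟩ i j k hij hjk hik hkj
        by_cases hi : i = 0
        · subst hi
          have hj : j = Fin.succ 0 := by
            apply Fin.ext
            simp at hij ⊢
            omega
          subst hj
          apply h1
          have hk0 : k ≠ 0 := by
            rintro rfl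
            exact absurd hjk (by simp)
          obtain ⟨k', rfl⟩ := Fin.exists_succ_eq.mpr hk0
          have hk1 : k' ≠ 0 := by
            rintro rfl
            exact absurd hjk (lt_irrefl _)
          obtain ⟨k'', rfl⟩ := Fin.exists_succ_eq.mpr hk1
          constructor
          · rw [List.mem_ofFn]
            exact ⟨k'', hik.symm⟩
          · rw [hik]; exact hkj
        · obtain ⟨i', rfl⟩ := Fin.exists_succ_eq.mpr hi
          have hj0 : j ≠ 0 := by
            rintro rfl
            simp at hij
          obtain ⟨j', rfl⟩ := Fin.exists_succ_eq.mpr hj0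
          have hk0 : k ≠ 0 := by
            rintro rfl
            exact absurd hjk (by simp)
          obtain ⟨k', rfl⟩ := Fin.exists_succ_eq.mpr hk0
          apply h2 i' j' k' _ (Fin.succ_lt_succ_iff.mp hjk) hik hkj
          simp at hij
          omega
      · intro h
        constructor
        · rintro ⟨h1, h2⟩
          rw [List.mem_ofFn] at h1
          obtain ⟨k, hk⟩ := h1
          refine h 0 (Fin.succ 0) (Fin.succ (Fin.succ k)) (by simp) ?_ hk.symm ?_
          · rw [Fin.succ_lt_succ_iff]
            exact Fin.succ_pos k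
          · rw [hk]; exact h2
        · intro i j k hij hjk
          exact h i.succ j.succ k.succ (by simp; omega) (Fin.succ_lt_succ_iff.mpr hjk)

/-- the list of values of a permutation -/
def vals {n : ℕ} (π : Equiv.Perm (Fin n)) : List ℕ := List.ofFn (fun i => ((π i : Fin n) : ℕ))

theorem vals_inj {n : ℕ} : Function.Injective (vals (n := n)) := by
  intro π σ h
  have := List.ofFn_injective h
  ext i
  exact congrFun this i

theorem vals_perm {n : ℕ} (π : Equiv.Perm (Fin n)) : (vals π).Perm (List.range n) := by
  have hnd : (vals π).Nodup := by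
    rw [vals, List.nodup_ofFn]
    intro i j h
    exact π.injective (Fin.ext h)
  rw [List.perm_ext_iff_of_nodup hnd List.nodup_range]
  intro a
  rw [vals, List.mem_ofFn, List.mem_range]
  constructor
  · rintro ⟨i, rfl⟩
    exact (π i).isLt
  · intro h
    refine ⟨π.symm ⟨a, h⟩, by simp⟩

theorem exists_vals {n : ℕ} {l : List ℕ} (h : l.Perm (List.range n)) :
    ∃ π : Equiv.Perm (Fin n), vals π = l := by
  have hlen : l.length = n := by simpa using h.length_eq
  subst hlen
  have hlt : ∀ i : Fin l.length, l[i] < l.length := by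
    intro i
    have : l[i] ∈ l := List.getElem_mem _
    have := (h.mem_iff).mp this
    simpa using this
  let f : Fin l.length → Fin l.length := fun i => ⟨l[i], hlt i⟩
  have hnd : l.Nodup := (h.nodup_iff).mpr List.nodup_range
  have hf : Function.Injective f := by
    intro i j hij
    have h1 : l[i] = l[j] := by simpa [f] using congrArg Fin.val hij
    apply Fin.ext
    exact (List.Nodup.getElem_inj_iff hnd).mp h1
  refine ⟨Equiv.ofBijective f (Finite.injective_iff_bijective.mp hf), ?_⟩
  rw [vals]
  simp only [Equiv.ofBijective_apply, f]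
  exact List.ofFn_getElem

open Classical in
/-- card of permutations with a property on the list of values = countP on zippers -/
theorem card_perm_eq (N : ℕ) (Q : List ℕ → Prop) :
    (Finset.univ.filter fun π : Equiv.Perm (Fin (N + 1)) => Av (vals π) ∧ Q (vals π)).card
      = (ZN N).countP (fun z => Q (toL N z)) := by
  have h1 : (Finset.univ.filter fun π : Equiv.Perm (Fin (N + 1)) =>
      Av (vals π) ∧ Q (vals π)).card
      = ((Finset.univ.filter fun π : Equiv.Perm (Fin (N + 1)) =>
        Av (vals π) ∧ Q (vals π)).image vals).card :=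
    (Finset.card_image_of_injective _ vals_inj).symm
  have h2 : (ZN N).countP (fun z => Q (toL N z))
      = (((ZN N).toFinset.filter (fun z => Q (toL N z))).image (toL N)).card := by
    rw [Finset.card_image_of_injOn]
    · rw [List.countP_eq_length_filter, ← List.toFinset_card_of_nodup ((ZN_nodup N).filter _)]
      congr 1
      ext z
      simp
    · intro z hz w hw h
      simp only [Finset.coe_filter, List.mem_toFinset, Set.mem_ofPred_eq] at hz hw
      exact toL_inj (ZN_lt N z hz.1).1 (ZN_lt N w hw.1).1 h
  rw [h1, h2]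
  congr 1
  ext l
  simp only [Finset.mem_image, Finset.mem_filter, Finset.mem_univ, true_and, List.mem_toFinset]
  constructor
  · rintro ⟨π, ⟨hav, hq⟩, rfl⟩
    have hp := vals_perm π
    have hN : N ∈ vals π := (hp.mem_iff).mpr (by simp)
    obtain ⟨s, t, hst⟩ := List.append_of_mem hN
    refine ⟨(s.reverse, t), ?_, ?_⟩
    · have e : toL N (s.reverse, t) = vals π := by simp [toL, hst]
      rw [mem_ZN, e]
      exact ⟨⟨hp, hav⟩, hq⟩
    · simp [toL, hst]
  · rintro ⟨z, ⟨hz, hq⟩, rfl⟩
    rw [mem_ZN] at hz
    obtain ⟨π, hπ⟩ := exists_vals hz.1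
    exact ⟨π, ⟨by rw [hπ]; exact hz.2, by rw [hπ]; exact hq⟩, hπ⟩

theorem countP_states (N a b : ℕ) :
    (ZN N).countP (fun z => rlc (toL N z).reverse = a ∧ rlc (toL N z) = b)
      = (statesN N).countP (fun s => s.1 = a ∧ s.2.2.1 = b) := by
  rw [← ZN_states, List.countP_map]
  apply List.countP_congr
  intro z hz
  obtain ⟨h1, h2⟩ := ZN_lt N z hz
  obtain ⟨h3, h4⟩ := toL_rlc N z h1 h2
  simp [state, h3, h4]

end Perm

section Coeff
open MvPolynomial

noncomputable def dd (a b : ℕ) : Fin 3 →₀ ℕ := Finsupp.single 0 a + Finsupp.single 1 b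

theorem dd_inj (a b c d : ℕ) : dd a b = dd c d ↔ a = c ∧ b = d := by
  constructor
  · intro h
    have h0 := DFunLike.congr_fun h 0
    have h1 := DFunLike.congr_fun h 1
    simp [dd] at h0 h1
    exact ⟨h0, h1⟩
  · rintro ⟨rfl, rfl⟩; rfl

theorem UV_monomial (a b : ℕ) : (Uu ^ a * Vv ^ b : A0) = monomial (dd a b) 1 := by
  rw [Uu, Vv, X_pow_eq_monomial, X_pow_eq_monomial, monomial_mul, dd, mul_one]

theorem coeff_II (N a b : ℕ) : coeff (dd a b) (II (wE Uu Vv) N)
    = ((statesN N).countP (fun s => s.1 = a ∧ s.2.2.1 = b) : ℤ) := by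
  unfold II
  induction statesN N with
  | nil => simp
  | cons s l ih =>
    rw [List.map_cons, List.sum_cons, coeff_add, ih, List.countP_cons, wE, UV_monomial,
      coeff_monomial]
    simp only [dd_inj]
    by_cases h : s.1 = a ∧ s.2.2.1 = b
    · simp [h, add_comm]
    · simp [h]

theorem coeff_II' (N a b : ℕ) : coeff (dd a b) (II (wE Vv Uu) N)
    = ((statesN N).countP (fun s => s.1 = b ∧ s.2.2.1 = a) : ℤ) := by
  unfold II
  induction statesN N with
  | nil => simp
  | cons s l ih =>
    rw [List.map_cons, List.sum_cons, coeff_add, ih, List.countP_cons, wE, mul_comm, UV_monomial,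
      coeff_monomial]
    simp only [dd_inj]
    by_cases h : s.1 = b ∧ s.2.2.1 = a
    · simp [h, add_comm]
    · have h' : ¬ (s.2.2.1 = a ∧ s.1 = b) := fun hh => h ⟨hh.2, hh.1⟩
      simp [h, h']

theorem count_symm (N a b : ℕ) :
    (statesN N).countP (fun s => s.1 = a ∧ s.2.2.1 = b)
      = (statesN N).countP (fun s => s.1 = b ∧ s.2.2.1 = a) := by
  have h1 := coeff_II N a b
  have h2 := coeff_II' N a b
  rw [(symm_main N).2, h2] at h1
  exact_mod_cast h1.symm

end Coeff

end H63Fish

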