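import Mathlib

set_option autoImplicit false

namespace H63Mat

universe u

open Finset

/-! ### numerical lemma -/

lemma num_aux (a b : ℕ) : ∀ l : ℕ, 1 ≤ l →
    (a ^ 2) ^ l + (b ^ 2) ^ l + 4 * ∑ i ∈ Finset.Ico 1 l, (a ^ 2) ^ i * (b ^ 2) ^ (l - i) ≤
      ((a + b) ^ 2) ^ l := by
  intro l hl
  induction l, hl using Nat.le_induction with
  | base => simp; nlinarith [Nat.zero_le (a * b)]
  | succ l hl ih =>
    rcases Nat.eq_or_lt_of_le hl with h1 | h1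
    · subst h1
      have : Finset.Ico 1 (1 + 1) = {1} := by decide
      rw [this, Finset.sum_singleton]
      calc (a ^ 2) ^ (1 + 1) + (b ^ 2) ^ (1 + 1) + 4 * ((a ^ 2) ^ 1 * (b ^ 2) ^ (1 + 1 - 1))
          = a ^ 4 + b ^ 4 + 4 * (a ^ 2 * b ^ 2) := by norm_num; ring
        _ ≤ a ^ 4 + b ^ 4 + 4 * (a ^ 2 * b ^ 2) +
            (2 * (a ^ 2 * b ^ 2) + 4 * (a ^ 3 * b) + 4 * (a * b ^ 3)) := Nat.le_add_right _ _
        _ = ((a + b) ^ 2) ^ (1 + 1) := by ring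
    · rw [Finset.sum_Ico_succ_top (by omega)]
      have h2 : ∑ i ∈ Finset.Ico 1 l, (a ^ 2) ^ i * (b ^ 2) ^ (l + 1 - i) =
          b ^ 2 * ∑ i ∈ Finset.Ico 1 l, (a ^ 2) ^ i * (b ^ 2) ^ (l - i) := by
        rw [Finset.mul_sum]
        refine Finset.sum_congr rfl fun i hi => ?_
        rw [Finset.mem_Ico] at hi
        have : l + 1 - i = (l - i) + 1 := by omega
        rw [this, pow_succ]
        ring
      rw [h2]
      have h3 : (a ^ 2) ^ (l - 1) * (b ^ 2) ^ 1 ≤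
          ∑ i ∈ Finset.Ico 1 l, (a ^ 2) ^ i * (b ^ 2) ^ (l - i) := by
        have h4 := Finset.single_le_sum (f := fun i => (a ^ 2) ^ i * (b ^ 2) ^ (l - i))
          (s := Finset.Ico 1 l) (fun i _ => Nat.zero_le _) (a := l - 1)
          (Finset.mem_Ico.mpr ⟨by omega, by omega⟩)
        have h5 : l - (l - 1) = 1 := by omega
        simp only [h5] at h4
        exact h4
      set S := ∑ i ∈ Finset.Ico 1 l, (a ^ 2) ^ i * (b ^ 2) ^ (l - i) with hS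
      have h5 : l + 1 - l = 1 := by omega
      rw [h5]
      have h6 : a ^ 2 * ((a ^ 2) ^ (l - 1) * (b ^ 2) ^ 1) ≤ a ^ 2 * S := Nat.mul_le_mul_left _ h3
      have h7 : a ^ 2 * ((a ^ 2) ^ (l - 1) * (b ^ 2) ^ 1) = (a ^ 2) ^ l * b ^ 2 := by
        obtain ⟨k, rfl⟩ : ∃ k, l = k + 1 := ⟨l - 1, by omega⟩
        simp only [Nat.add_sub_cancel]
        ring
      rw [h7] at h6
      calc (a ^ 2) ^ (l + 1) + (b ^ 2) ^ (l + 1) + 4 * (b ^ 2 * S + (a ^ 2) ^ l * (b ^ 2) ^ 1)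
          ≤ (a ^ 2 + b ^ 2) * ((a ^ 2) ^ l + (b ^ 2) ^ l + 4 * S) := by
            have h8 : (a ^ 2 + b ^ 2) * ((a ^ 2) ^ l + (b ^ 2) ^ l + 4 * S) =
                (a ^ 2) ^ (l + 1) + (b ^ 2) ^ (l + 1) + 4 * (b ^ 2 * S) +
                (4 * (a ^ 2 * S) + (a ^ 2) ^ l * b ^ 2 + (b ^ 2) ^ l * a ^ 2) := by ring
            rw [h8, pow_one]
            have h9 : 4 * ((a ^ 2) ^ l * b ^ 2) ≤ 4 * (a ^ 2 * S) := Nat.mul_le_mul_left _ h6
            nlinarith [Nat.zero_le ((a ^ 2) ^ l * b ^ 2), Nat.zero_le ((b ^ 2) ^ l * a ^ 2)]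
        _ ≤ (a + b) ^ 2 * ((a + b) ^ 2) ^ l := by
            refine Nat.mul_le_mul ?_ ih
            nlinarith [Nat.zero_le (a * b)]
        _ = ((a + b) ^ 2) ^ (l + 1) := by ring

lemma num_main (a b l : ℕ) (hl : 1 ≤ l) :
    a ^ (112 * l) + b ^ (112 * l) + ∑ i ∈ Finset.Ico 1 l, 4 * (a ^ (112 * i) * b ^ (112 * (l - i))) ≤
      (a + b) ^ (112 * l) := by
  have h := num_aux (a ^ 56) (b ^ 56) l hl
  have h1 : (((a ^ 56 + b ^ 56) ^ 2) ^ l : ℕ) ≤ (a + b) ^ (112 * l) := by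
    have h2 : a ^ 56 + b ^ 56 ≤ (a + b) ^ 56 :=
      pow_add_pow_le (Nat.zero_le _) (Nat.zero_le _) (by norm_num)
    calc ((a ^ 56 + b ^ 56) ^ 2) ^ l ≤ (((a + b) ^ 56) ^ 2) ^ l := by gcongr
      _ = (a + b) ^ (112 * l) := by
        rw [← pow_mul, ← pow_mul]
        congr 1
        ring
  refine le_trans ?_ h1
  refine le_trans (le_of_eq ?_) h
  have e : ∀ (x i : ℕ), ((x ^ 56) ^ 2) ^ i = x ^ (112 * i) := by
    intro x i
    rw [← pow_mul, ← pow_mul]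
    congr 1
    ring
  rw [e, e, Finset.mul_sum]
  congr 1
  refine Finset.sum_congr rfl fun i _ => ?_
  rw [e, e]

/-! ### systems -/

variable {Q : Type u} [AddCommGroup Q]

/-- a family of marks indexed by `J`, subordinate to the set `V` of vectors -/
structure Sys (V : Set Q) (J : Type u) where
  U : J → AddSubgroup Q
  κ : J → Q → ℕ∞
  d : J → Q → ℕ∞
  card_le : ∀ j, (U j : Set Q).encard ≤ 4
  sub : ∀ j x, x ∈ U j → x ≠ 0 → x ∈ V
  κU : ∀ j x, κ j x ≠ ⊤ → x ∈ U j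
  dU : ∀ j x, d j x ≠ ⊤ → x ∈ U j
  d0 : ∀ j, d j 0 = 0
  dadd : ∀ j x y, d j (x + y) ≤ d j x + d j y
  dκ : ∀ j x y, d j (x + y) ≤ κ j x + κ j y

def cost {J : Type u} [Fintype J] (c : J → Q → ℕ∞) (x : J → Q) : ℕ∞ := ∑ j, c j (x j)

def Good {V : Set Q} {J : Type u} [Fintype J] (S : Sys V J) (ℓ : ℕ) : Prop :=
  ∀ x : J → Q, ∑ j, x j = 0 → cost S.d x < ℓ → x = 0

def words {V : Set Q} {J : Type u} [Fintype J] (S : Sys V J) (ℓ l : ℕ) : Set (J → Q) :=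
  {x | ∑ j, x j = 0 ∧ 2 * cost S.κ x < ((l + 1) * ℓ : ℕ)}

def Bd (V : Set Q) (s : ℕ) : Prop :=
  ∀ (J : Type u) [Fintype J] (S : Sys V J) (ℓ : ℕ), Good S ℓ → ∀ l : ℕ,
    (words S ℓ l).encard ≤ ((Fintype.card J + s : ℕ) : ℕ∞) ^ (112 * l)

lemma half_add {a b : ℕ∞} {ℓ : ℕ} (ha : 2 * a < ℓ) (hb : 2 * b < ℓ) : a + b < ℓ := by
  have ha' : a ≠ ⊤ := by rintro rfl; simp at ha
  have hb' : b ≠ ⊤ := by rintro rfl; simp at hb
  lift a to ℕ using ha'
  lift b to ℕ using hb'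
  norm_cast at *
  omega

lemma two_mul_ne_top {a : ℕ∞} {n : ℕ} (h : 2 * a < n) : a ≠ ⊤ := by
  rintro rfl; simp at h

lemma cost_add_le {V : Set Q} {J : Type u} [Fintype J] (S : Sys V J) (x y : J → Q) :
    cost S.d (x + y) ≤ cost S.κ x + cost S.κ y := by
  unfold cost
  rw [← Finset.sum_add_distrib]
  exact Finset.sum_le_sum fun j _ => S.dκ j (x j) (y j)

lemma cost_ne_top {V : Set Q} {J : Type u} [Fintype J] (S : Sys V J) {x : J → Q}
    (h : cost S.κ x ≠ ⊤) (j : J) : x j ∈ S.U j := by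
  apply S.κU
  intro h'
  apply h
  unfold cost
  exact WithTop.sum_eq_top.mpr ⟨j, Finset.mem_univ j, h'⟩

lemma words_zero {V : Set Q} {J : Type u} [Fintype J] (h2 : ∀ x : Q, x + x = 0)
    (S : Sys V J) {ℓ : ℕ} (hS : Good S ℓ) : (words S ℓ 0).encard ≤ 1 := by
  rw [Set.encard_le_one_iff]
  intro x y hx hy
  obtain ⟨hx1, hx2⟩ := hx
  obtain ⟨hy1, hy2⟩ := hy
  simp only [zero_add, one_mul] at hx2 hy2
  have h := hS (x + y) (by simp [Finset.sum_add_distrib, hx1, hy1])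
    (lt_of_le_of_lt (cost_add_le S x y) (half_add hx2 hy2))
  funext j
  have hj := congrFun h j
  simp only [Pi.add_apply, Pi.zero_apply] at hj
  have := h2 (y j)
  calc x j = x j + (y j + y j) := by rw [this, add_zero]
    _ = (x j + y j) + y j := by abel
    _ = y j := by rw [hj, zero_add]

end H63Mat
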