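import Mathlib
import Pool.Agent.H63.MatA

set_option autoImplicit false
set_option linter.unusedSectionVars false

namespace H63Mat

universe u

open Finset

variable {Q : Type u} [AddCommGroup Q]

lemma sInf_le_add {A B C : Set ℕ∞} (h : ∀ b ∈ B, ∀ c ∈ C, ∃ a ∈ A, a ≤ b + c) :
    sInf A ≤ sInf B + sInf C := by
  rcases B.eq_empty_or_nonempty with rfl | hB
  · simp
  rcases C.eq_empty_or_nonempty with rfl | hC
  · simp
  obtain ⟨a, ha, hab⟩ := h _ (csInf_mem hB) _ (csInf_mem hC)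
  exact le_trans (sInf_le ha) hab

section split

variable {J : Type u} [Fintype J] (s : J → Bool) (b : Bool)

lemma sum_split {M : Type*} [AddCommMonoid M] (f : J → M) :
    ∑ j, f j = ∑ j : {j // s j = b}, f j + ∑ j : {j // s j = !b}, f j := by
  classical
  rw [← Fintype.sum_subtype_add_sum_subtype (fun j => s j = b)]
  congr 1
  refine Fintype.sum_equiv (Equiv.subtypeEquivRight fun j => ?_) _ _ (fun j => rfl)
  cases s j <;> cases b <;> simp

lemma card_split : Fintype.card J = Fintype.card {j // s j = b} + Fintype.card {j // s j = !b} := by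
  have := sum_split s b (fun _ => 1)
  simpa using this

/-- partial cost -/
def pc (c : J → Q → ℕ∞) (x : J → Q) : ℕ∞ := ∑ j : {j // s j = b}, c j (x j)

lemma cost_split (c : J → Q → ℕ∞) (x : J → Q) : cost c x = pc s b c x + pc s (!b) c x :=
  sum_split s b _

/-- glue two partial words -/
def mk (x1 : {j // s j = b} → Q) (x2 : {j // s j = !b} → Q) (j : J) : Q :=
  if h : s j = b then x1 ⟨j, h⟩ else x2 ⟨j, by cases h' : s j <;> cases b <;> simp_all⟩

lemma mk_left (x1 : {j // s j = b} → Q) (x2 : {j // s j = !b} → Q) (j : {j // s j = b}) :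
    mk s b x1 x2 j = x1 j := by
  unfold mk
  rw [dif_pos j.2]

lemma mk_right (x1 : {j // s j = b} → Q) (x2 : {j // s j = !b} → Q) (j : {j // s j = !b}) :
    mk s b x1 x2 j = x2 j := by
  unfold mk
  rw [dif_neg (by rw [j.2]; cases b <;> simp)]

lemma sum_mk (x1 : {j // s j = b} → Q) (x2 : {j // s j = !b} → Q) :
    ∑ j, mk s b x1 x2 j = ∑ j, x1 j + ∑ j, x2 j := by
  rw [sum_split s b]
  congr 1
  · exact Finset.sum_congr rfl fun j _ => mk_left s b x1 x2 j
  · exact Finset.sum_congr rfl fun j _ => mk_right s b x1 x2 j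

lemma cost_mk (c : J → Q → ℕ∞) (x1 : {j // s j = b} → Q) (x2 : {j // s j = !b} → Q) :
    cost c (mk s b x1 x2) = ∑ j : {j // s j = b}, c j (x1 j) + ∑ j : {j // s j = !b}, c j (x2 j) := by
  rw [cost_split s b]
  unfold pc
  congr 1
  · exact Finset.sum_congr rfl fun j _ => by rw [mk_left s b x1 x2 j]
  · exact Finset.sum_congr rfl fun j _ => by rw [mk_right s b x1 x2 j]

end split

/-- system on one side, with one extra mark -/
def side {V V' : Set Q} {J : Type u} (S : Sys V J) (s : J → Bool) (b : Bool)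
    (hV : ∀ j, s j = b → ∀ x ∈ S.U j, x ≠ 0 → x ∈ V') (UZ : AddSubgroup Q) (κz dz : Q → ℕ∞)
    (hUZ : (UZ : Set Q).encard ≤ 4) (hUV : ∀ x ∈ UZ, x ≠ 0 → x ∈ V')
    (h1 : ∀ x, κz x ≠ ⊤ → x ∈ UZ) (h2 : ∀ x, dz x ≠ ⊤ → x ∈ UZ) (h3 : dz 0 = 0)
    (h4 : ∀ x y, dz (x + y) ≤ dz x + dz y) (h5 : ∀ x y, dz (x + y) ≤ κz x + κz y) :
    Sys V' (Option {j // s j = b}) where
  U := fun o => o.elim UZ fun j => S.U j
  κ := fun o => o.elim κz fun j => S.κ j
  d := fun o => o.elim dz fun j => S.d j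
  card_le := by
    rintro (_ | j)
    · exact hUZ
    · exact S.card_le j
  sub := by
    rintro (_ | j)
    · exact hUV
    · exact hV j j.2
  κU := by
    rintro (_ | j)
    · exact h1
    · exact S.κU j
  dU := by
    rintro (_ | j)
    · exact h2
    · exact S.dU j
  d0 := by
    rintro (_ | j)
    · exact h3
    · exact S.d0 j
  dadd := by
    rintro (_ | j)
    · exact h4
    · exact S.dadd j
  dκ := by
    rintro (_ | j)
    · exact h5
    · exact S.dκ j

section caseA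

variable {V V' : Set Q} {J : Type u} [Fintype J] (S : Sys V J) (s : J → Bool) (b : Bool) (ℓ : ℕ)
  (UZ : AddSubgroup Q)

open Classical in
/-- cost of the best light word on the other side with given syndrome -/
noncomputable def lightκ (y : Q) : ℕ∞ :=
  if y ∈ UZ then sInf {c | ∃ x2 : {j // s j = !b} → Q, ∑ j, x2 j = y ∧
    2 * ∑ j : {j // s j = !b}, S.κ j (x2 j) < (ℓ : ℕ∞) ∧ ∑ j : {j // s j = !b}, S.κ j (x2 j) = c} else ⊤

open Classical in
noncomputable def lightd (y : Q) : ℕ∞ :=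
  if y ∈ UZ then sInf {c | ∃ x2 : {j // s j = !b} → Q, ∑ j, x2 j = y ∧ ∑ j : {j // s j = !b}, S.d j (x2 j) = c} else ⊤

lemma light1 (x : Q) (h : lightκ S s b ℓ UZ x ≠ ⊤) : x ∈ UZ := by
  by_contra h'
  exact h (by unfold lightκ; rw [if_neg h'])

lemma light2 (x : Q) (h : lightd S s b UZ x ≠ ⊤) : x ∈ UZ := by
  by_contra h'
  exact h (by unfold lightd; rw [if_neg h'])

lemma light3 : lightd S s b UZ 0 = 0 := by
  unfold lightd
  rw [if_pos (AddSubgroup.zero_mem _)]
  refine le_antisymm (sInf_le ⟨fun _ => 0, by simp, ?_⟩) (by simp)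
  exact Finset.sum_eq_zero fun j _ => S.d0 j

lemma light4 (x y : Q) : lightd S s b UZ (x + y) ≤ lightd S s b UZ x + lightd S s b UZ y := by
  unfold lightd
  by_cases hx : x ∈ UZ
  swap
  · rw [if_neg hx]; simp
  by_cases hy : y ∈ UZ
  swap
  · rw [if_neg hy]; simp
  rw [if_pos hx, if_pos hy, if_pos (AddSubgroup.add_mem _ hx hy)]
  apply sInf_le_add
  rintro _ ⟨x2, hx2, rfl⟩ _ ⟨y2, hy2, rfl⟩
  refine ⟨_, ⟨x2 + y2, by simp [Finset.sum_add_distrib, hx2, hy2], rfl⟩, ?_⟩
  rw [← Finset.sum_add_distrib]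
  exact Finset.sum_le_sum fun j _ => S.dadd j _ _

lemma light5 (x y : Q) : lightd S s b UZ (x + y) ≤ lightκ S s b ℓ UZ x + lightκ S s b ℓ UZ y := by
  unfold lightd lightκ
  by_cases hx : x ∈ UZ
  swap
  · rw [if_neg hx]; simp
  by_cases hy : y ∈ UZ
  swap
  · rw [if_neg hy]; simp
  rw [if_pos hx, if_pos hy, if_pos (AddSubgroup.add_mem _ hx hy)]
  apply sInf_le_add
  rintro _ ⟨x2, hx2, -, rfl⟩ _ ⟨y2, hy2, -, rfl⟩
  refine ⟨_, ⟨x2 + y2, by simp [Finset.sum_add_distrib, hx2, hy2], rfl⟩, ?_⟩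
  rw [← Finset.sum_add_distrib]
  exact Finset.sum_le_sum fun j _ => S.dκ j _ _

lemma lightκ_le (x : J → Q) (hx : ∑ j : {j // s j = !b}, x j ∈ UZ)
    (hl : 2 * pc s (!b) S.κ x < ℓ) :
    lightκ S s b ℓ UZ (∑ j : {j // s j = !b}, x j) ≤ pc s (!b) S.κ x := by
  unfold lightκ
  rw [if_pos hx]
  exact sInf_le ⟨fun j => x j, rfl, hl, rfl⟩

lemma lightd_mem (y : Q) (h : lightd S s b UZ y ≠ ⊤) :
    ∃ x2 : {j // s j = !b} → Q, ∑ j, x2 j = y ∧ ∑ j : {j // s j = !b}, S.d j (x2 j) = lightd S s b UZ y := by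
  have hy := light2 S s b UZ y h
  unfold lightd at h ⊢
  rw [if_pos hy] at h ⊢
  have hne : {c | ∃ x2 : {j // s j = !b} → Q, ∑ j, x2 j = y ∧ ∑ j : {j // s j = !b}, S.d j (x2 j) = c}.Nonempty := by
    by_contra h'
    rw [Set.not_nonempty_iff_eq_empty] at h'
    rw [h'] at h
    simp at h
  exact csInf_mem hne

variable (hV : ∀ j, s j = b → ∀ x ∈ S.U j, x ≠ 0 → x ∈ V')
  (hUZ : (UZ : Set Q).encard ≤ 4) (hUV : ∀ x ∈ UZ, x ≠ 0 → x ∈ V')

/-- the system in which the other side is replaced by a light mark -/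
noncomputable def lightSys : Sys V' (Option {j // s j = b}) :=
  side S s b hV UZ (lightκ S s b ℓ UZ) (lightd S s b UZ) hUZ hUV (light1 S s b ℓ UZ)
    (light2 S s b UZ) (light3 S s b UZ) (light4 S s b UZ) (light5 S s b ℓ UZ)

lemma lightSys_good (hS : Good S ℓ) : Good (lightSys S s b ℓ UZ hV hUZ hUV) ℓ := by
  intro x hx hc
  rw [Fintype.sum_option] at hx
  unfold cost at hc
  rw [Fintype.sum_option] at hc
  change lightd S s b UZ (x none) + ∑ j : {j // s j = b}, S.d j (x (some j)) < ℓ at hc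
  have hne : lightd S s b UZ (x none) ≠ ⊤ := by
    intro h
    rw [h] at hc
    simp at hc
  obtain ⟨x2, h1, h2⟩ := lightd_mem S s b UZ _ hne
  have h3 := hS (mk s b (fun j => x (some j)) x2) (by
    rw [sum_mk, h1, add_comm, hx]) (by
    rw [cost_mk, h2, add_comm]; exact hc)
  have h4 : ∀ j, x (some j) = 0 := by
    intro j
    have := congrFun h3 j
    rw [mk_left] at this
    exact this
  have h5 : ∀ j, x2 j = 0 := by
    intro j
    have := congrFun h3 j
    rw [mk_right] at this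
    exact this
  funext o
  rcases o with _ | j
  · rw [← h1]
    exact Finset.sum_eq_zero fun j _ => h5 j
  · exact h4 j

end caseA

end H63Mat
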