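import Mathlib
import Pool.Agent.H63.MatB

set_option autoImplicit false
set_option linter.unusedSectionVars false

namespace H63Mat

universe u

open Finset

variable {Q : Type u} [AddCommGroup Q]

section caseA

variable {V V' : Set Q} {J : Type u} [Fintype J] (S : Sys V J) (s : J → Bool) (b : Bool) (ℓ : ℕ)
  (UZ : AddSubgroup Q)
  (hV : ∀ j, s j = b → ∀ x ∈ S.U j, x ≠ 0 → x ∈ V')
  (hUZ : (UZ : Set Q).encard ≤ 4) (hUV : ∀ x ∈ UZ, x ≠ 0 → x ∈ V')

/-- the word of the reduced system -/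
def red (x : J → Q) : Option {j // s j = b} → Q :=
  fun o => o.elim (∑ j : {j // s j = !b}, x j) (fun j => x j)

lemma sum_red (x : J → Q) : ∑ o, red s b x o = ∑ j, x j := by
  rw [Fintype.sum_option, sum_split s b x, add_comm]
  rfl

lemma card_option_side : Fintype.card (Option {j // s j = b}) = Fintype.card {j // s j = b} + 1 :=
  Fintype.card_option

include hV hUZ hUV in
lemma caseA_count (h2 : ∀ x : Q, x + x = 0) (hS : Good S ℓ)
    (hcl : ∀ x : J → Q, (∀ j, x j ∈ S.U j) → ∑ j, x j = 0 → ∑ j : {j // s j = !b}, x j ∈ UZ)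
    {t : ℕ} (hB : Bd V' t) (l : ℕ) :
    {x ∈ words S ℓ l | 2 * pc s (!b) S.κ x < ℓ}.encard ≤
      ((Fintype.card {j // s j = b} + 1 + t : ℕ) : ℕ∞) ^ (112 * l) := by
  have h := hB _ (lightSys S s b ℓ UZ hV hUZ hUV) ℓ (lightSys_good S s b ℓ UZ hV hUZ hUV hS) l
  rw [card_option_side] at h
  refine le_trans (Set.encard_le_encard_of_injOn (f := red s b) ?_ ?_) h
  · rintro x ⟨⟨hx1, hx2⟩, hx3⟩
    have hmem := hcl x (cost_ne_top S (two_mul_ne_top hx2)) hx1
    refine ⟨by rw [sum_red, hx1], ?_⟩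
    refine lt_of_le_of_lt ?_ hx2
    gcongr
    rw [cost_split s b, add_comm]
    unfold cost
    rw [Fintype.sum_option]
    refine add_le_add ?_ le_rfl
    exact lightκ_le S s b ℓ UZ x hmem hx3
  · rintro x ⟨⟨hx1, hx2⟩, hx3⟩ y ⟨⟨hy1, hy2⟩, hy3⟩ hxy
    have h1 : ∀ j : {j // s j = b}, x j = y j := fun j => congrFun hxy (some j)
    have h3 : ∑ j : {j // s j = !b}, x j = ∑ j : {j // s j = !b}, y j := congrFun hxy none
    have h4 := hS (mk s b 0 (fun j => x j + y j)) (by
      rw [sum_mk, Finset.sum_add_distrib, h3, h2]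
      simp) (by
      rw [cost_mk]
      refine lt_of_le_of_lt ?_ (half_add hx3 hy3)
      have : ∑ j : {j // s j = b}, S.d j ((0 : {j // s j = b} → Q) j) = 0 :=
        Finset.sum_eq_zero fun j _ => S.d0 j
      rw [this, zero_add]
      unfold pc
      rw [← Finset.sum_add_distrib]
      exact Finset.sum_le_sum fun j _ => S.dκ j _ _)
    have h5 : ∀ j : {j // s j = !b}, x j = y j := by
      intro j
      have h6 := congrFun h4 j
      rw [mk_right] at h6
      have h7 := h2 (y j)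
      calc x j = x j + (y j + y j) := by rw [h7, add_zero]
        _ = (x j + y j) + y j := by abel
        _ = y j := by
          have : x j + y j = 0 := h6
          rw [this, zero_add]
    funext j
    by_cases hj : s j = b
    · exact h1 ⟨j, hj⟩
    · exact h5 ⟨j, by cases h' : s j <;> cases b <;> simp_all⟩

end caseA

section caseC

variable {V V' : Set Q} {J : Type u} [Fintype J] (S : Sys V J) (s : J → Bool) (b : Bool) (ℓ : ℕ)
  (UZ : AddSubgroup Q)
  (hV : ∀ j, s j = b → ∀ x ∈ S.U j, x ≠ 0 → x ∈ V')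
  (hUZ : (UZ : Set Q).encard ≤ 4) (hUV : ∀ x ∈ UZ, x ≠ 0 → x ∈ V')

open Classical in
/-- the system with prescribed syndrome `y` -/
noncomputable def fixSys (h2 : ∀ x : Q, x + x = 0) (y : Q) (hy : y ∈ UZ) :
    Sys V' (Option {j // s j = b}) :=
  side S s b hV UZ (fun x => if x = y then 0 else ⊤) (fun x => if x = 0 then 0 else ⊤) hUZ hUV
    (fun x hx => by
      by_cases h : x = y
      · rw [h]; exact hy
      · rw [if_neg h] at hx; exact absurd rfl hx)
    (fun x hx => by
      by_cases h : x = 0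
      · rw [h]; exact AddSubgroup.zero_mem _
      · rw [if_neg h] at hx; exact absurd rfl hx)
    (by simp)
    (fun x z => by
      by_cases hx : x = 0
      · by_cases hz : z = 0
        · simp [hx, hz]
        · simp [hz]
      · simp [hx])
    (fun x z => by
      by_cases hx : x = y
      · by_cases hz : z = y
        · simp [hx, hz, h2]
        · simp [hz]
      · simp [hx])

lemma fixSys_good (h2 : ∀ x : Q, x + x = 0) (y : Q) (hy : y ∈ UZ) (hS : Good S ℓ) :
    Good (fixSys S s b UZ hV hUZ hUV h2 y hy) ℓ := by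
  classical
  intro x hx hc
  rw [Fintype.sum_option] at hx
  unfold cost at hc
  rw [Fintype.sum_option] at hc
  change (if x none = 0 then 0 else ⊤) + ∑ j : {j // s j = b}, S.d j (x (some j)) < ℓ at hc
  have hn : x none = 0 := by
    by_contra h
    rw [if_neg h] at hc
    simp at hc
  rw [if_pos hn, zero_add] at hc
  rw [hn, zero_add] at hx
  have h3 := hS (mk s b (fun j => x (some j)) 0) (by
    rw [sum_mk, hx]; simp) (by
    rw [cost_mk]
    have : ∑ j : {j // s j = !b}, S.d j ((0 : {j // s j = !b} → Q) j) = 0 :=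
      Finset.sum_eq_zero fun j _ => S.d0 j
    rw [this, add_zero]
    exact hc)
  funext o
  rcases o with _ | j
  · exact hn
  · have := congrFun h3 j
    rw [mk_left] at this
    exact this

include hV hUZ hUV in
lemma caseC_count (h2 : ∀ x : Q, x + x = 0) (y : Q) (hy : y ∈ UZ) (hS : Good S ℓ)
    {t : ℕ} (hB : Bd V' t) (l : ℕ) :
    {x : {j // s j = b} → Q | ∑ j, x j = y ∧
      2 * ∑ j : {j // s j = b}, S.κ j (x j) < ((l + 1) * ℓ : ℕ)}.encard ≤
      ((Fintype.card {j // s j = b} + 1 + t : ℕ) : ℕ∞) ^ (112 * l) := by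
  classical
  have h := hB _ (fixSys S s b UZ hV hUZ hUV h2 y hy) ℓ
    (fixSys_good S s b ℓ UZ hV hUZ hUV h2 y hy hS) l
  rw [card_option_side] at h
  refine le_trans (Set.encard_le_encard_of_injOn
    (f := fun x : {j // s j = b} → Q => fun o : Option {j // s j = b} => o.elim y x) ?_ ?_) h
  · rintro x ⟨hx1, hx2⟩
    refine ⟨?_, ?_⟩
    · rw [Fintype.sum_option]
      change y + ∑ j, x j = 0
      rw [hx1, h2]
    · refine lt_of_le_of_lt ?_ hx2
      gcongr
      unfold cost
      rw [Fintype.sum_option]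
      change (if y = y then 0 else ⊤) + ∑ j : {j // s j = b}, S.κ j (x j) ≤ _
      rw [if_pos rfl, zero_add]
  · intro x _ x' _ hxx
    funext j
    exact congrFun hxx (some j)

end caseC

/-- the gluing step -/
theorem glue (h2 : ∀ x : Q, x + x = 0) {V1 V2 : Set Q} {Q1 Q2 UZ : AddSubgroup Q}
    (hV1 : V1 ⊆ Q1) (hV2 : V2 ⊆ Q2) (hI : ∀ x, x ∈ Q1 → x ∈ Q2 → x ∈ UZ)
    (hUc : (UZ : Set Q).encard ≤ 4) (hU1 : ∀ x ∈ UZ, x ≠ 0 → x ∈ V1) (hU2 : ∀ x ∈ UZ, x ≠ 0 → x ∈ V2)
    {s1 s2 : ℕ} (hB1 : Bd V1 s1) (hB2 : Bd V2 s2) : Bd (V1 ∪ V2) (s1 + s2 + 2) := by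
  classical
  intro J _ S ℓ hS l
  rcases Nat.eq_zero_or_pos l with rfl | hl
  · simpa using words_zero h2 S hS
  -- sides
  let s : J → Bool := fun j => decide (∀ x ∈ S.U j, x ≠ 0 → x ∈ V1)
  have hs1 : ∀ j, s j = true → ∀ x ∈ S.U j, x ≠ 0 → x ∈ V1 := fun j hj => of_decide_eq_true hj
  have hs2 : ∀ j, s j = false → ∀ x ∈ S.U j, x ≠ 0 → x ∈ V2 := by
    intro j hj x hx hx0
    have hj' := of_decide_eq_false hj
    push Not at hj'
    obtain ⟨y, hy, hy0, hyV⟩ := hj'
    have hyV2 : y ∈ V2 := (S.sub j y hy hy0).resolve_left hyV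
    by_contra hxV2
    have hxV1 : x ∈ V1 := (S.sub j x hx hx0).resolve_right hxV2
    have hxy : x + y ≠ 0 := by
      intro h
      have : x = y := by
        calc x = x + (y + y) := by rw [h2, add_zero]
          _ = (x + y) + y := by abel
          _ = y := by rw [h, zero_add]
      exact hyV (this ▸ hxV1)
    rcases S.sub j (x + y) (AddSubgroup.add_mem _ hx hy) hxy with h | h
    · have : y ∈ Q1 := by
        have h3 := AddSubgroup.add_mem _ (hV1 hxV1) (hV1 h)
        have h4 : x + (x + y) = y := by rw [← add_assoc, h2, zero_add]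
        rwa [h4] at h3
      exact hyV (hU1 y (hI y this (hV2 hyV2)) hy0)
    · have : x ∈ Q2 := by
        have h3 := AddSubgroup.add_mem _ (hV2 h) (hV2 hyV2)
        have h4 : x + y + y = x := by rw [add_assoc, h2, add_zero]
        rwa [h4] at h3
      exact hxV2 (hU2 x (hI x (hV1 hxV1) this) hx0)
  have hQ1 : ∀ j, s j = true → ∀ x ∈ S.U j, x ∈ Q1 := by
    intro j hj x hx
    by_cases h0 : x = 0
    · rw [h0]; exact AddSubgroup.zero_mem _
    · exact hV1 (hs1 j hj x hx h0)
  have hQ2 : ∀ j, s j = false → ∀ x ∈ S.U j, x ∈ Q2 := by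
    intro j hj x hx
    by_cases h0 : x = 0
    · rw [h0]; exact AddSubgroup.zero_mem _
    · exact hV2 (hs2 j hj x hx h0)
  have eqsum : ∀ x : J → Q, ∑ j, x j = 0 →
      ∑ j : {j // s j = true}, x j = ∑ j : {j // s j = false}, x j := by
    intro x hx
    have h3 := sum_split s true x
    rw [hx] at h3
    have h4 : ∑ j : {j // s j = true}, x j + ∑ j : {j // s j = false}, x j = 0 := h3.symm
    calc ∑ j : {j // s j = true}, x j = ∑ j : {j // s j = true}, x j +
        (∑ j : {j // s j = false}, x j + ∑ j : {j // s j = false}, x j) := by rw [h2, add_zero]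
      _ = _ := by rw [← add_assoc, h4, zero_add]
  have hcl1 : ∀ x : J → Q, (∀ j, x j ∈ S.U j) → ∑ j, x j = 0 →
      ∑ j : {j // s j = false}, x j ∈ UZ := by
    intro x hx hx0
    refine hI _ ?_ (AddSubgroup.sum_mem _ fun j _ => hQ2 j j.2 _ (hx j))
    rw [← eqsum x hx0]
    exact AddSubgroup.sum_mem _ fun j _ => hQ1 j j.2 _ (hx j)
  have hcl2 : ∀ x : J → Q, (∀ j, x j ∈ S.U j) → ∑ j, x j = 0 →
      ∑ j : {j // s j = true}, x j ∈ UZ := by
    intro x hx hx0
    rw [eqsum x hx0]
    exact hcl1 x hx hx0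
  -- the three cases
  set b1 : ℕ := Fintype.card {j // s j = true} + 1 + s1 with hb1
  set b2 : ℕ := Fintype.card {j // s j = false} + 1 + s2 with hb2
  have hA := caseA_count S s true ℓ UZ hs1 hUc hU1 h2 hS hcl1 hB1 l
  have hB := caseA_count S s false ℓ UZ hs2 hUc hU2 h2 hS hcl2 hB2 l
  have hUfin : (UZ : Set Q).Finite := Set.finite_of_encard_le_coe hUc
  let T : Finset Q := hUfin.toFinset
  have hTc : T.card ≤ 4 := by
    have : (UZ : Set Q).encard = T.card := hUfin.encard_eq_coe_toFinset_card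
    rw [this] at hUc
    exact_mod_cast hUc
  let D : ℕ → Q → Set (J → Q) := fun i y => {x | ∑ j : {j // s j = true}, x j = y ∧
    ∑ j : {j // s j = false}, x j = y ∧ 2 * pc s true S.κ x < ((i + 1) * ℓ : ℕ) ∧
    2 * pc s false S.κ x < ((l - i + 1) * ℓ : ℕ)}
  have hsub : words S ℓ l ⊆ ({x ∈ words S ℓ l | 2 * pc s (!true) S.κ x < ℓ} ∪
      {x ∈ words S ℓ l | 2 * pc s (!false) S.κ x < ℓ}) ∪
      ⋃ i ∈ Finset.Ico 1 l, ⋃ y ∈ T, D i y := by
    intro x hx
    by_cases hx1 : 2 * pc s (!true) S.κ x < ℓ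
    · exact Or.inl (Or.inl ⟨hx, hx1⟩)
    by_cases hx2 : 2 * pc s (!false) S.κ x < ℓ
    · exact Or.inl (Or.inr ⟨hx, hx2⟩)
    right
    obtain ⟨hw1, hw2⟩ := hx
    have hw3 := cost_ne_top S (two_mul_ne_top hw2)
    rw [cost_split s true] at hw2
    simp only [Bool.not_true, Bool.not_false] at hx1 hx2 hw2
    have ha : pc s true S.κ x ≠ ⊤ := fun h => by rw [h] at hw2; simp at hw2
    have hc : pc s false S.κ x ≠ ⊤ := fun h => by rw [h] at hw2; simp at hw2
    obtain ⟨a, ha⟩ := WithTop.ne_top_iff_exists.mp ha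
    obtain ⟨c, hc⟩ := WithTop.ne_top_iff_exists.mp hc
    have ha' : pc s true S.κ x = (a : ℕ∞) := ha.symm
    have hc' : pc s false S.κ x = (c : ℕ∞) := hc.symm
    rw [ha'] at hw2 hx2
    rw [hc'] at hw2 hx1
    norm_cast at hw2 hx1 hx2
    push Not at hx1 hx2
    have hℓ : 0 < ℓ := by
      rcases Nat.eq_zero_or_pos ℓ with h | h
      · rw [h] at hw2; simp at hw2
      · exact h
    simp only [Set.mem_iUnion]
    have hdm := Nat.div_add_mod (2 * a) ℓ
    have hml := Nat.mod_lt (2 * a) hℓ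
    set i := 2 * a / ℓ with hi
    have hi1 : 1 ≤ i := by
      rw [hi]
      exact (Nat.one_le_div_iff hℓ).mpr hx2
    have hi2 : i < l := by
      by_contra hcon
      push Not at hcon
      have h5 : ℓ * l ≤ ℓ * i := Nat.mul_le_mul_left _ hcon
      have h6 : (l + 1) * ℓ = ℓ * l + ℓ := by ring
      rw [h6] at hw2
      omega
    refine ⟨i, Finset.mem_Ico.mpr ⟨hi1, hi2⟩, ∑ j : {j // s j = true}, x j, ?_, rfl,
      (eqsum x hw1).symm, ?_, ?_⟩
    · rw [Set.Finite.mem_toFinset]
      exact hcl2 x hw3 hw1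
    · rw [ha']
      norm_cast
      have h6 : (i + 1) * ℓ = ℓ * i + ℓ := by ring
      rw [h6]
      omega
    · rw [hc']
      norm_cast
      have h6 : (l - i + 1) * ℓ + ℓ * i = (l + 1) * ℓ := by
        have : l = (l - i) + i := by omega
        calc (l - i + 1) * ℓ + ℓ * i = ((l - i) + i + 1) * ℓ := by ring
          _ = (l + 1) * ℓ := by rw [← this]
      omega
  have hD : ∀ i ∈ Finset.Ico 1 l, ∀ y ∈ T, (D i y).encard ≤
      ((b1 : ℕ∞) ^ (112 * i)) * ((b2 : ℕ∞) ^ (112 * (l - i))) := by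
    intro i hi y hy
    have hyU : y ∈ UZ := by simpa [T] using hy
    have e1 := caseC_count S s true ℓ UZ hs1 hUc hU1 h2 y hyU hS hB1 i
    have e2 := caseC_count S s false ℓ UZ hs2 hUc hU2 h2 y hyU hS hB2 (l - i)
    refine le_trans ?_ (mul_le_mul' e1 e2)
    rw [← Set.encard_prod]
    refine Set.encard_le_encard_of_injOn
      (f := fun x : J → Q => ((fun j : {j // s j = true} => x j), fun j : {j // s j = false} => x j))
      ?_ ?_
    · rintro x ⟨g1, g2, g3, g4⟩
      exact ⟨⟨g1, g3⟩, ⟨g2, g4⟩⟩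
    · intro x _ x' _ hxx
      have q1 := congrArg Prod.fst hxx
      have q2 := congrArg Prod.snd hxx
      funext j
      cases h' : s j
      · exact congrFun q2 ⟨j, h'⟩
      · exact congrFun q1 ⟨j, h'⟩
  have hDsum : (⋃ i ∈ Finset.Ico 1 l, ⋃ y ∈ T, D i y).encard ≤
      ∑ i ∈ Finset.Ico 1 l, (4 : ℕ∞) * (((b1 : ℕ∞) ^ (112 * i)) * ((b2 : ℕ∞) ^ (112 * (l - i)))) := by
    refine le_trans (Finset.set_encard_biUnion_le _ _) (Finset.sum_le_sum fun i hi => ?_)
    refine le_trans (Finset.set_encard_biUnion_le _ _) ?_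
    refine le_trans (Finset.sum_le_sum fun y hy => hD i hi y hy) ?_
    rw [Finset.sum_const, nsmul_eq_mul]
    gcongr
    exact_mod_cast hTc
  have hcard : Fintype.card J + (s1 + s2 + 2) = b1 + b2 := by
    have := card_split s true
    simp only [Bool.not_true] at this
    omega
  rw [hcard]
  refine le_trans (Set.encard_le_encard hsub) ?_
  refine le_trans (Set.encard_union_le _ _) ?_
  refine le_trans (add_le_add (Set.encard_union_le _ _) hDsum) ?_
  refine le_trans (add_le_add (add_le_add hA hB) le_rfl) ?_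
  have := num_main b1 b2 l hl
  exact_mod_cast this

end H63Mat
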