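import Mathlib
import Pool.Agent.H63.MatC

set_option autoImplicit false
set_option linter.unusedSectionVars false

namespace H63Mat

universe u

open Finset

variable {Q : Type u} [AddCommGroup Q]

/-- the bound for families of vectors taken from `V` -/
def BB (V : Set Q) : Prop :=
  ∀ (E : Type u) [Fintype E] (q : E → Q), (∀ e, q e ∈ V) → ∀ (ω : E → ℕ) (ℓ : ℕ),
    (∀ v : Finset E, v.Nonempty → ∑ e ∈ v, q e = 0 → ℓ ≤ ∑ e ∈ v, ω e) → ∀ β : ℕ,
    {v : Finset E | ∑ e ∈ v, q e = 0 ∧ ∑ e ∈ v, ω e < β * ℓ}.encard ≤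
      ((Fintype.card E + 2 : ℕ) : ℕ∞) ^ (14 * β)

lemma exists_basis (h2 : ∀ x : Q, x + x = 0) (U : AddSubgroup Q) (hU : (U : Set Q).encard ≤ 4)
    (d : Q → ℕ∞) : ∃ T : Finset Q, (∀ x ∈ T, x ∈ U ∧ x ≠ 0) ∧ T.card ≤ 2 ∧
      (∀ S ⊆ T, ∑ x ∈ S, x = 0 → S = ∅) ∧
      (∀ u ∈ U, ∃ S ⊆ T, ∑ x ∈ S, x = u ∧ ∑ x ∈ S, d x ≤ 2 * d u) := by
  classical
  have hfin : (U : Set Q).Finite := Set.finite_of_encard_le_coe hU
  set F : Finset Q := hfin.toFinset with hF
  have hFm : ∀ x, x ∈ F ↔ x ∈ U := by intro x; simp [hF]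
  have hFc : F.card ≤ 4 := by
    have : (U : Set Q).encard = F.card := hfin.encard_eq_coe_toFinset_card
    rw [this] at hU
    exact_mod_cast hU
  by_cases h0 : ∀ x ∈ U, x = 0
  · refine ⟨∅, by simp, by simp, by simp, fun u hu => ⟨∅, by simp, ?_⟩⟩
    rw [h0 u hu]; simp
  push Not at h0
  obtain ⟨a0, ha0, ha0'⟩ := h0
  obtain ⟨a, ha, hmina⟩ := Finset.exists_min_image (F.erase 0) d
    ⟨a0, by rw [Finset.mem_erase, hFm]; exact ⟨ha0', ha0⟩⟩
  rw [Finset.mem_erase, hFm] at ha
  obtain ⟨ha1, ha2⟩ := ha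
  have hle : ∀ x : ℕ∞, x ≤ 2 * x := by
    intro x
    rw [two_mul]
    exact le_self_add
  by_cases h1 : ∀ x ∈ U, x = 0 ∨ x = a
  · refine ⟨{a}, by simpa using ⟨ha2, ha1⟩, by simp, ?_, fun u hu => ?_⟩
    · intro S hS hs
      rcases Finset.subset_singleton_iff.mp hS with rfl | rfl
      · rfl
      · rw [Finset.sum_singleton] at hs; exact absurd hs ha1
    · rcases h1 u hu with rfl | rfl
      · exact ⟨∅, by simp, by simp, by simp⟩
      · exact ⟨{u}, by simp, by simp, by simpa using hle _⟩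
  push Not at h1
  obtain ⟨b0, hb0, hb1, hb2⟩ := h1
  obtain ⟨b, hb, hminb⟩ := Finset.exists_min_image ((F.erase 0).erase a) d
    ⟨b0, by rw [Finset.mem_erase, Finset.mem_erase, hFm]; exact ⟨hb2, hb1, hb0⟩⟩
  rw [Finset.mem_erase, Finset.mem_erase, hFm] at hb
  obtain ⟨hba, hb0', hbU⟩ := hb
  have hab0 : a + b ≠ 0 := by
    intro h
    apply hba
    calc b = a + a + b := by rw [h2, zero_add]
      _ = a + (a + b) := by abel
      _ = a := by rw [h, add_zero]
  have haba : a + b ≠ a := by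
    intro h; exact hb0' (by simpa using h)
  have habb : a + b ≠ b := by
    intro h; exact ha1 (by simpa using h)
  have hall : ∀ u ∈ U, u = 0 ∨ u = a ∨ u = b ∨ u = a + b := by
    intro u hu
    by_contra hcon
    push Not at hcon
    obtain ⟨c1, c2, c3, c4⟩ := hcon
    have hsub : ({0, a, b, a + b, u} : Finset Q) ⊆ F := by
      intro x hx
      rw [hFm]
      simp only [Finset.mem_insert, Finset.mem_singleton] at hx
      rcases hx with rfl | rfl | rfl | rfl | rfl
      · exact AddSubgroup.zero_mem _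
      · exact ha2
      · exact hbU
      · exact AddSubgroup.add_mem _ ha2 hbU
      · exact hu
    have hc5 : ({0, a, b, a + b, u} : Finset Q).card = 5 := by
      rw [Finset.card_insert_of_notMem, Finset.card_insert_of_notMem,
        Finset.card_insert_of_notMem, Finset.card_insert_of_notMem, Finset.card_singleton]
      · simpa using fun h => c4 h.symm
      · simp only [Finset.mem_insert, Finset.mem_singleton, not_or]
        exact ⟨fun h => habb h.symm, fun h => c3 h.symm⟩
      · simp only [Finset.mem_insert, Finset.mem_singleton, not_or]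
        exact ⟨fun h => hba h.symm, fun h => haba h.symm, fun h => c2 h.symm⟩
      · simp only [Finset.mem_insert, Finset.mem_singleton, not_or]
        exact ⟨fun h => ha1 h.symm, fun h => hb0' h.symm, fun h => hab0 h.symm, fun h => c1 h.symm⟩
    have := Finset.card_le_card hsub
    omega
  refine ⟨{a, b}, ?_, Finset.card_le_two, ?_, ?_⟩
  · intro x hx
    simp only [Finset.mem_insert, Finset.mem_singleton] at hx
    rcases hx with rfl | rfl
    · exact ⟨ha2, ha1⟩
    · exact ⟨hbU, hb0'⟩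
  · intro S hS hs
    have hS' : S ∈ ({a, b} : Finset Q).powerset := Finset.mem_powerset.mpr hS
    by_cases haS : a ∈ S <;> by_cases hbS : b ∈ S
    · have : S = {a, b} := by
        refine Finset.Subset.antisymm hS ?_
        intro x hx
        simp only [Finset.mem_insert, Finset.mem_singleton] at hx
        rcases hx with rfl | rfl <;> assumption
      rw [this, Finset.sum_pair hba.symm] at hs
      exact absurd hs hab0
    · have : S = {a} := by
        refine Finset.Subset.antisymm ?_ (by simpa using haS)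
        intro x hx
        have := hS hx
        simp only [Finset.mem_insert, Finset.mem_singleton] at this ⊢
        rcases this with rfl | rfl
        · rfl
        · exact absurd hx hbS
      rw [this, Finset.sum_singleton] at hs
      exact absurd hs ha1
    · have : S = {b} := by
        refine Finset.Subset.antisymm ?_ (by simpa using hbS)
        intro x hx
        have := hS hx
        simp only [Finset.mem_insert, Finset.mem_singleton] at this ⊢
        rcases this with rfl | rfl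
        · exact absurd hx haS
        · rfl
      rw [this, Finset.sum_singleton] at hs
      exact absurd hs hb0'
    · rw [Finset.eq_empty_iff_forall_notMem]
      intro x hx
      have := hS hx
      simp only [Finset.mem_insert, Finset.mem_singleton] at this
      rcases this with rfl | rfl
      · exact haS hx
      · exact hbS hx
  · intro u hu
    rcases hall u hu with rfl | rfl | rfl | rfl
    · exact ⟨∅, by simp, by simp, by simp⟩
    · exact ⟨{u}, by simp, by simp, by simpa using hle _⟩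
    · exact ⟨{u}, by simp, by simp, by simpa using hle _⟩
    · refine ⟨{a, b}, subset_rfl, Finset.sum_pair hba.symm, ?_⟩
      rw [Finset.sum_pair hba.symm, two_mul]
      refine add_le_add ?_ ?_
      · exact hmina _ (by rw [Finset.mem_erase, hFm]; exact ⟨hab0, hu⟩)
      · exact hminb _ (by rw [Finset.mem_erase, Finset.mem_erase, hFm]; exact ⟨haba, hab0, hu⟩)

lemma dsum_le {V : Set Q} {J : Type u} (S : Sys V J) (j : J) {ι : Type*} (s : Finset ι)
    (f : ι → Q) : S.d j (∑ i ∈ s, f i) ≤ ∑ i ∈ s, S.d j (f i) := by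
  classical
  induction s using Finset.induction_on with
  | empty => simp [S.d0]
  | insert a s ha ih =>
    rw [Finset.sum_insert ha, Finset.sum_insert ha]
    exact le_trans (S.dadd j _ _) (add_le_add le_rfl ih)

lemma two_mul_lt {c : ℕ∞} {l ℓ : ℕ} (h : c < ((l + 1) * ℓ : ℕ)) :
    2 * c < ((2 * (l + 1) * ℓ : ℕ) : ℕ∞) := by
  obtain ⟨n, hn⟩ := WithTop.ne_top_iff_exists.mp (ne_top_of_lt h)
  have hn' : c = (n : ℕ∞) := hn.symm
  rw [hn'] at h ⊢
  norm_cast at h ⊢
  calc 2 * n < 2 * ((l + 1) * ℓ) := by omega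
    _ = 2 * (l + 1) * ℓ := by ring

set_option maxHeartbeats 1000000 in
/-- leaves -/
theorem leaf (h2 : ∀ x : Q, x + x = 0) {V : Set Q} (hV : BB V) : Bd V 2 := by
  classical
  intro J _ S ℓ hS l
  rcases Nat.eq_zero_or_pos l with rfl | hl
  · simpa using words_zero h2 S hS
  choose T hT1 hT2 hT3 hT4 using fun j => exists_basis h2 (S.U j) (S.card_le j) (S.d j)
  let T' : J → Finset Q := fun j => (T j).filter fun x => S.d j x ≠ ⊤
  let E := Σ j, {x // x ∈ T' j}
  have hEc : Fintype.card E ≤ 2 * Fintype.card J := by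
    rw [Fintype.card_sigma]
    calc ∑ j, Fintype.card {x // x ∈ T' j} ≤ ∑ _j : J, 2 := by
          refine Finset.sum_le_sum fun j _ => ?_
          rw [Fintype.card_coe]
          exact le_trans (Finset.card_le_card (Finset.filter_subset _ _)) (hT2 j)
      _ = 2 * Fintype.card J := by simp [mul_comm]
  let q : E → Q := fun e => e.2
  let ω : E → ℕ := fun e => (S.d e.1 e.2).toNat
  have hω : ∀ e : E, ((ω e : ℕ) : ℕ∞) = S.d e.1 e.2 := by
    rintro ⟨j, x, hx⟩
    exact ENat.natCast_toNat (Finset.mem_filter.mp hx).2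
  -- slices
  let sl : Finset E → ∀ j, Finset {x // x ∈ T' j} := fun v j =>
    Finset.univ.filter fun x => (⟨j, x⟩ : E) ∈ v
  have hsl : ∀ v : Finset E, Finset.univ.sigma (sl v) = v := by
    intro v
    ext ⟨j, x⟩
    simp [sl]
  have hsum : ∀ {M : Type u} [AddCommMonoid M] (v : Finset E) (f : E → M),
      ∑ e ∈ v, f e = ∑ j, ∑ x ∈ sl v j, f ⟨j, x⟩ := by
    intro M _ v f
    conv_lhs => rw [← hsl v]
    rw [Finset.sum_sigma]
  let g : Finset E → J → Q := fun v j => ∑ x ∈ sl v j, (x : Q)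
  have hsum' : ∀ (v : Finset E) (f : E → ℕ∞),
      ∑ e ∈ v, f e = ∑ j, ∑ x ∈ sl v j, f ⟨j, x⟩ := by
    intro v f
    conv_lhs => rw [← hsl v]
    rw [Finset.sum_sigma]
  have hgirth : ∀ v : Finset E, v.Nonempty → ∑ e ∈ v, q e = 0 → ℓ ≤ ∑ e ∈ v, ω e := by
    intro v hv hv0
    by_contra hcon
    push Not at hcon
    have h1 := hS (g v) (by rw [← hsum v q, hv0]) (by
      have h3 : cost S.d (g v) ≤ ((∑ e ∈ v, ω e : ℕ) : ℕ∞) := by
        rw [Nat.cast_sum, hsum']
        unfold cost
        refine Finset.sum_le_sum fun j _ => ?_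
        refine le_trans (dsum_le S j _ _) (Finset.sum_le_sum fun x _ => ?_)
        rw [hω]
      exact lt_of_le_of_lt h3 (by exact_mod_cast hcon))
    obtain ⟨⟨j, x⟩, hx⟩ := hv
    have h3 : ∑ y ∈ (sl v j).map (Function.Embedding.subtype _), y = 0 := by
      rw [Finset.sum_map]
      exact congrFun h1 j
    have h4 := hT3 j ((sl v j).map (Function.Embedding.subtype _)) (by
      intro y hy
      rw [Finset.mem_map] at hy
      obtain ⟨z, -, rfl⟩ := hy
      exact (Finset.mem_filter.mp z.2).1) h3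
    rw [Finset.map_eq_empty] at h4
    have : x ∈ sl v j := by simp [sl, hx]
    rw [h4] at this
    simp at this
  have hcount := hV E q (fun e => by
    obtain ⟨j, x, hx⟩ := e
    obtain ⟨h5, h6⟩ := hT1 j x (Finset.mem_filter.mp hx).1
    exact S.sub j x h5 h6) ω ℓ hgirth (2 * (l + 1))
  -- step 1: difference words
  have hstep : {w : J → Q | ∑ j, w j = 0 ∧ cost S.d w < ((l + 1) * ℓ : ℕ)}.encard ≤
      {v : Finset E | ∑ e ∈ v, q e = 0 ∧ ∑ e ∈ v, ω e < (2 * (l + 1)) * ℓ}.encard := by
    have hR : ∀ j u, ∃ R : Finset Q, u ∈ S.U j → R ⊆ T j ∧ ∑ x ∈ R, x = u ∧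
        ∑ x ∈ R, S.d j x ≤ 2 * S.d j u := by
      intro j u
      by_cases hu : u ∈ S.U j
      · obtain ⟨R, h1, h3, h4⟩ := hT4 j u hu
        exact ⟨R, fun _ => ⟨h1, h3, h4⟩⟩
      · exact ⟨∅, fun h => absurd h hu⟩
    choose R hR using hR
    have key : ∀ w : J → Q, cost S.d w < ((l + 1) * ℓ : ℕ) → ∀ j, w j ∈ S.U j ∧
        R j (w j) ⊆ T' j := by
      intro w hw j
      have h1 : S.d j (w j) ≠ ⊤ := by
        intro h
        have : cost S.d w = ⊤ := WithTop.sum_eq_top.mpr ⟨j, Finset.mem_univ j, h⟩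
        rw [this] at hw
        simp at hw
      have h3 := S.dU j _ h1
      refine ⟨h3, fun x hx => ?_⟩
      obtain ⟨h4, h5, h6⟩ := hR j (w j) h3
      refine Finset.mem_filter.mpr ⟨h4 hx, fun h7 => ?_⟩
      have h8 : ∑ x ∈ R j (w j), S.d j x = ⊤ := WithTop.sum_eq_top.mpr ⟨x, hx, h7⟩
      rw [h8] at h6
      have h9 : 2 * S.d j (w j) ≠ ⊤ := by
        obtain ⟨n, hn⟩ := WithTop.ne_top_iff_exists.mp h1
        have hn' : S.d j (w j) = (n : ℕ∞) := hn.symm
        rw [hn']
        exact_mod_cast ENat.natCast_ne_top (2 * n)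
      exact h9 (top_le_iff.mp h6)
    let Φ : (J → Q) → Finset E := fun w =>
      Finset.univ.sigma fun j => (R j (w j)).subtype (· ∈ T' j)
    have hΦ : ∀ w : J → Q, cost S.d w < ((l + 1) * ℓ : ℕ) → g (Φ w) = w := by
      intro w hw
      funext j
      have h1 : sl (Φ w) j = (R j (w j)).subtype (· ∈ T' j) := by
        ext x
        rw [Finset.mem_filter]
        exact ⟨fun h => Finset.mem_subtype.mpr (Finset.mem_subtype.mp (Finset.mem_sigma.mp h.2).2),
          fun h => ⟨Finset.mem_univ _, Finset.mem_sigma.mpr ⟨Finset.mem_univ _, h⟩⟩⟩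
      change ∑ x ∈ sl (Φ w) j, (x : Q) = w j
      rw [h1, Finset.sum_subtype_of_mem (fun x => x) (fun x hx => (key w hw j).2 hx)]
      exact (hR j (w j) (key w hw j).1).2.1
    refine Set.encard_le_encard_of_injOn (f := Φ) ?_ ?_
    · rintro w ⟨hw1, hw2⟩
      refine ⟨?_, ?_⟩
      · rw [hsum (Φ w) q]
        have h1 := hΦ w hw2
        calc ∑ j, ∑ x ∈ sl (Φ w) j, q ⟨j, x⟩ = ∑ j, g (Φ w) j := rfl
          _ = 0 := by rw [h1, hw1]
      · have h3 : ((∑ e ∈ Φ w, ω e : ℕ) : ℕ∞) ≤ 2 * cost S.d w := by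
          rw [Nat.cast_sum]
          have h4 : ∑ e ∈ Φ w, ((ω e : ℕ) : ℕ∞) =
              ∑ j, ∑ x ∈ (R j (w j)).subtype (· ∈ T' j), ((ω ⟨j, x⟩ : ℕ) : ℕ∞) :=
            Finset.sum_sigma _ _ _
          rw [h4]
          unfold cost
          rw [Finset.mul_sum]
          refine Finset.sum_le_sum fun j _ => ?_
          have h6 : ∑ x ∈ (R j (w j)).subtype (· ∈ T' j), S.d j x = ∑ x ∈ R j (w j), S.d j x :=
            Finset.sum_subtype_of_mem (fun x => S.d j x) (fun x hx => (key w hw2 j).2 hx)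
          have h7 : ∑ x ∈ (R j (w j)).subtype (· ∈ T' j), ((ω ⟨j, x⟩ : ℕ) : ℕ∞) =
              ∑ x ∈ (R j (w j)).subtype (· ∈ T' j), S.d j x :=
            Finset.sum_congr rfl fun x _ => hω _
          rw [h7, h6]
          exact (hR j (w j) (key w hw2 j).1).2.2
        exact ENat.natCast_lt_natCast.mp (lt_of_le_of_lt h3 (two_mul_lt hw2))
    · rintro w ⟨_, hw⟩ w' ⟨_, hw'⟩ h
      rw [← hΦ w hw, ← hΦ w' hw', h]
  -- step 2: translate
  have hstep2 : (words S ℓ l).encard ≤
      {w : J → Q | ∑ j, w j = 0 ∧ cost S.d w < ((l + 1) * ℓ : ℕ)}.encard := by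
    rcases (words S ℓ l).eq_empty_or_nonempty with h | ⟨x0, hx0⟩
    · rw [h]; simp
    · refine Set.encard_le_encard_of_injOn (f := fun x => x + x0) ?_ ?_
      · rintro x ⟨hx1, hx2⟩
        refine ⟨?_, lt_of_le_of_lt (cost_add_le S x x0) (half_add hx2 hx0.2)⟩
        have h1 := hx0.1
        simp [Finset.sum_add_distrib, hx1, h1]
      · intro x _ y _ h
        exact add_right_cancel h
  refine le_trans hstep2 (le_trans hstep (le_trans hcount ?_))
  have h1 : (Fintype.card E + 2) ^ (14 * (2 * (l + 1))) ≤ (Fintype.card J + 2) ^ (112 * l) := by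
    calc (Fintype.card E + 2) ^ (14 * (2 * (l + 1)))
        ≤ ((Fintype.card J + 2) ^ 2) ^ (14 * (2 * (l + 1))) := by
          refine Nat.pow_le_pow_left ?_ _
          nlinarith
      _ = (Fintype.card J + 2) ^ (56 * (l + 1)) := by
          rw [← pow_mul]; congr 1; ring
      _ ≤ (Fintype.card J + 2) ^ (112 * l) := by
          refine Nat.pow_le_pow_right (by omega) (by omega)
  exact_mod_cast h1

end H63Mat
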