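import Mathlib
import Pool.Agent.H63.MatD

set_option autoImplicit false
set_option linter.unusedSectionVars false

namespace H63Mat

universe u

open Finset

variable {Q : Type u} [AddCommGroup Q]

/-- the bound for families of distinct vectors taken from `V` -/
def BBinj (V : Set Q) : Prop :=
  ∀ (E : Type u) [Fintype E] (q : E → Q), Function.Injective q → (∀ e, q e ∈ V) →
    ∀ (ω : E → ℕ) (ℓ : ℕ),
    (∀ v : Finset E, v.Nonempty → ∑ e ∈ v, q e = 0 → ℓ ≤ ∑ e ∈ v, ω e) → ∀ β : ℕ,
    {v : Finset E | ∑ e ∈ v, q e = 0 ∧ ∑ e ∈ v, ω e < β * ℓ}.encard ≤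
      ((Fintype.card E + 2 : ℕ) : ℕ∞) ^ (6 * β)

lemma sum_symmDiff' {E : Type*} [DecidableEq E] (h2 : ∀ x : Q, x + x = 0) (q : E → Q)
    (s t : Finset E) : ∑ e ∈ symmDiff s t, q e = ∑ e ∈ s, q e + ∑ e ∈ t, q e := by
  have h1 : symmDiff s t = (s \ t) ∪ (t \ s) := rfl
  rw [h1, Finset.sum_union (by
    rw [Finset.disjoint_left]
    intro x hx hy
    rw [Finset.mem_sdiff] at hx hy
    exact hx.2 hy.1)]
  have h3 : ∑ e ∈ s, q e = ∑ e ∈ s \ t, q e + ∑ e ∈ s ∩ t, q e := by
    rw [add_comm]; exact (Finset.sum_inter_add_sum_sdiff s t q).symm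
  have h4 : ∑ e ∈ t, q e = ∑ e ∈ t \ s, q e + ∑ e ∈ s ∩ t, q e := by
    rw [add_comm, Finset.inter_comm]; exact (Finset.sum_inter_add_sum_sdiff t s q).symm
  rw [h3, h4]
  have h5 := h2 (∑ e ∈ s ∩ t, q e)
  calc ∑ e ∈ s \ t, q e + ∑ e ∈ t \ s, q e
      = ∑ e ∈ s \ t, q e + ∑ e ∈ t \ s, q e + (∑ e ∈ s ∩ t, q e + ∑ e ∈ s ∩ t, q e) := by
        rw [h5, add_zero]
    _ = _ := by abel

lemma sum_symmDiff_le {E : Type*} [DecidableEq E] (ω : E → ℕ) (s t : Finset E) :
    ∑ e ∈ symmDiff s t, ω e ≤ ∑ e ∈ s, ω e + ∑ e ∈ t, ω e := by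
  have h1 : symmDiff s t = (s \ t) ∪ (t \ s) := rfl
  rw [h1, Finset.sum_union (by
    rw [Finset.disjoint_left]
    intro x hx hy
    rw [Finset.mem_sdiff] at hx hy
    exact hx.2 hy.1)]
  exact Nat.add_le_add (Finset.sum_le_sum_of_subset Finset.sdiff_subset)
    (Finset.sum_le_sum_of_subset Finset.sdiff_subset)

lemma card_small_subsets (E : Type u) [Fintype E] (k : ℕ) :
    {h : Finset E | h.card ≤ k}.encard ≤ ((Fintype.card E + 1 : ℕ) : ℕ∞) ^ k := by
  classical
  have hsub : {h : Finset E | h.card ≤ k} ⊆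
      (fun f : Fin k → Option E => Finset.univ.filter fun e => ∃ i, f i = some e) '' Set.univ := by
    intro h hh
    have hh' : h.card ≤ k := hh
    let eq := h.equivFin
    refine ⟨fun i => if hi : i.1 < h.card then some (eq.symm ⟨i.1, hi⟩).1 else none, trivial, ?_⟩
    ext e
    simp only [Finset.mem_filter, Finset.mem_univ, true_and]
    constructor
    · rintro ⟨i, hi⟩
      by_cases h1 : i.1 < h.card
      · rw [dif_pos h1] at hi
        rw [← Option.some.inj hi]
        exact (eq.symm _).2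
      · rw [dif_neg h1] at hi
        exact absurd hi (by simp)
    · intro he
      refine ⟨⟨(eq ⟨e, he⟩).1, lt_of_lt_of_le (eq ⟨e, he⟩).2 hh'⟩, ?_⟩
      rw [dif_pos (eq ⟨e, he⟩).2]
      simp
  refine le_trans (Set.encard_le_encard hsub) (le_trans (Set.encard_image_le _ _) ?_)
  rw [Set.encard_univ, ENat.card_eq_coe_fintype_card]
  simp

theorem heavy_light (h2 : ∀ x : Q, x + x = 0) {V : Set Q} (hV : BBinj V) : BB V := by
  classical
  intro E _ q hq ω ℓ hg β
  rcases Nat.eq_zero_or_pos ℓ with hℓ | hℓ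
  · have : {v : Finset E | ∑ e ∈ v, q e = 0 ∧ ∑ e ∈ v, ω e < β * ℓ} = ∅ := by
      ext v; simp [hℓ]
    rw [this]; simp
  let L := {e : E // 2 * ω e < ℓ}
  have hinj : Function.Injective (fun e : L => q e.1) := by
    rintro ⟨e, he⟩ ⟨e', he'⟩ h
    by_contra hne
    have hne' : e ≠ e' := fun h' => hne (Subtype.ext h')
    have h1 := hg {e, e'} (by simp) (by
      rw [Finset.sum_pair hne']
      have : q e = q e' := h
      rw [this, h2])
    rw [Finset.sum_pair hne'] at h1
    omega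
  have hcardL : Fintype.card L ≤ Fintype.card E := Fintype.card_subtype_le _
  have hLcount := hV L (fun e => q e.1) hinj (fun e => hq e.1) (fun e => ω e.1) ℓ (by
    intro v hv hv0
    have h1 := hg (v.map (Function.Embedding.subtype _)) (by simpa using hv) (by
      rw [Finset.sum_map]; exact hv0)
    rw [Finset.sum_map] at h1
    exact h1) (2 * β)
  set A : Set (Finset E) := {v : Finset E | ∑ e ∈ v, q e = 0 ∧ ∑ e ∈ v, ω e < β * ℓ} with hA
  let hv : Finset E → Finset E := fun v => v.filter fun e => ¬ 2 * ω e < ℓ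
  let H : Finset (Finset E) := Finset.univ.filter fun h => h.card ≤ 2 * β
  have hHc : (H.card : ℕ∞) ≤ ((Fintype.card E + 1 : ℕ) : ℕ∞) ^ (2 * β) := by
    refine le_trans (le_of_eq ?_) (card_small_subsets E (2 * β))
    rw [← Set.encard_coe_eq_coe_finsetCard]
    congr 1
    ext h
    simp [H]
  have hsub : A ⊆ ⋃ h ∈ H, {v | v ∈ A ∧ hv v = h} := by
    intro v hvA
    simp only [Set.mem_iUnion]
    refine ⟨hv v, ?_, hvA, rfl⟩
    rw [Finset.mem_filter]
    refine ⟨Finset.mem_univ _, ?_⟩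
    have h1 : (hv v).card * ℓ ≤ 2 * ∑ e ∈ v, ω e := by
      calc (hv v).card * ℓ = ∑ _e ∈ hv v, ℓ := by simp
        _ ≤ ∑ e ∈ hv v, 2 * ω e := by
          refine Finset.sum_le_sum fun e he => ?_
          have := (Finset.mem_filter.mp he).2
          omega
        _ = 2 * ∑ e ∈ hv v, ω e := by rw [Finset.mul_sum]
        _ ≤ 2 * ∑ e ∈ v, ω e := Nat.mul_le_mul_left _
          (Finset.sum_le_sum_of_subset (Finset.filter_subset _ _))
    have h3 : (hv v).card * ℓ < (2 * β) * ℓ := by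
      have h4 := hvA.2
      calc (hv v).card * ℓ ≤ 2 * ∑ e ∈ v, ω e := h1
        _ < 2 * (β * ℓ) := by omega
        _ = (2 * β) * ℓ := by ring
    exact le_of_lt (Nat.lt_of_mul_lt_mul_right h3)
  have hfib : ∀ h ∈ H, {v | v ∈ A ∧ hv v = h}.encard ≤
      ((Fintype.card E + 2 : ℕ) : ℕ∞) ^ (12 * β) := by
    intro h _
    rcases Set.eq_empty_or_nonempty {v | v ∈ A ∧ hv v = h} with h1 | ⟨v0, hv0, hv0h⟩
    · rw [h1]; simp
    have hlight : ∀ v, hv v = h → ∀ e ∈ symmDiff v v0, 2 * ω e < ℓ := by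
      intro v hvh e he
      by_contra hcon
      have e1 : e ∈ v ↔ e ∈ hv v := by simp [hv, hcon]; intro _; omega
      have e2 : e ∈ v0 ↔ e ∈ hv v0 := by simp [hv, hcon]; intro _; omega
      rw [hvh] at e1
      rw [hv0h] at e2
      rw [Finset.mem_symmDiff] at he
      tauto
    refine le_trans (Set.encard_le_encard_of_injOn
      (f := fun v => (symmDiff v v0).subtype (fun e => 2 * ω e < ℓ)) ?_ ?_) (le_trans hLcount ?_)
    · rintro v ⟨⟨hv1, hv2⟩, hv3⟩
      refine ⟨?_, ?_⟩
      · rw [Finset.sum_subtype_of_mem (fun e => q e) (hlight v hv3), sum_symmDiff' h2, hv1, hv0.1,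
          add_zero]
      · rw [Finset.sum_subtype_of_mem (fun e => ω e) (hlight v hv3)]
        refine lt_of_le_of_lt (sum_symmDiff_le ω v v0) ?_
        have := hv0.2
        calc ∑ e ∈ v, ω e + ∑ e ∈ v0, ω e < β * ℓ + β * ℓ := by omega
          _ = 2 * β * ℓ := by ring
    · rintro v ⟨_, hv3⟩ w ⟨_, hw3⟩ hvw
      have h5 : symmDiff v v0 = symmDiff w v0 := by
        ext e
        have h6 := congrArg (fun s : Finset L => s.map (Function.Embedding.subtype _)) hvw
        simp only [Finset.subtype_map] at h6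
        have h7 := Finset.ext_iff.mp h6 e
        simp only [Finset.mem_filter] at h7
        constructor
        · intro he
          exact (h7.mp ⟨he, hlight v hv3 e he⟩).1
        · intro he
          exact (h7.mpr ⟨he, hlight w hw3 e he⟩).1
      exact symmDiff_left_injective v0 h5
    · have h8 : (Fintype.card L + 2) ^ (6 * (2 * β)) ≤ (Fintype.card E + 2) ^ (12 * β) := by
        have : 6 * (2 * β) = 12 * β := by ring
        rw [this]
        exact Nat.pow_le_pow_left (by omega) _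
      exact_mod_cast h8
  refine le_trans (Set.encard_le_encard hsub) (le_trans (Finset.set_encard_biUnion_le _ _) ?_)
  refine le_trans (Finset.sum_le_sum hfib) ?_
  rw [Finset.sum_const, nsmul_eq_mul]
  refine le_trans (mul_le_mul' hHc le_rfl) ?_
  have h9 : (Fintype.card E + 1) ^ (2 * β) * (Fintype.card E + 2) ^ (12 * β) ≤
      (Fintype.card E + 2) ^ (14 * β) := by
    calc (Fintype.card E + 1) ^ (2 * β) * (Fintype.card E + 2) ^ (12 * β)
        ≤ (Fintype.card E + 2) ^ (2 * β) * (Fintype.card E + 2) ^ (12 * β) := by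
          gcongr; omega
      _ = (Fintype.card E + 2) ^ (14 * β) := by rw [← pow_add]; congr 1; ring
  exact_mod_cast h9

end H63Mat
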