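import Mathlib
import Pool.Agent.H63.MatE

set_option autoImplicit false
set_option linter.unusedSectionVars false

namespace H63Mat

universe u

open Finset

lemma h2_pi {W : Type*} (x : W → ZMod 2) : x + x = 0 := by
  funext w
  exact CharTwo.add_self_eq_zero (x w)

open Classical in
/-- incidence vectors of edges on the vertex set `W` -/
def VG (W : Type u) : Set (W → ZMod 2) := {z | ∃ x y, z = Pi.single x 1 + Pi.single y 1}

open Classical in
theorem graphic_BB (W : Type u) : BB (VG W) := by
  intro E _ q hq ω ℓ hg β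
  rcases Nat.eq_zero_or_pos ℓ with hℓ | hℓ
  · have : {v : Finset E | ∑ e ∈ v, q e = 0 ∧ ∑ e ∈ v, ω e < β * ℓ} = ∅ := by
      ext v; simp [hℓ]
    rw [this]; simp
  choose a b hab using hq
  set m := Fintype.card E with hm
  let X : Finset W := Finset.univ.image a ∪ Finset.univ.image b
  have hX : X.card ≤ 2 * m := by
    calc X.card ≤ (Finset.univ.image a).card + (Finset.univ.image b).card := Finset.card_union_le _ _
      _ ≤ m + m := Nat.add_le_add Finset.card_image_le Finset.card_image_le
      _ = 2 * m := by ring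
  have haX : ∀ e, a e ∈ X := fun e => Finset.mem_union_left _ (Finset.mem_image_of_mem _ (Finset.mem_univ e))
  have hbX : ∀ e, b e ∈ X := fun e => Finset.mem_union_right _ (Finset.mem_image_of_mem _ (Finset.mem_univ e))
  let sg : W → W → ZMod 2 := fun x => Pi.single x 1
  let P : Finset (W → ZMod 2) := insert 0 ((X ×ˢ X).image fun p => sg p.1 + sg p.2)
  have hPc : P.card ≤ 4 * m ^ 2 + 1 := by
    calc P.card ≤ ((X ×ˢ X).image fun p => sg p.1 + sg p.2).card + 1 := Finset.card_insert_le _ _
      _ ≤ (X ×ˢ X).card + 1 := Nat.add_le_add_right Finset.card_image_le _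
      _ = X.card * X.card + 1 := by rw [Finset.card_product]
      _ ≤ (2 * m) * (2 * m) + 1 := Nat.add_le_add_right (Nat.mul_le_mul hX hX) _
      _ = 4 * m ^ 2 + 1 := by ring
  have hPmem : ∀ x ∈ X, ∀ y ∈ X, sg x + sg y ∈ P := fun x hx y hy =>
    Finset.mem_insert_of_mem (Finset.mem_image.mpr ⟨(x, y), Finset.mem_product.mpr ⟨hx, hy⟩, rfl⟩)
  have hqP : ∀ e, q e ∈ P := fun e => by rw [hab e]; exact hPmem _ (haX e) _ (hbX e)
  let bd : Finset E → W → ZMod 2 := fun u => ∑ e ∈ u, q e
  have hbd_erase : ∀ (u : Finset E) (e : E), e ∈ u → bd (u.erase e) = bd u + q e := by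
    intro u e he
    have h1 := Finset.add_sum_erase u q he
    calc bd (u.erase e) = bd (u.erase e) + (q e + q e) := by rw [h2_pi, add_zero]
      _ = (q e + bd (u.erase e)) + q e := by abel
      _ = bd u + q e := by rw [h1]
  -- peeling
  have hpeel : ∀ u : Finset E, u.Nonempty → bd u ∈ P → ∃ e ∈ u, bd (u.erase e) ∈ P := by
    intro u hu huP
    by_cases h0 : bd u = 0
    · obtain ⟨e, he⟩ := hu
      refine ⟨e, he, ?_⟩
      rw [hbd_erase u e he, h0, zero_add]
      exact hqP e
    · have huP' := (Finset.mem_insert.mp huP).resolve_left h0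
      obtain ⟨⟨x, y⟩, hxy, hbu⟩ := Finset.mem_image.mp huP'
      rw [Finset.mem_product] at hxy
      simp only at hbu hxy
      have hne : x ≠ y := by
        intro h
        apply h0
        rw [← hbu, h, h2_pi]
      have hx1 : bd u x = 1 := by
        rw [← hbu]
        simp [sg, hne]
      have : ∃ e ∈ u, q e x ≠ 0 := by
        by_contra hcon
        push Not at hcon
        have : bd u x = 0 := by
          change (∑ e ∈ u, q e) x = 0
          rw [Finset.sum_apply]
          exact Finset.sum_eq_zero hcon
        rw [this] at hx1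
        exact absurd hx1 (by decide)
      obtain ⟨e, he, hex⟩ := this
      refine ⟨e, he, ?_⟩
      rw [hbd_erase u e he, ← hbu, hab e]
      by_cases h1 : a e = x
      · have : sg x + sg y + (Pi.single (a e) 1 + Pi.single (b e) 1) = sg y + sg (b e) := by
          rw [h1]
          change sg x + sg y + (sg x + sg (b e)) = sg y + sg (b e)
          calc sg x + sg y + (sg x + sg (b e)) = (sg x + sg x) + (sg y + sg (b e)) := by abel
            _ = _ := by rw [h2_pi, zero_add]
        rw [this]
        exact hPmem _ hxy.2 _ (hbX e)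
      · by_cases h3 : b e = x
        · have : sg x + sg y + (Pi.single (a e) 1 + Pi.single (b e) 1) = sg y + sg (a e) := by
            rw [h3]
            change sg x + sg y + (sg (a e) + sg x) = sg y + sg (a e)
            calc sg x + sg y + (sg (a e) + sg x) = (sg x + sg x) + (sg y + sg (a e)) := by abel
              _ = _ := by rw [h2_pi, zero_add]
          rw [this]
          exact hPmem _ hxy.2 _ (haX e)
        · exfalso
          apply hex
          rw [hab e]
          simp [Ne.symm h1, Ne.symm h3]
  -- cutting off a light piece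
  have hcut : ∀ u : Finset E, ℓ ≤ 2 * ∑ e ∈ u, ω e → ∀ n : ℕ, ∀ t ⊆ u, t.card = n → bd t ∈ P →
      2 * ∑ e ∈ u \ t, ω e < ℓ → ∃ s ⊆ u, ∃ e ∈ u, e ∉ s ∧ bd s ∈ P ∧
        2 * ∑ e ∈ (u \ s).erase e, ω e < ℓ ∧ ℓ ≤ 2 * ∑ e ∈ u \ s, ω e := by
    intro u hu n
    induction n with
    | zero =>
      intro t ht htc _ hlt
      rw [Finset.card_eq_zero] at htc
      rw [htc, Finset.sdiff_empty] at hlt
      omega
    | succ n ih =>
      intro t ht htc htP hlt
      obtain ⟨e, he, heP⟩ := hpeel t (Finset.card_pos.mp (by omega)) htP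
      have hc : (t.erase e).card = n := by rw [Finset.card_erase_of_mem he]; omega
      have hsub : t.erase e ⊆ u := (Finset.erase_subset _ _).trans ht
      by_cases h1 : 2 * ∑ e ∈ u \ t.erase e, ω e < ℓ
      · exact ih (t.erase e) hsub hc heP h1
      · refine ⟨t.erase e, hsub, e, ht he, by simp, heP, ?_, by omega⟩
        have : (u \ t.erase e).erase e = u \ t := by
          ext x
          simp only [Finset.mem_erase, Finset.mem_sdiff, not_and, ne_eq]
          constructor
          · rintro ⟨h3, h4, h5⟩
            exact ⟨h4, fun h6 => h5 h3 h6⟩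
          · rintro ⟨h3, h4⟩
            exact ⟨fun h5 => h4 (h5 ▸ he), h3, fun _ => h4⟩
        rw [this]
        exact hlt
  have hlight : ∀ p p' : Finset E, bd p = bd p' → 2 * ∑ e ∈ p, ω e < ℓ → 2 * ∑ e ∈ p', ω e < ℓ →
      p = p' := by
    intro p p' h1 h3 h4
    by_contra hne
    have hne' : (symmDiff p p').Nonempty := by
      rw [Finset.nonempty_iff_ne_empty]
      intro h
      exact hne (symmDiff_eq_bot.mp h)
    have h5 := hg _ hne' (by
      rw [sum_symmDiff' h2_pi]
      change bd p + bd p' = 0
      rw [h1, h2_pi])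
    have h6 := sum_symmDiff_le ω p p'
    omega
  -- the count
  set K := (m + 1) * P.card with hK
  let T : ℕ → Set (Finset E) := fun l => {u | bd u ∈ P ∧ 2 * ∑ e ∈ u, ω e < (l + 1) * ℓ}
  have hT0 : (T 0).encard ≤ P.card := by
    rw [← Set.encard_coe_eq_coe_finsetCard]
    refine Set.encard_le_encard_of_injOn (f := bd) (fun u hu => hu.1) ?_
    intro u hu u' hu' h
    exact hlight u u' h (by simpa using hu.2) (by simpa using hu'.2)
  have hT : ∀ l, (T l).encard ≤ ((K ^ (l + 1) : ℕ) : ℕ∞) := by
    intro l
    induction l with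
    | zero =>
      refine le_trans hT0 ?_
      rw [hK, zero_add, pow_one]
      have : P.card ≤ (m + 1) * P.card := Nat.le_mul_of_pos_left _ (by omega)
      exact_mod_cast this
    | succ l ih =>
      let li : (W → ZMod 2) → Finset E := fun z =>
        if h : ∃ p : Finset E, bd p = z ∧ 2 * ∑ e ∈ p, ω e < ℓ then h.choose else ∅
      have hli : ∀ p : Finset E, 2 * ∑ e ∈ p, ω e < ℓ → li (bd p) = p := by
        intro p hp
        have h : ∃ p' : Finset E, bd p' = bd p ∧ 2 * ∑ e ∈ p', ω e < ℓ := ⟨p, rfl, hp⟩
        have h1 : li (bd p) = h.choose := dif_pos h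
        rw [h1]
        exact hlight _ _ h.choose_spec.1 h.choose_spec.2 hp
      have hsub : T (l + 1) ⊆ T 0 ∪ ⋃ r ∈ (Finset.univ ×ˢ P : Finset (E × (W → ZMod 2))),
          (fun s => insert r.1 (s ∪ li (r.2 + q r.1 + bd s))) '' T l := by
        intro u hu
        by_cases hu2 : 2 * ∑ e ∈ u, ω e < ℓ
        · exact Or.inl ⟨hu.1, by simpa using hu2⟩
        right
        push Not at hu2
        obtain ⟨s, hs, e, he, hes, hsP, h1, h3⟩ := hcut u hu2 u.card u subset_rfl rfl hu.1
          (by simpa using hℓ)
        simp only [Set.mem_iUnion]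
        refine ⟨(e, bd u), Finset.mem_product.mpr ⟨Finset.mem_univ _, hu.1⟩, s, ⟨hsP, ?_⟩, ?_⟩
        · have h4 := hu.2
          have h5 := Finset.sum_sdiff (f := ω) hs
          have h6 : (l + 1 + 1) * ℓ = (l + 1) * ℓ + ℓ := by ring
          have h4' : 2 * ∑ e ∈ u, ω e < (l + 1 + 1) * ℓ := h4
          omega
        · change insert e (s ∪ li (bd u + q e + bd s)) = u
          have heu : e ∈ u \ s := Finset.mem_sdiff.mpr ⟨he, hes⟩
          have h4 : bd u + q e + bd s = bd ((u \ s).erase e) := by
            rw [hbd_erase _ e heu]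
            have h5 : bd (u \ s) + bd s = bd u := Finset.sum_sdiff hs
            rw [← h5]
            calc bd (u \ s) + bd s + q e + bd s = bd (u \ s) + q e + (bd s + bd s) := by abel
              _ = _ := by rw [h2_pi, add_zero]
          rw [h4, hli _ h1]
          ext x
          simp only [Finset.mem_insert, Finset.mem_union, Finset.mem_erase, Finset.mem_sdiff]
          constructor
          · rintro (h | h | h)
            · rw [h]; exact he
            · exact hs h
            · exact h.2.1
          · intro hx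
            by_cases h7 : x = e
            · exact Or.inl h7
            · by_cases h8 : x ∈ s
              · exact Or.inr (Or.inl h8)
              · exact Or.inr (Or.inr ⟨h7, hx, h8⟩)
      refine le_trans (Set.encard_le_encard hsub) (le_trans (Set.encard_union_le _ _) ?_)
      have h9 : (⋃ r ∈ (Finset.univ ×ˢ P : Finset (E × (W → ZMod 2))),
          (fun s => insert r.1 (s ∪ li (r.2 + q r.1 + bd s))) '' T l).encard ≤
          ((m * P.card * K ^ (l + 1) : ℕ) : ℕ∞) := by
        refine le_trans (Finset.set_encard_biUnion_le _ _) ?_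
        refine le_trans (Finset.sum_le_sum fun r _ => le_trans (Set.encard_image_le _ _) ih) ?_
        rw [Finset.sum_const, Finset.card_product, Finset.card_univ, nsmul_eq_mul]
        exact_mod_cast le_rfl
      refine le_trans (add_le_add hT0 h9) ?_
      have h10 : P.card + m * P.card * K ^ (l + 1) ≤ K ^ (l + 1 + 1) := by
        have hKpos : 1 ≤ K ^ (l + 1) := by
          apply Nat.one_le_pow
          rw [hK]
          exact Nat.mul_pos (by omega) (Finset.card_pos.mpr ⟨0, Finset.mem_insert_self _ _⟩)
        calc P.card + m * P.card * K ^ (l + 1) ≤ P.card * K ^ (l + 1) + m * P.card * K ^ (l + 1) :=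
              Nat.add_le_add_right (Nat.le_mul_of_pos_right _ hKpos) _
          _ = K ^ (l + 1 + 1) := by
            rw [pow_succ K (l + 1)]
            conv_rhs => rw [hK]
            ring
      exact_mod_cast h10
  rcases Nat.eq_zero_or_pos β with hβ | hβ
  · have : {v : Finset E | ∑ e ∈ v, q e = 0 ∧ ∑ e ∈ v, ω e < β * ℓ} = ∅ := by
      ext v; simp [hβ]
    rw [this]; simp
  refine le_trans (Set.encard_le_encard (t := T (2 * β - 1)) ?_) (le_trans (hT (2 * β - 1)) ?_)
  · rintro v ⟨hv1, hv2⟩
    refine ⟨?_, ?_⟩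
    · change bd v ∈ P
      have : bd v = 0 := hv1
      rw [this]
      exact Finset.mem_insert_self _ _
    · have : 2 * β - 1 + 1 = 2 * β := by omega
      simp only [this]
      calc 2 * ∑ e ∈ v, ω e < 2 * (β * ℓ) := by omega
        _ = 2 * β * ℓ := by ring
  · have hKle : K ≤ (m + 2) ^ 5 := by
      rw [hK]
      calc (m + 1) * P.card ≤ (m + 1) * (4 * m ^ 2 + 1) := Nat.mul_le_mul_left _ hPc
        _ ≤ (m + 2) ^ 5 := by
          nlinarith [Nat.zero_le (m ^ 3), Nat.zero_le (m ^ 4), Nat.zero_le (m ^ 5), Nat.zero_le (m ^ 2)]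
    have h11 : K ^ (2 * β - 1 + 1) ≤ (m + 2) ^ (14 * β) := by
      calc K ^ (2 * β - 1 + 1) ≤ ((m + 2) ^ 5) ^ (2 * β - 1 + 1) := Nat.pow_le_pow_left hKle _
        _ = (m + 2) ^ (10 * β) := by
          rw [← pow_mul]; congr 1; omega
        _ ≤ (m + 2) ^ (14 * β) := Nat.pow_le_pow_right (by omega) (by omega)
    exact_mod_cast h11

end H63Mat
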