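import Mathlib
import Pool.Agent.H63.MatF

set_option autoImplicit false
set_option linter.unusedSectionVars false

namespace H63Mat

universe u v

open Finset

section karger

/-- the cut determined by a two-colouring of the vertices -/
def cut {W : Type v} {E : Type u} [Fintype E] (f g : E → W) (φ : W → Bool) : Finset E :=
  Finset.univ.filter fun e => φ (f e) ≠ φ (g e)

lemma mem_cut {W : Type v} {E : Type u} [Fintype E] (f g : E → W) (φ : W → Bool) (e : E) :
    e ∈ cut f g φ ↔ φ (f e) ≠ φ (g e) := by simp [cut]

open Classical in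
/-- light cuts -/
noncomputable def lcuts {W : Type v} {E : Type u} [Fintype E] (f g : E → W) (ω : E → ℕ) (B : ℕ) :
    Finset (Finset E) :=
  Finset.univ.filter fun X => (∃ φ, X = cut f g φ) ∧ ∑ e ∈ X, ω e < B

lemma mem_lcuts {W : Type v} {E : Type u} [Fintype E] (f g : E → W) (ω : E → ℕ) (B : ℕ)
    (X : Finset E) : X ∈ lcuts f g ω B ↔ (∃ φ, X = cut f g φ) ∧ ∑ e ∈ X, ω e < B := by
  classical
  simp [lcuts]

open Classical in
/-- identify `b` with `a` -/
noncomputable def ret {W : Type v} (a b : W) (hab : a ≠ b) (w : W) : {w : W // w ≠ b} :=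
  if h : w = b then ⟨a, hab⟩ else ⟨w, h⟩

lemma ret_comp {W : Type v} {a b : W} (hab : a ≠ b) {φ : W → Bool} (h : φ a = φ b) (w : W) :
    φ (ret a b hab w).1 = φ w := by
  unfold ret
  by_cases hw : w = b
  · rw [dif_pos hw, hw]; exact h
  · rw [dif_neg hw]

lemma cut_ret {W : Type v} {E : Type u} [Fintype E] (f g : E → W) {a b : W} (hab : a ≠ b)
    {φ : W → Bool} (h : φ a = φ b) :
    cut (fun e => ret a b hab (f e)) (fun e => ret a b hab (g e)) (fun w => φ w.1) = cut f g φ := by
  ext e
  rw [mem_cut, mem_cut, ret_comp hab h, ret_comp hab h]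

lemma cut_ret' {W : Type v} {E : Type u} [Fintype E] (f g : E → W) {a b : W} (hab : a ≠ b)
    (φ : {w : W // w ≠ b} → Bool) :
    cut (fun e => ret a b hab (f e)) (fun e => ret a b hab (g e)) φ =
      cut f g (fun w => φ (ret a b hab w)) := rfl

lemma arith {N F W0 n β ℓ : ℕ} (hℓ : 0 < ℓ) (h1 : n * ℓ ≤ 2 * W0)
    (h2 : N * W0 ≤ W0 * F + N * (β * ℓ)) : N * (n - 2 * β) ≤ n * F := by
  rcases Nat.le_total N F with h | h
  · calc N * (n - 2 * β) ≤ F * n := Nat.mul_le_mul h (Nat.sub_le _ _)
      _ = n * F := Nat.mul_comm _ _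
  · obtain ⟨D, rfl⟩ := Nat.exists_eq_add_of_le h
    have h3 : 2 * W0 * D ≤ 2 * β * ℓ * (F + D) := by nlinarith
    have h4 : n * D ≤ 2 * β * (F + D) := by
      have h5 : (n * D) * ℓ ≤ (2 * β * (F + D)) * ℓ := by
        calc (n * D) * ℓ = (n * ℓ) * D := by ring
          _ ≤ 2 * W0 * D := Nat.mul_le_mul_right _ h1
          _ ≤ 2 * β * ℓ * (F + D) := h3
          _ = (2 * β * (F + D)) * ℓ := by ring
      exact Nat.le_of_mul_le_mul_right h5 hℓ
    rw [Nat.mul_sub]
    have h6 : (F + D) * n = n * F + n * D := by ring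
    have h7 : (F + D) * (2 * β) = 2 * β * (F + D) := by ring
    rw [h6, h7]
    omega

theorem karger {E : Type u} [Fintype E] (ω : E → ℕ) {ℓ β : ℕ} (hℓ : 0 < ℓ) (hβ : 0 < β) :
    ∀ (n : ℕ) (W : Type v) [Fintype W] (f g : E → W), Fintype.card W = n →
      (∀ φ : W → Bool, (cut f g φ).Nonempty → ℓ ≤ ∑ e ∈ cut f g φ, ω e) →
      (lcuts f g ω (β * ℓ)).card ≤ 4 ^ β * (max n (2 * β)).choose (2 * β) := by
  classical
  intro n
  induction n with
  | zero =>
    intro W _ f g hn hg
    have hle : (lcuts f g ω (β * ℓ)).card ≤ 1 := by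
      rw [Finset.card_le_one]
      intro X hX Y hY
      obtain ⟨⟨φ, rfl⟩, _⟩ := (mem_lcuts _ _ _ _ _).mp hX
      obtain ⟨⟨ψ, rfl⟩, _⟩ := (mem_lcuts _ _ _ _ _).mp hY
      have : IsEmpty W := Fintype.card_eq_zero_iff.mp hn
      have : φ = ψ := Subsingleton.elim _ _
      rw [this]
    rw [Nat.max_eq_right (Nat.zero_le _), Nat.choose_self, mul_one]
    exact le_trans hle (Nat.one_le_pow _ _ (by norm_num))
  | succ n ih =>
    intro W _ f g hn hg
    by_cases hsmall : n + 1 ≤ 2 * β
    · rw [Nat.max_eq_right hsmall, Nat.choose_self, mul_one]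
      have h1 : lcuts f g ω (β * ℓ) ⊆ Finset.univ.image (cut f g) := by
        intro X hX
        obtain ⟨⟨φ, rfl⟩, _⟩ := (mem_lcuts _ _ _ _ _).mp hX
        exact Finset.mem_image_of_mem _ (Finset.mem_univ φ)
      calc (lcuts f g ω (β * ℓ)).card ≤ (Finset.univ.image (cut f g)).card := Finset.card_le_card h1
        _ ≤ (Finset.univ : Finset (W → Bool)).card := Finset.card_image_le
        _ = 2 ^ (n + 1) := by rw [Finset.card_univ, Fintype.card_fun, Fintype.card_bool, hn]
        _ ≤ 2 ^ (2 * β) := Nat.pow_le_pow_right (by norm_num) hsmall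
        _ = 4 ^ β := by rw [pow_mul]; norm_num
    push Not at hsmall
    have hcontr : ∀ (a b : W) (hab : a ≠ b),
        (lcuts (fun e => ret a b hab (f e)) (fun e => ret a b hab (g e)) ω (β * ℓ)).card ≤
          4 ^ β * (max n (2 * β)).choose (2 * β) := by
      intro a b hab
      refine ih {w : W // w ≠ b} _ _ ?_ ?_
      · rw [Fintype.card_subtype_compl, Fintype.card_subtype_eq, hn]
        rfl
      · intro φ hφ
        rw [cut_ret'] at hφ ⊢
        exact hg _ hφ
    have hmax : max n (2 * β) = n := Nat.max_eq_left (by omega)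
    have hmax' : max (n + 1) (2 * β) = n + 1 := Nat.max_eq_left (by omega)
    rw [hmax] at hcontr
    rw [hmax']
    set F := 4 ^ β * n.choose (2 * β) with hF
    -- sets avoiding an edge
    have havoid : ∀ a b : W, a ≠ b →
        ((lcuts f g ω (β * ℓ)).filter fun X => ∃ φ : W → Bool, φ a = φ b ∧ X = cut f g φ).card ≤ F := by
      intro a b hab
      refine le_trans (Finset.card_le_card ?_) (hcontr a b hab)
      intro X hX
      rw [Finset.mem_filter] at hX
      obtain ⟨hX1, φ, hφ, rfl⟩ := hX
      exact (mem_lcuts _ _ _ _ _).mpr ⟨⟨fun w => φ w.1, (cut_ret f g hab hφ).symm⟩,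
        ((mem_lcuts _ _ _ _ _).mp hX1).2⟩
    have hfinal : (lcuts f g ω (β * ℓ)).card * (n + 1 - 2 * β) ≤ (n + 1) * F := by
      by_cases hiso : ∃ b : W, ∀ e, (f e = b ↔ g e = b)
      · obtain ⟨b, hb⟩ := hiso
        obtain ⟨a, hab⟩ : ∃ a, a ≠ b := by
          have : 1 < Fintype.card W := by omega
          exact Fintype.exists_ne_of_one_lt_card this b
        have h1 : (lcuts f g ω (β * ℓ)).card ≤ F := by
          refine le_trans (Finset.card_le_card ?_) (havoid a b hab)
          intro X hX
          refine Finset.mem_filter.mpr ⟨hX, ?_⟩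
          obtain ⟨⟨φ, rfl⟩, _⟩ := (mem_lcuts _ _ _ _ _).mp hX
          refine ⟨Function.update φ b (φ a), by simp [hab], ?_⟩
          ext e
          rw [mem_cut, mem_cut]
          by_cases h3 : f e = b
          · rw [h3, (hb e).mp h3]
            simp
          · have h4 : g e ≠ b := fun h => h3 ((hb e).mpr h)
            rw [Function.update_of_ne h3, Function.update_of_ne h4]
        calc (lcuts f g ω (β * ℓ)).card * (n + 1 - 2 * β) ≤ F * (n + 1) :=
              Nat.mul_le_mul h1 (Nat.sub_le _ _)
          _ = (n + 1) * F := Nat.mul_comm _ _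
      · push Not at hiso
        -- non-loops
        let NL : Finset E := Finset.univ.filter fun e => f e ≠ g e
        set W0 := ∑ e ∈ NL, ω e with hW0
        have hdeg : (n + 1) * ℓ ≤ 2 * W0 := by
          have hstar : ∀ w : W, ℓ ≤ ∑ e ∈ cut f g (fun x => decide (x = w)), ω e := by
            intro w
            apply hg
            obtain ⟨e, he⟩ := hiso w
            refine ⟨e, ?_⟩
            rw [mem_cut]
            rcases he with ⟨h1, h2⟩ | ⟨h1, h2⟩
            · simp [h1, h2]
            · simp [h1, h2]
          calc (n + 1) * ℓ = ∑ _w : W, ℓ := by simp [hn]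
            _ ≤ ∑ w : W, ∑ e ∈ cut f g (fun x => decide (x = w)), ω e :=
              Finset.sum_le_sum fun w _ => hstar w
            _ = ∑ w : W, ∑ e : E, if (decide (f e = w) ≠ decide (g e = w)) then ω e else 0 := by
              refine Finset.sum_congr rfl fun w _ => ?_
              rw [← Finset.sum_filter]
              rfl
            _ = ∑ e : E, ∑ w : W, if (decide (f e = w) ≠ decide (g e = w)) then ω e else 0 :=
              Finset.sum_comm
            _ ≤ ∑ e : E, if f e ≠ g e then 2 * ω e else 0 := by
              refine Finset.sum_le_sum fun e _ => ?_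
              by_cases h : f e = g e
              · simp [h]
              · rw [if_pos h]
                rw [← Finset.sum_filter]
                rw [Finset.sum_const, smul_eq_mul]
                refine Nat.mul_le_mul_right _ ?_
                refine le_trans (Finset.card_le_card (t := {f e, g e}) ?_) Finset.card_le_two
                intro w hw
                rw [Finset.mem_filter] at hw
                have hw2 := hw.2
                simp only [Finset.mem_insert, Finset.mem_singleton]
                by_contra hcon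
                push Not at hcon
                apply hw2
                simp [Ne.symm hcon.1, Ne.symm hcon.2]
            _ = 2 * W0 := by
              rw [← Finset.sum_filter, hW0, Finset.mul_sum]
        have hexch : (lcuts f g ω (β * ℓ)).card * W0 ≤
            W0 * F + (lcuts f g ω (β * ℓ)).card * (β * ℓ) := by
          have h1 : ∀ X ∈ lcuts f g ω (β * ℓ),
              W0 ≤ ∑ e ∈ NL, (if e ∉ X then ω e else 0) + β * ℓ := by
            intro X hX
            have hX2 := ((mem_lcuts _ _ _ _ _).mp hX).2
            have h3 : W0 = ∑ e ∈ NL, (if e ∉ X then ω e else 0) +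
                ∑ e ∈ NL, (if e ∈ X then ω e else 0) := by
              rw [hW0, ← Finset.sum_add_distrib]
              refine Finset.sum_congr rfl fun e _ => ?_
              by_cases he : e ∈ X <;> simp [he]
            have h4 : ∑ e ∈ NL, (if e ∈ X then ω e else 0) ≤ ∑ e ∈ X, ω e := by
              rw [← Finset.sum_filter]
              exact Finset.sum_le_sum_of_subset fun e he => (Finset.mem_filter.mp he).2
            omega
          have h2 : ∀ e ∈ NL, ∑ X ∈ lcuts f g ω (β * ℓ), (if e ∉ X then ω e else 0) ≤ ω e * F := by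
            intro e he
            have hne := (Finset.mem_filter.mp he).2
            rw [← Finset.sum_filter, Finset.sum_const, smul_eq_mul, Nat.mul_comm]
            refine Nat.mul_le_mul_left _ (le_trans (Finset.card_le_card ?_) (havoid _ _ hne))
            intro X hX
            rw [Finset.mem_filter] at hX ⊢
            refine ⟨hX.1, ?_⟩
            obtain ⟨⟨φ, rfl⟩, _⟩ := (mem_lcuts _ _ _ _ _).mp hX.1
            refine ⟨φ, ?_, rfl⟩
            have := hX.2
            rw [mem_cut] at this
            push Not at this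
            exact this
          calc (lcuts f g ω (β * ℓ)).card * W0 = ∑ _X ∈ lcuts f g ω (β * ℓ), W0 := by simp
            _ ≤ ∑ X ∈ lcuts f g ω (β * ℓ), (∑ e ∈ NL, (if e ∉ X then ω e else 0) + β * ℓ) :=
              Finset.sum_le_sum h1
            _ = ∑ e ∈ NL, ∑ X ∈ lcuts f g ω (β * ℓ), (if e ∉ X then ω e else 0) +
                (lcuts f g ω (β * ℓ)).card * (β * ℓ) := by
              rw [Finset.sum_add_distrib, Finset.sum_comm]
              simp
            _ ≤ ∑ e ∈ NL, ω e * F + (lcuts f g ω (β * ℓ)).card * (β * ℓ) :=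
              Nat.add_le_add_right (Finset.sum_le_sum h2) _
            _ = W0 * F + (lcuts f g ω (β * ℓ)).card * (β * ℓ) := by
              rw [hW0, Finset.sum_mul]
        exact arith hℓ hdeg hexch
    have hch := Nat.choose_mul_succ_eq n (2 * β)
    have hpos : 0 < n + 1 - 2 * β := by omega
    refine Nat.le_of_mul_le_mul_right (le_trans hfinal (le_of_eq ?_)) hpos
    calc (n + 1) * F = 4 ^ β * (n.choose (2 * β) * (n + 1)) := by rw [hF]; ring
      _ = 4 ^ β * ((n + 1).choose (2 * β) * (n + 1 - 2 * β)) := by rw [hch]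
      _ = _ := by ring

end karger

end H63Mat
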