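import Mathlib
import Pool.Agent.H63.MatG

set_option autoImplicit false
set_option linter.unusedSectionVars false

namespace H63Mat

universe u v

open Finset

variable {Q : Type u} [AddCommGroup Q]

theorem small_BBinj {V : Set Q} (hV : V.encard ≤ 10) : BBinj V := by
  classical
  intro E _ q hinj hq ω ℓ hg β
  rcases Nat.eq_zero_or_pos β with hβ | hβ
  · have : {v : Finset E | ∑ e ∈ v, q e = 0 ∧ ∑ e ∈ v, ω e < β * ℓ} = ∅ := by
      ext v; simp [hβ]
    rw [this]; simp
  have hE : Fintype.card E ≤ 10 := by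
    have h1 : (Set.univ : Set E).encard ≤ V.encard :=
      Set.encard_le_encard_of_injOn (f := q) (fun e _ => hq e) (hinj.injOn)
    rw [Set.encard_univ, ENat.card_eq_coe_fintype_card] at h1
    exact_mod_cast le_trans h1 hV
  refine le_trans (Set.encard_le_encard (Set.subset_univ _)) ?_
  rw [Set.encard_univ, ENat.card_eq_coe_fintype_card, Fintype.card_finset]
  have h2 : 2 ^ Fintype.card E ≤ (Fintype.card E + 2) ^ 6 := by
    interval_cases (Fintype.card E) <;> norm_num
  have h3 : 2 ^ Fintype.card E ≤ (Fintype.card E + 2) ^ (6 * β) :=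
    le_trans h2 (Nat.pow_le_pow_right (by omega) (by omega))
  exact_mod_cast h3

theorem cographic_BBinj {α : Type u} {Vt : Type v} (q0 : α → Q) (E0 : Set α) (f g : α → Vt)
    (hcyc : ∀ X : Finset α, ↑X ⊆ E0 → (∑ e ∈ X, q0 e = 0 ↔
      ∃ φ : Vt → Bool, ∀ e ∈ E0, (e ∈ X ↔ φ (f e) ≠ φ (g e)))) : BBinj (q0 '' E0) := by
  classical
  intro E _ q hinj hq ω ℓ hg β
  rcases Nat.eq_zero_or_pos β with hβ | hβ
  · have : {v : Finset E | ∑ e ∈ v, q e = 0 ∧ ∑ e ∈ v, ω e < β * ℓ} = ∅ := by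
      ext v; simp [hβ]
    rw [this]; simp
  rcases Nat.eq_zero_or_pos ℓ with hℓ | hℓ
  · have : {v : Finset E | ∑ e ∈ v, q e = 0 ∧ ∑ e ∈ v, ω e < β * ℓ} = ∅ := by
      ext v; simp [hℓ]
    rw [this]; simp
  choose σ hσ hσq using hq
  have hσinj : Function.Injective σ := fun i j h => hinj (by rw [← hσq, ← hσq, h])
  let Φ : (Vt → Bool) → Prop := fun φ => ∀ e ∈ E0, (∀ i, σ i ≠ e) → φ (f e) = φ (g e)
  let r : Setoid Vt :=
    { r := fun x y => ∀ φ, Φ φ → φ x = φ y
      iseqv := ⟨fun x φ _ => rfl, fun h φ hφ => (h φ hφ).symm,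
        fun h h' φ hφ => (h φ hφ).trans (h' φ hφ)⟩ }
  let cl : Vt → Quotient r := fun x => Quotient.mk r x
  let W := {w : Quotient r // ∃ i : E, w = cl (f (σ i)) ∨ w = cl (g (σ i))}
  let sur : E × Bool → W := fun p =>
    if p.2 then ⟨cl (f (σ p.1)), p.1, Or.inl rfl⟩ else ⟨cl (g (σ p.1)), p.1, Or.inr rfl⟩
  have hsur : Function.Surjective sur := by
    rintro ⟨w, i, rfl | rfl⟩
    · exact ⟨(i, true), rfl⟩
    · exact ⟨(i, false), rfl⟩
  have hfinW : Finite W := Finite.of_surjective sur hsur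
  let _ : Fintype W := Fintype.ofFinite W
  have hWc : Fintype.card W ≤ 2 * Fintype.card E := by
    refine le_trans (Fintype.card_le_of_surjective sur hsur) ?_
    rw [Fintype.card_prod, Fintype.card_bool, Nat.mul_comm]
  let f' : E → W := fun i => ⟨cl (f (σ i)), i, Or.inl rfl⟩
  let g' : E → W := fun i => ⟨cl (g (σ i)), i, Or.inr rfl⟩
  have hiff : ∀ v : Finset E, (∑ e ∈ v, q e = 0 ↔ ∃ ψ, v = cut f' g' ψ) := by
    intro v
    have h1 : ∑ e ∈ v, q e = ∑ e ∈ v.image σ, q0 e := by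
      rw [Finset.sum_image (fun i _ j _ h => hσinj h)]
      exact Finset.sum_congr rfl fun i _ => (hσq i).symm
    rw [h1, hcyc (v.image σ) (by
      intro e he
      obtain ⟨i, _, rfl⟩ := Finset.mem_image.mp he
      exact hσ i)]
    have hmem : ∀ i, (σ i ∈ v.image σ ↔ i ∈ v) := fun i =>
      ⟨fun h => by
        obtain ⟨j, hj, hji⟩ := Finset.mem_image.mp h
        rw [← hσinj hji]; exact hj, fun h => Finset.mem_image_of_mem _ h⟩
    constructor
    · rintro ⟨φ, hφ⟩
      have hΦ : Φ φ := by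
        intro e he hne
        by_contra hcon
        have := (hφ e he).mpr hcon
        obtain ⟨i, _, hi⟩ := Finset.mem_image.mp this
        exact hne i hi
      refine ⟨fun w => Quotient.lift φ (fun x y h => (show ∀ φ, Φ φ → φ x = φ y from h) φ hΦ) w.1, ?_⟩
      ext i
      rw [mem_cut, ← hmem i, hφ (σ i) (hσ i)]
      rfl
    · rintro ⟨ψ, hψ⟩
      let φ : Vt → Bool := fun x =>
        if h : ∃ i : E, cl x = cl (f (σ i)) ∨ cl x = cl (g (σ i)) then ψ ⟨cl x, h⟩ else false
      refine ⟨φ, fun e he => ?_⟩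
      by_cases hr : ∃ i, σ i = e
      · obtain ⟨i, rfl⟩ := hr
        have e1 : φ (f (σ i)) = ψ (f' i) := dif_pos (c := ∃ j : E, cl (f (σ i)) = cl (f (σ j)) ∨
          cl (f (σ i)) = cl (g (σ j))) ⟨i, Or.inl rfl⟩
        have e2 : φ (g (σ i)) = ψ (g' i) := dif_pos (c := ∃ j : E, cl (g (σ i)) = cl (f (σ j)) ∨
          cl (g (σ i)) = cl (g (σ j))) ⟨i, Or.inr rfl⟩
        rw [hmem i, e1, e2, hψ, mem_cut]
      · push Not at hr
        have h3 : e ∉ v.image σ := by
          intro h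
          obtain ⟨i, _, hi⟩ := Finset.mem_image.mp h
          exact hr i hi
        have h4 : cl (f e) = cl (g e) := Quotient.sound (fun φ' hφ' => hφ' e he hr)
        have h5 : φ (f e) = φ (g e) := by
          change (if h : ∃ i : E, cl (f e) = cl (f (σ i)) ∨ cl (f e) = cl (g (σ i)) then ψ ⟨cl (f e), h⟩
            else false) = (if h : ∃ i : E, cl (g e) = cl (f (σ i)) ∨ cl (g e) = cl (g (σ i)) then
              ψ ⟨cl (g e), h⟩ else false)
          simp only [h4]
        exact ⟨fun h => absurd h h3, fun h => absurd h5 h⟩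
  have hset : {v : Finset E | ∑ e ∈ v, q e = 0 ∧ ∑ e ∈ v, ω e < β * ℓ} =
      ↑(lcuts f' g' ω (β * ℓ)) := by
    ext v
    rw [Finset.mem_coe, mem_lcuts, ← hiff]
    rfl
  rw [hset, Set.encard_coe_eq_coe_finsetCard]
  have hk := karger ω hℓ hβ (Fintype.card W) W f' g' rfl (by
    intro ψ hψ
    exact hg _ hψ ((hiff _).mpr ⟨ψ, rfl⟩))
  set m := Fintype.card E with hm
  set n := Fintype.card W with hn
  have hfin : 4 ^ β * (max n (2 * β)).choose (2 * β) ≤ (m + 2) ^ (6 * β) := by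
    have h4 : 4 ^ β ≤ (m + 2) ^ (2 * β) := by
      calc 4 ^ β = (2 : ℕ) ^ (2 * β) := by rw [pow_mul]; norm_num
        _ ≤ (m + 2) ^ (2 * β) := Nat.pow_le_pow_left (by omega) _
    rcases Nat.le_total n (2 * β) with h | h
    · rw [Nat.max_eq_right h, Nat.choose_self, mul_one]
      exact le_trans h4 (Nat.pow_le_pow_right (by omega) (by omega))
    · rw [Nat.max_eq_left h]
      have h5 : n.choose (2 * β) ≤ (m + 2) ^ (4 * β) := by
        calc n.choose (2 * β) ≤ n ^ (2 * β) := Nat.choose_le_pow _ _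
          _ ≤ ((m + 2) ^ 2) ^ (2 * β) := by
            refine Nat.pow_le_pow_left ?_ _
            nlinarith
          _ = (m + 2) ^ (4 * β) := by rw [← pow_mul]; congr 1; ring
      calc 4 ^ β * n.choose (2 * β) ≤ (m + 2) ^ (2 * β) * (m + 2) ^ (4 * β) := Nat.mul_le_mul h4 h5
        _ = (m + 2) ^ (6 * β) := by rw [← pow_add]; congr 1; ring
  exact_mod_cast le_trans hk hfin

end H63Mat
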