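import Mathlib
import Pool.Agent.H63.MatH

set_option autoImplicit false
set_option linter.unusedSectionVars false

namespace H63Mat

universe u v

open Finset

variable {α : Type u}

/-- a disjoint union of circuits -/
def IsCycle (M : Matroid α) (X : Set α) : Prop :=
  ∃ S : Set (Set α), S.PairwiseDisjoint id ∧ (∀ C ∈ S, M.IsCircuit C) ∧ ⋃₀ S = X

lemma IsCycle.subset {M : Matroid α} {X : Set α} (h : IsCycle M X) : X ⊆ M.E := by
  obtain ⟨S, _, h2, rfl⟩ := h
  exact Set.sUnion_subset fun C hC => (h2 C hC).subset_ground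

/-- `q` describes the cycles of `M` -/
def Rep {Q : Type u} [AddCommGroup Q] (q : α → Q) (M : Matroid α) : Prop :=
  ∀ X : Finset α, ↑X ⊆ M.E → (IsCycle M ↑X ↔ ∑ e ∈ X, q e = 0)

theorem rep_of_dep {Q : Type u} [AddCommGroup Q] (q : α → Q)
    (M : Matroid α) (hfin : M.E.Finite)
    (hdep : ∀ X : Finset α, ↑X ⊆ M.E → (M.Dep ↑X ↔ ∃ Y ⊆ X, Y.Nonempty ∧ ∑ e ∈ Y, q e = 0)) :
    Rep q M := by
  classical
  have hcirc : ∀ C : Finset α, M.IsCircuit ↑C → ∑ e ∈ C, q e = 0 := by
    intro C hC
    obtain ⟨Y, hYC, hYne, hY0⟩ := (hdep C hC.subset_ground).mp hC.dep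
    have hYdep : M.Dep ↑Y := (hdep Y (fun x hx => hC.subset_ground (hYC hx))).mpr ⟨Y, subset_rfl, hYne, hY0⟩
    have : (↑Y : Set α) = ↑C := hC.eq_of_dep_subset hYdep (by exact_mod_cast hYC)
    rw [← Finset.coe_injective this]
    exact hY0
  intro X hX
  constructor
  · rintro ⟨S, hdis, hS, hSX⟩
    have hSfin : S.Finite := by
      refine Set.Finite.subset (X.finite_toSet.finite_subsets) fun C hC => ?_
      rw [← hSX]
      exact Set.subset_sUnion_of_mem hC
    have hCfin : ∀ C ∈ S, C.Finite := fun C hC =>
      hfin.subset (hS C hC).subset_ground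
    let T : Finset (Set α) := hSfin.toFinset
    let F : Set α → Finset α := fun C => if h : C.Finite then h.toFinset else ∅
    have hF : ∀ C ∈ S, (F C : Set α) = C := by
      intro C hC
      change ((if h : C.Finite then h.toFinset else ∅ : Finset α) : Set α) = C
      rw [dif_pos (hCfin C hC)]
      simp
    have hXeq : X = T.biUnion F := by
      ext x
      rw [Finset.mem_biUnion, ← Finset.mem_coe, ← hSX]
      constructor
      · rintro ⟨C, hC, hx⟩
        refine ⟨C, by simpa [T] using hC, ?_⟩
        rw [← Finset.mem_coe, hF C hC]; exact hx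
      · rintro ⟨C, hC, hx⟩
        have hC' : C ∈ S := by simpa [T] using hC
        refine ⟨C, hC', ?_⟩
        rw [← Finset.mem_coe, hF C hC'] at hx; exact hx
    rw [hXeq, Finset.sum_biUnion]
    · refine Finset.sum_eq_zero fun C hC => ?_
      have hC' : C ∈ S := by simpa [T] using hC
      apply hcirc
      rw [hF C hC']
      exact hS C hC'
    · intro C hC D hD hne
      have hC' : C ∈ S := by simpa [T] using hC
      have hD' : D ∈ S := by simpa [T] using hD
      have h3 := hdis hC' hD' hne
      change Disjoint (F C) (F D)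
      rw [← Finset.disjoint_coe, hF C hC', hF D hD']
      exact h3
  · -- conversely
    have key : ∀ n : ℕ, ∀ X : Finset α, X.card = n → ↑X ⊆ M.E → ∑ e ∈ X, q e = 0 → IsCycle M ↑X := by
      intro n
      induction n using Nat.strong_induction_on with
      | _ n ih =>
        intro X hXn hXE hX0
        rcases X.eq_empty_or_nonempty with rfl | hne
        · exact ⟨∅, by simp, by simp, by simp⟩
        have hd : M.Dep ↑X := (hdep X hXE).mpr ⟨X, subset_rfl, hne, hX0⟩
        obtain ⟨C, hCX, hC⟩ := hd.exists_isCircuit_subset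
        have hCf : C.Finite := X.finite_toSet.subset hCX
        obtain ⟨C', rfl⟩ := hCf.exists_finset_coe
        have hC0 := hcirc C' hC
        have hCX' : C' ⊆ X := by exact_mod_cast hCX
        have hC'ne : C'.Nonempty := by exact_mod_cast hC.nonempty
        have hsd : ∑ e ∈ X \ C', q e = 0 := by
          have := Finset.sum_sdiff (f := q) hCX'
          rw [hC0, add_zero] at this
          rw [this, hX0]
        have hcard : (X \ C').card < n := by
          rw [← hXn, Finset.card_sdiff_of_subset hCX']
          have := Finset.card_pos.mpr hC'ne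
          have := Finset.card_le_card hCX'
          omega
        obtain ⟨S, h3, h4, h5⟩ := ih _ hcard (X \ C') rfl
          (fun x hx => hXE (Finset.sdiff_subset hx)) hsd
        refine ⟨insert ↑C' S, ?_, ?_, ?_⟩
        · rw [Set.pairwiseDisjoint_insert]
          refine ⟨h3, fun D hD _ => ?_⟩
          have hDsub : D ⊆ ↑(X \ C') := by
            rw [← h5]; exact Set.subset_sUnion_of_mem hD
          refine Set.disjoint_left.mpr fun x hx hxD => ?_
          have := hDsub hxD
          rw [Finset.mem_coe, Finset.mem_sdiff] at this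
          exact this.2 hx
        · intro D hD
          rcases hD with rfl | hD
          · exact hC
          · exact h4 D hD
        · rw [Set.sUnion_insert, h5]
          rw [← Finset.coe_union, Finset.union_sdiff_of_subset hCX']
    exact key _ X rfl hX

/-- the vectors `q e` over `GF(2)` represent `M` -/
def Represents {A : Type v} [AddCommGroup A] [Module (ZMod 2) A] (q : α → A) (M : Matroid α) :
    Prop :=
  ∀ I ⊆ M.E, (M.Indep I ↔ LinearIndepOn (ZMod 2) q I)

lemma zmod2_cases (x : ZMod 2) : x = 0 ∨ x = 1 := by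
  revert x; decide

lemma dep_iff_of_represents {A : Type v} [AddCommGroup A] [Module (ZMod 2) A] {q : α → A}
    {M : Matroid α}
    (h : Represents q M) (X : Finset α) (hX : ↑X ⊆ M.E) :
    M.Dep ↑X ↔ ∃ Y ⊆ X, Y.Nonempty ∧ ∑ e ∈ Y, q e = 0 := by
  classical
  rw [← M.not_indep_iff hX, h _ hX, not_linearIndepOn_finset_iff]
  constructor
  · rintro ⟨f, hf, i, hi, hfi⟩
    refine ⟨X.filter fun e => f e ≠ 0, Finset.filter_subset _ _, ⟨i, by simp [hi, hfi]⟩, ?_⟩
    rw [← hf, Finset.sum_filter]
    refine Finset.sum_congr rfl fun e _ => ?_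
    rcases zmod2_cases (f e) with h1 | h1 <;> simp [h1]
  · rintro ⟨Y, hYX, ⟨i, hi⟩, hY⟩
    refine ⟨fun e => if e ∈ Y then 1 else 0, ?_, i, hYX hi, by simp [hi]⟩
    rw [← hY]
    simp only [ite_smul, one_smul, zero_smul]
    rw [← Finset.sum_filter]
    congr 1
    ext e
    simp only [Finset.mem_filter]
    exact ⟨fun h => h.2, fun h => ⟨hYX h, h⟩⟩

lemma closure_iff {A : Type v} [AddCommGroup A] [Module (ZMod 2) A] {q : α → A} {N : Matroid α}
    (h : Represents q N) {Y : Set α} (hY : Y ⊆ N.E) {e : α} (he : e ∈ N.E) :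
    e ∈ N.closure Y ↔ q e ∈ Submodule.span (ZMod 2) (q '' Y) := by
  obtain ⟨I, hI⟩ := N.exists_isBasis Y hY
  have hIE : I ⊆ N.E := hI.indep.subset_ground
  have hlin : LinearIndepOn (ZMod 2) q I := (h I hIE).mp hI.indep
  have key : ∀ x ∈ N.E, x ∈ N.closure I → q x ∈ Submodule.span (ZMod 2) (q '' I) := by
    intro x hx hxc
    by_cases hxI : x ∈ I
    · exact Submodule.subset_span ⟨x, hxI, rfl⟩
    · have hd := (hI.indep.mem_closure_iff.mp hxc).resolve_right hxI
      have hni : ¬ LinearIndepOn (ZMod 2) q (insert x I) := fun hl =>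
        hd.not_indep ((h _ (Set.insert_subset hx hIE)).mpr hl)
      rw [linearIndepOn_insert hxI] at hni
      by_contra hcon
      exact hni ⟨hlin, hcon⟩
  have hspan : Submodule.span (ZMod 2) (q '' Y) ≤ Submodule.span (ZMod 2) (q '' I) := by
    rw [Submodule.span_le]
    rintro _ ⟨y, hy, rfl⟩
    exact key y (hY hy) (hI.subset_closure hy)
  rw [← hI.closure_eq_closure]
  constructor
  · intro hc
    exact Submodule.span_mono (Set.image_mono hI.subset) (key e he hc)
  · intro hq
    have hq' := hspan hq
    by_cases heI : e ∈ I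
    · exact N.mem_closure_of_mem heI hIE
    · rw [hI.indep.mem_closure_iff]
      left
      rw [← N.not_indep_iff (Set.insert_subset he hIE), h _ (Set.insert_subset he hIE),
        linearIndepOn_insert heI]
      exact fun h' => h'.2 hq'

end H63Mat
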