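import Mathlib
import Pool.Agent.H63.MatI

set_option autoImplicit false
set_option linter.unusedSectionVars false

namespace H63Mat

universe u v

open Finset

variable {α : Type u}

/-- `M` has a good description with complexity `k` -/
def Repd (M : Matroid α) (k : ℕ) : Prop :=
  ∃ (Q : Type u) (_ : AddCommGroup Q) (q : α → Q) (V : Set Q), (∀ x : Q, x + x = 0) ∧
    M.E.Finite ∧ (∀ e ∈ M.E, q e ∈ V) ∧ Bd V (4 * k - 2) ∧ Rep q M

/-- the incidence vector of the edge `e` with ends `f e` and `g e` -/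
noncomputable def incidence {V : Type u} (f g : α → V) (e : α) : V →₀ ZMod 2 :=
  Finsupp.single (f e) 1 + Finsupp.single (g e) 1

lemma rep_comp {Q Q' : Type u} [AddCommGroup Q] [AddCommGroup Q'] {q : α → Q} {M : Matroid α}
    (h : Rep q M) (i : Q →+ Q') (hi : Function.Injective i) : Rep (fun e => i (q e)) M := by
  intro X hX
  rw [h X hX, ← map_sum, map_eq_zero_iff i hi]

theorem repd_graphic {M : Matroid α} (hfin : M.E.Finite) {V : Type u} (f g : α → V)
    (h : Represents (incidence f g) M) : Repd M 1 := by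
  classical
  refine ⟨V → ZMod 2, inferInstance, fun e => Finsupp.coeFnAddHom (incidence f g e), VG V, h2_pi,
    hfin, fun e _ => ⟨f e, g e, ?_⟩, leaf h2_pi (graphic_BB V), ?_⟩
  · funext v
    simp [incidence, Finsupp.single_apply, Pi.single_apply, eq_comm]
  · exact rep_comp (rep_of_dep (incidence f g) M hfin fun X hX => dep_iff_of_represents h X hX)
      Finsupp.coeFnAddHom (fun x y hxy => DFunLike.coe_injective hxy)

theorem repd_small {A : Type v} [AddCommGroup A] [Module (ZMod 2) A] {M : Matroid α}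
    (hfin : M.E.Finite) (hc : M.E.encard ≤ 10) {q : α → A} (h : Represents q M) : Repd M 1 := by
  classical
  -- use the canonical quotient to stay in the right universe
  let K : AddSubgroup (α →₀ ZMod 2) := (Finsupp.linearCombination (ZMod 2) q).ker.toAddSubgroup
  let Q := (α →₀ ZMod 2) ⧸ K
  let q' : α → Q := fun e => QuotientAddGroup.mk' K (Finsupp.single e 1)
  have h2 : ∀ x : Q, x + x = 0 := by
    intro x
    obtain ⟨y, rfl⟩ := QuotientAddGroup.mk'_surjective K x
    rw [← map_add]
    have : y + y = 0 := by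
      ext e
      exact CharTwo.add_self_eq_zero (y e)
    rw [this, map_zero]
  have hsum : ∀ X : Finset α, (∑ e ∈ X, q' e = 0 ↔ ∑ e ∈ X, q e = 0) := by
    intro X
    have h1 : ∑ e ∈ X, q' e = QuotientAddGroup.mk' K (∑ e ∈ X, Finsupp.single e 1) := by
      rw [map_sum]
    rw [h1]
    have h3 : QuotientAddGroup.mk' K (∑ e ∈ X, Finsupp.single e 1) = 0 ↔
        (∑ e ∈ X, Finsupp.single e (1 : ZMod 2)) ∈ K := by
      rw [QuotientAddGroup.mk'_apply, QuotientAddGroup.eq_zero_iff]
    rw [h3]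
    change Finsupp.linearCombination (ZMod 2) q _ = 0 ↔ _
    rw [map_sum]
    simp
  refine ⟨Q, inferInstance, q', q' '' M.E, h2, hfin, fun e he => ⟨e, he, rfl⟩,
    leaf h2 (heavy_light h2 (small_BBinj ?_)), ?_⟩
  · exact le_trans (Set.encard_image_le _ _) hc
  · intro X hX
    rw [hsum]
    have := rep_of_dep (Q := Q) q' M hfin (fun X hX => by
      rw [dep_iff_of_represents h X hX]
      simp only [hsum]) X hX
    rw [this, hsum]

lemma bool_zmod (a b : ZMod 2) : (decide (a = 1) ≠ decide (b = 1)) ↔ a + b = 1 := by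
  revert a b; decide

lemma zmod_bool (x y : Bool) : ((if x = true then (1 : ZMod 2) else 0) +
    (if y = true then 1 else 0)) = (if x ≠ y then 1 else 0) := by
  cases x <;> cases y <;> decide

open Classical in
lemma dep_dual {M : Matroid α} (hfin : M.E.Finite) {V : Type u} (f g : α → V)
    (h : Represents (incidence f g) M✶) (X : Finset α) (hX : ↑X ⊆ M.E) :
    M.Dep ↑X ↔ ∃ Y ⊆ X, Y.Nonempty ∧ ∃ φ : V → ZMod 2, ∀ e ∈ M.E,
      φ (f e) + φ (g e) = if e ∈ Y then 1 else 0 := by
  classical
  have hE : M✶.E = M.E := rfl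
  have hX' : (X : Set α) ⊆ M✶.E := hX
  have h1 : M.Dep ↑X ↔ ¬ M✶.Spanning (M✶.E \ ↑X) := by
    rw [← M.not_indep_iff hX, ← Matroid.coindep_iff_compl_spanning hX', Matroid.coindep_def,
      Matroid.dual_dual]
  have hYE : M✶.E \ ↑X ⊆ M✶.E := Set.sdiff_subset
  rw [h1]
  constructor
  · intro hns
    rw [Matroid.spanning_iff_ground_subset_closure hYE] at hns
    obtain ⟨e, he, hec⟩ := Set.not_subset.mp hns
    rw [closure_iff h hYE he] at hec
    obtain ⟨φ, hφe, hφ⟩ := Submodule.exists_le_ker_of_notMem hec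
    refine ⟨hfin.toFinset.filter fun x => φ (incidence f g x) ≠ 0, ?_, ⟨e, ?_⟩,
      fun v => φ (Finsupp.single v 1), ?_⟩
    · intro x hx
      rw [Finset.mem_filter, Set.Finite.mem_toFinset] at hx
      by_contra hcon
      have : incidence f g x ∈ Submodule.span (ZMod 2) (incidence f g '' (M✶.E \ ↑X)) :=
        Submodule.subset_span ⟨x, ⟨hx.1, by simpa using hcon⟩, rfl⟩
      exact hx.2 (hφ this)
    · rw [Finset.mem_filter, Set.Finite.mem_toFinset]
      exact ⟨he, hφe⟩
    · intro x hx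
      rw [← map_add]
      change φ (incidence f g x) = _
      by_cases h3 : φ (incidence f g x) = 0
      · rw [h3, if_neg]
        rw [Finset.mem_filter]
        exact fun h4 => h4.2 h3
      · rw [if_pos]
        · exact (zmod2_cases _).resolve_left h3
        · rw [Finset.mem_filter, Set.Finite.mem_toFinset]
          exact ⟨hx, h3⟩
  · rintro ⟨Y, hYX, ⟨e, heY⟩, φ, hφ⟩ hsp
    have heE : e ∈ M✶.E := hX (hYX heY)
    have hec : e ∈ M✶.closure (M✶.E \ ↑X) := by
      rw [hsp.closure_eq]; exact heE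
    rw [closure_iff h hYE heE] at hec
    let φ' : (V →₀ ZMod 2) →ₗ[ZMod 2] ZMod 2 := Finsupp.linearCombination (ZMod 2) φ
    have hφ' : ∀ x, φ' (incidence f g x) = φ (f x) + φ (g x) := by
      intro x
      simp [φ', incidence]
    have hle : Submodule.span (ZMod 2) (incidence f g '' (M✶.E \ ↑X)) ≤ LinearMap.ker φ' := by
      rw [Submodule.span_le]
      rintro _ ⟨x, hx, rfl⟩
      change φ' _ = 0
      rw [hφ', hφ x hx.1, if_neg]
      intro hxY
      exact hx.2 (hYX hxY)
    have : φ' (incidence f g e) = 0 := hle hec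
    rw [hφ', hφ e heE, if_pos heY] at this
    exact one_ne_zero this

theorem repd_cographic {M : Matroid α} (hfin : M.E.Finite) {V : Type u} (f g : α → V)
    (h : Represents (incidence f g) M✶) : Repd M 1 := by
  classical
  let K : AddSubgroup (α →₀ ZMod 2) :=
    { carrier := {x | (∀ e, e ∉ M.E → x e = 0) ∧ ∃ φ : V → ZMod 2, ∀ e ∈ M.E, φ (f e) + φ (g e) = x e}
      zero_mem' := ⟨fun _ _ => rfl, fun _ => 0, fun _ _ => by simp⟩
      add_mem' := by
        rintro x y ⟨hx, φ, hφ⟩ ⟨hy, ψ, hψ⟩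
        refine ⟨fun e he => by simp [hx e he, hy e he], fun v => φ v + ψ v, fun e he => ?_⟩
        rw [Finsupp.add_apply, ← hφ e he, ← hψ e he]
        ring
      neg_mem' := by
        rintro x ⟨hx, φ, hφ⟩
        refine ⟨fun e he => by simp [hx e he], fun v => - φ v, fun e he => ?_⟩
        rw [Finsupp.neg_apply, ← hφ e he]
        ring }
  let Q := (α →₀ ZMod 2) ⧸ K
  let q' : α → Q := fun e => QuotientAddGroup.mk' K (Finsupp.single e 1)
  have h2 : ∀ x : Q, x + x = 0 := by
    intro x
    obtain ⟨y, rfl⟩ := QuotientAddGroup.mk'_surjective K x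
    rw [← map_add]
    have : y + y = 0 := by
      ext e
      exact CharTwo.add_self_eq_zero (y e)
    rw [this, map_zero]
  have hind : ∀ (X : Finset α) (e : α), (∑ x ∈ X, Finsupp.single x (1 : ZMod 2)) e =
      if e ∈ X then 1 else 0 := by
    intro X e
    rw [Finsupp.finsetSum_apply]
    simp [Finsupp.single_apply]
  have hsum : ∀ X : Finset α, ↑X ⊆ M.E → (∑ e ∈ X, q' e = 0 ↔
      ∃ φ : V → ZMod 2, ∀ e ∈ M.E, φ (f e) + φ (g e) = if e ∈ X then 1 else 0) := by
    intro X hX
    have h1 : ∑ e ∈ X, q' e = QuotientAddGroup.mk' K (∑ e ∈ X, Finsupp.single e 1) := by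
      rw [map_sum]
    rw [h1, QuotientAddGroup.mk'_apply, QuotientAddGroup.eq_zero_iff]
    constructor
    · rintro ⟨_, φ, hφ⟩
      refine ⟨φ, fun e he => ?_⟩
      rw [hφ e he, hind]
    · rintro ⟨φ, hφ⟩
      refine ⟨fun e he => ?_, φ, fun e he => ?_⟩
      · rw [hind, if_neg]
        exact fun h' => he (hX h')
      · rw [hφ e he, hind]
  refine ⟨Q, inferInstance, q', q' '' M.E, h2, hfin, fun e he => ⟨e, he, rfl⟩,
    leaf h2 (heavy_light h2 (cographic_BBinj q' M.E f g ?_)), ?_⟩
  · intro X hX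
    rw [hsum X hX]
    constructor
    · rintro ⟨φ, hφ⟩
      refine ⟨fun v => decide (φ v = 1), fun e he => ?_⟩
      have := hφ e he
      rw [bool_zmod, this]
      by_cases heX : e ∈ X <;> simp [heX]
    · rintro ⟨φ, hφ⟩
      refine ⟨fun v => if φ v = true then 1 else 0, fun e he => ?_⟩
      have := hφ e he
      rw [zmod_bool]
      by_cases heX : e ∈ X
      · rw [if_pos heX, if_pos (this.mp heX)]
      · rw [if_neg heX, if_neg (fun h6 => heX (this.mpr h6))]
  · refine rep_of_dep q' M hfin fun X hX => ?_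
    rw [dep_dual hfin f g h X hX]
    constructor
    · rintro ⟨Y, hYX, hne, hY⟩
      exact ⟨Y, hYX, hne, (hsum Y (fun x hx => hX (hYX hx))).mpr hY⟩
    · rintro ⟨Y, hYX, hne, hY⟩
      exact ⟨Y, hYX, hne, (hsum Y (fun x hx => hX (hYX hx))).mp hY⟩

end H63Mat
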