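import Mathlib
import Pool.Agent.H63.MatJ

set_option autoImplicit false
set_option linter.unusedSectionVars false

namespace H63Mat

universe u v

open Finset

/-- transport along an injective homomorphism -/
theorem Bd_map {Q Q' : Type u} [AddCommGroup Q] [AddCommGroup Q'] (i : Q →+ Q')
    (hi : Function.Injective i) {V : Set Q} {s : ℕ} (h : Bd V s) : Bd (i '' V) s := by
  classical
  intro J _ S ℓ hS l
  have hmem : ∀ j, ∀ x ∈ S.U j, ∃ y, i y = x := by
    intro j x hx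
    by_cases h0 : x = 0
    · exact ⟨0, by rw [map_zero, h0]⟩
    · obtain ⟨y, _, hy⟩ := S.sub j x hx h0
      exact ⟨y, hy⟩
  let S' : Sys V J :=
    { U := fun j => (S.U j).comap i
      κ := fun j x => S.κ j (i x)
      d := fun j x => S.d j (i x)
      card_le := fun j => by
        refine le_trans ?_ (S.card_le j)
        refine Set.encard_le_encard_of_injOn (f := i) (fun x hx => hx) (hi.injOn)
      sub := fun j x hx hx0 => by
        obtain ⟨y, hy, hyx⟩ := S.sub j (i x) hx (fun h0 => hx0 ((map_eq_zero_iff i hi).mp h0))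
        rw [← hi hyx]; exact hy
      κU := fun j x hx => S.κU j _ hx
      dU := fun j x hx => S.dU j _ hx
      d0 := fun j => by rw [map_zero]; exact S.d0 j
      dadd := fun j x y => by rw [map_add]; exact S.dadd j _ _
      dκ := fun j x y => by rw [map_add]; exact S.dκ j _ _ }
  have hS' : Good S' ℓ := by
    intro x hx hc
    have := hS (fun j => i (x j)) (by rw [← map_sum, hx, map_zero]) hc
    funext j
    exact (map_eq_zero_iff i hi).mp (congrFun this j)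
  refine le_trans ?_ (h J S' ℓ hS' l)
  refine Set.encard_le_encard_of_injOn
    (f := fun x j => if h : ∃ y, i y = x j then h.choose else 0) ?_ ?_
  · rintro x ⟨hx1, hx2⟩
    have hx3 := cost_ne_top S (two_mul_ne_top hx2)
    have hix : ∀ j, i ((fun x j => if h : ∃ y, i y = x j then h.choose else 0 : (J → Q') → J → Q) x j) = x j := by
      intro j
      have h1 := hmem j _ (hx3 j)
      simp only [dif_pos h1]
      exact h1.choose_spec
    refine ⟨?_, ?_⟩
    · apply hi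
      rw [map_sum, map_zero, ← hx1]
      exact Finset.sum_congr rfl fun j _ => hix j
    · refine lt_of_le_of_lt (le_of_eq ?_) hx2
      congr 1
      exact Finset.sum_congr rfl fun j _ => by
        change S.κ j (i _) = _
        rw [hix j]
  · rintro x ⟨hx1, hx2⟩ y ⟨hy1, hy2⟩ hxy
    have hx3 := cost_ne_top S (two_mul_ne_top hx2)
    have hy3 := cost_ne_top S (two_mul_ne_top hy2)
    funext j
    have h1 := hmem j _ (hx3 j)
    have h2 := hmem j _ (hy3 j)
    have h3 := congrFun hxy j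
    simp only [dif_pos h1, dif_pos h2] at h3
    rw [← h1.choose_spec, ← h2.choose_spec, h3]

variable {α : Type u}

theorem repd_sum {M M₁ M₂ : Matroid α} {k₁ k₂ : ℕ} (hk₁ : 1 ≤ k₁) (hk₂ : 1 ≤ k₂)
    (h₁ : Repd M₁ k₁) (h₂ : Repd M₂ k₂)
    (hE : M.E = symmDiff M₁.E M₂.E)
    (hcyc : ∀ X, IsCycle M X ↔ X ⊆ M.E ∧ ∃ X₁ X₂, IsCycle M₁ X₁ ∧ IsCycle M₂ X₂ ∧
      symmDiff X₁ X₂ = X)
    (T : Finset α) (hTc : T.card ≤ 3) (hT : ↑T ⊆ M₁.E ∩ M₂.E)
    (hZ : ∀ S : Finset α, ↑S ⊆ M₁.E ∩ M₂.E → (IsCycle M₁ ↑S ↔ IsCycle M₂ ↑S))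
    (hZT : ∀ S : Finset α, ↑S ⊆ M₁.E ∩ M₂.E → (IsCycle M₁ ↑S ∨
      ∃ t ∈ T, IsCycle M₁ (symmDiff (↑S) {t}))) :
    Repd M (k₁ + k₂) := by
  classical
  obtain ⟨Q₁, _, q₁, V₁, c₁, hfin₁, hV₁, hB₁, hr₁⟩ := h₁
  obtain ⟨Q₂, _, q₂, V₂, c₂, hfin₂, hV₂, hB₂, hr₂⟩ := h₂
  have hprod : ∀ p : Q₁ × Q₂, p + p = 0 := fun p => Prod.ext (c₁ p.1) (c₂ p.2)
  -- the subgroup along which we amalgamate
  let N : AddSubgroup (Q₁ × Q₂) :=
    { carrier := {p | ∃ S : Finset α, ↑S ⊆ M₁.E ∩ M₂.E ∧ p = (∑ e ∈ S, q₁ e, ∑ e ∈ S, q₂ e)}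
      zero_mem' := ⟨∅, by simp, by simp only [Finset.sum_empty]; rfl⟩
      add_mem' := by
        rintro _ _ ⟨S, hS, rfl⟩ ⟨S', hS', rfl⟩
        refine ⟨symmDiff S S', ?_, ?_⟩
        · intro x hx
          rw [Finset.mem_coe, Finset.mem_symmDiff] at hx
          rcases hx with hx | hx
          · exact hS hx.1
          · exact hS' hx.1
        · rw [sum_symmDiff' c₁, sum_symmDiff' c₂]
          rfl
      neg_mem' := by
        rintro p ⟨S, hS, rfl⟩
        refine ⟨S, hS, ?_⟩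
        rw [neg_eq_iff_add_eq_zero]
        exact hprod _ }
  have hNmem : ∀ p, p ∈ N ↔ ∃ S : Finset α, ↑S ⊆ M₁.E ∩ M₂.E ∧
      p = (∑ e ∈ S, q₁ e, ∑ e ∈ S, q₂ e) := fun p => Iff.rfl
  let Q := (Q₁ × Q₂) ⧸ N
  let mk : (Q₁ × Q₂) →+ Q := QuotientAddGroup.mk' N
  have hmk0 : ∀ p, mk p = 0 ↔ p ∈ N := fun p => by
    change QuotientAddGroup.mk' N p = 0 ↔ _
    rw [QuotientAddGroup.mk'_apply, QuotientAddGroup.eq_zero_iff]
  let i₁ : Q₁ →+ Q := mk.comp (AddMonoidHom.inl Q₁ Q₂)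
  let i₂ : Q₂ →+ Q := mk.comp (AddMonoidHom.inr Q₁ Q₂)
  have c : ∀ x : Q, x + x = 0 := by
    intro x
    obtain ⟨y, rfl⟩ := QuotientAddGroup.mk'_surjective N x
    rw [← map_add, hprod, map_zero]
  have hZ' : ∀ S : Finset α, ↑S ⊆ M₁.E ∩ M₂.E → (∑ e ∈ S, q₁ e = 0 ↔ ∑ e ∈ S, q₂ e = 0) := by
    intro S hS
    rw [← hr₁ S (fun x hx => (hS hx).1), ← hr₂ S (fun x hx => (hS hx).2)]
    exact hZ S hS
  have hi₁ : Function.Injective i₁ := by
    rw [injective_iff_map_eq_zero]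
    intro x hx
    have := (hmk0 (x, 0)).mp hx
    obtain ⟨S, hS, hp⟩ := (hNmem _).mp this
    have h1 : x = ∑ e ∈ S, q₁ e := congrArg Prod.fst hp
    have h2 : 0 = ∑ e ∈ S, q₂ e := congrArg Prod.snd hp
    rw [h1]
    exact (hZ' S hS).mpr h2.symm
  have hi₂ : Function.Injective i₂ := by
    rw [injective_iff_map_eq_zero]
    intro x hx
    have := (hmk0 (0, x)).mp hx
    obtain ⟨S, hS, hp⟩ := (hNmem _).mp this
    have h1 : 0 = ∑ e ∈ S, q₁ e := congrArg Prod.fst hp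
    have h2 : x = ∑ e ∈ S, q₂ e := congrArg Prod.snd hp
    rw [h2]
    exact (hZ' S hS).mp h1.symm
  have hneg₂ : ∀ x : Q₂, -x = x := fun x => by rw [neg_eq_iff_add_eq_zero]; exact c₂ x
  have hiN : ∀ (x : Q₁) (y : Q₂), i₁ x = i₂ y ↔ (x, y) ∈ N := by
    intro x y
    rw [← sub_eq_zero]
    have : i₁ x - i₂ y = mk (x, y) := by
      change mk (x, 0) - mk (0, y) = mk (x, y)
      rw [← map_sub]
      congr 1
      refine Prod.ext ?_ ?_
      · simp
      · simp [hneg₂]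
    rw [this, hmk0]
  -- the common part
  let UZ : AddSubgroup Q := (N.map (AddMonoidHom.fst Q₁ Q₂)).map i₁
  have hUZ : ∀ x, x ∈ UZ ↔ ∃ S : Finset α, ↑S ⊆ M₁.E ∩ M₂.E ∧ x = i₁ (∑ e ∈ S, q₁ e) := by
    intro x
    constructor
    · rintro ⟨_, ⟨_, ⟨S, hS, rfl⟩, rfl⟩, rfl⟩
      exact ⟨S, hS, rfl⟩
    · rintro ⟨S, hS, rfl⟩
      exact ⟨_, ⟨(∑ e ∈ S, q₁ e, ∑ e ∈ S, q₂ e), ⟨S, hS, rfl⟩, rfl⟩, rfl⟩
  have hUZT : ∀ x ∈ UZ, x = 0 ∨ ∃ t ∈ T, x = i₁ (q₁ t) := by
    intro x hx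
    obtain ⟨S, hS, rfl⟩ := (hUZ x).mp hx
    rcases hZT S hS with h | ⟨t, ht, h⟩
    · left
      rw [(hr₁ S (fun x hx => (hS hx).1)).mp h, map_zero]
    · right
      refine ⟨t, ht, ?_⟩
      have h3 : (symmDiff (↑S) {t} : Set α) = ↑(symmDiff S {t}) := by
        rw [Finset.coe_symmDiff, Finset.coe_singleton]
      rw [h3, hr₁ _ (by
        intro x hx
        rw [Finset.mem_coe, Finset.mem_symmDiff] at hx
        rcases hx with hx | hx
        · exact (hS hx.1).1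
        · rw [Finset.mem_singleton] at hx
          rw [hx.1]; exact (hT ht).1), sum_symmDiff' c₁, Finset.sum_singleton] at h
      congr 1
      calc ∑ e ∈ S, q₁ e = ∑ e ∈ S, q₁ e + (q₁ t + q₁ t) := by rw [c₁, add_zero]
        _ = (∑ e ∈ S, q₁ e + q₁ t) + q₁ t := by abel
        _ = q₁ t := by rw [h, zero_add]
  have hT12 : ∀ t ∈ T, i₁ (q₁ t) = i₂ (q₂ t) := by
    intro t ht
    rw [hiN]
    exact ⟨{t}, by simpa using hT ht, by simp⟩
  have hglue := glue c (V1 := i₁ '' V₁) (V2 := i₂ '' V₂) (Q1 := i₁.range) (Q2 := i₂.range) (UZ := UZ)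
    (by rintro _ ⟨x, _, rfl⟩; exact ⟨x, rfl⟩) (by rintro _ ⟨x, _, rfl⟩; exact ⟨x, rfl⟩)
    (by
      rintro _ ⟨x, rfl⟩ ⟨y, hy⟩
      obtain ⟨S, hS, hp⟩ := (hiN x y).mp hy.symm
      rw [hUZ]
      have h3 : x = ∑ e ∈ S, q₁ e := congrArg Prod.fst hp
      exact ⟨S, hS, by rw [h3]⟩)
    (by
      have hsub : (UZ : Set Q) ⊆ ↑(insert 0 (T.image fun t => i₁ (q₁ t))) := by
        intro x hx
        rw [Finset.coe_insert, Finset.coe_image]
        rcases hUZT x hx with h | ⟨t, ht, h⟩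
        · exact Or.inl h
        · exact Or.inr ⟨t, ht, h.symm⟩
      refine le_trans (Set.encard_le_encard hsub) ?_
      rw [Set.encard_coe_eq_coe_finsetCard]
      have h1 := Finset.card_insert_le 0 (T.image fun t => i₁ (q₁ t))
      have h2 := Finset.card_image_le (s := T) (f := fun t => i₁ (q₁ t))
      exact_mod_cast (by omega : (insert 0 (T.image fun t => i₁ (q₁ t))).card ≤ 4))
    (by
      intro x hx hx0
      obtain ⟨t, ht, rfl⟩ := (hUZT x hx).resolve_left hx0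
      exact ⟨q₁ t, hV₁ t (hT ht).1, rfl⟩)
    (by
      intro x hx hx0
      obtain ⟨t, ht, rfl⟩ := (hUZT x hx).resolve_left hx0
      rw [hT12 t ht]
      exact ⟨q₂ t, hV₂ t (hT ht).2, rfl⟩)
    (Bd_map i₁ hi₁ hB₁) (Bd_map i₂ hi₂ hB₂)
  let q : α → Q := fun e => if e ∈ M₁.E then i₁ (q₁ e) else i₂ (q₂ e)
  have hME : M.E ⊆ M₁.E ∪ M₂.E := by
    rw [hE]
    intro x hx
    rcases hx with hx | hx
    · exact Or.inl hx.1
    · exact Or.inr hx.1
  refine ⟨Q, inferInstance, q, i₁ '' V₁ ∪ i₂ '' V₂, c, (hfin₁.union hfin₂).subset hME, ?_, ?_, ?_⟩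
  · intro e he
    by_cases h1 : e ∈ M₁.E
    · left
      exact ⟨q₁ e, hV₁ e h1, (if_pos h1).symm⟩
    · right
      exact ⟨q₂ e, hV₂ e ((hME he).resolve_left h1), (if_neg h1).symm⟩
  · have : 4 * k₁ - 2 + (4 * k₂ - 2) + 2 = 4 * (k₁ + k₂) - 2 := by omega
    rw [← this]
    exact hglue
  · intro X hX
    have hsplit : ∑ e ∈ X, q e = mk (∑ e ∈ X.filter (· ∈ M₁.E), q₁ e,
        ∑ e ∈ X.filter (· ∉ M₁.E), q₂ e) := by
      rw [← Finset.sum_filter_add_sum_filter_not X (· ∈ M₁.E)]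
      have e1 : ∑ e ∈ X.filter (· ∈ M₁.E), q e = i₁ (∑ e ∈ X.filter (· ∈ M₁.E), q₁ e) := by
        rw [map_sum]
        exact Finset.sum_congr rfl fun e he => if_pos (Finset.mem_filter.mp he).2
      have e2 : ∑ e ∈ X.filter (· ∉ M₁.E), q e = i₂ (∑ e ∈ X.filter (· ∉ M₁.E), q₂ e) := by
        rw [map_sum]
        exact Finset.sum_congr rfl fun e he => if_neg (Finset.mem_filter.mp he).2
      rw [e1, e2]
      change mk (_, 0) + mk (0, _) = _
      rw [← map_add]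
      simp
    rw [hsplit, hmk0, hNmem, hcyc]
    have hX1 : ∀ x ∈ X, x ∈ M₁.E → x ∉ M₂.E := by
      intro x hx h1 h2
      have := hX hx
      rw [hE] at this
      rcases this with h | h
      · exact h.2 h2
      · exact h.2 h1
    constructor
    · rintro ⟨_, X₁, X₂, hX₁, hX₂, hXX⟩
      have hX₁E := hX₁.subset
      have hX₂E := hX₂.subset
      obtain ⟨F₁, rfl⟩ := (hfin₁.subset hX₁E).exists_finset_coe
      obtain ⟨F₂, rfl⟩ := (hfin₂.subset hX₂E).exists_finset_coe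
      have hXF : X = symmDiff F₁ F₂ := by
        apply Finset.coe_injective
        rw [Finset.coe_symmDiff]; exact hXX.symm
      have hs1 := (hr₁ F₁ hX₁E).mp hX₁
      have hs2 := (hr₂ F₂ hX₂E).mp hX₂
      -- common part
      have hcom : ∀ x, x ∈ F₁ → x ∈ M₂.E → x ∈ F₂ := by
        intro x h1 h2
        by_contra h3
        have : x ∈ X := by rw [hXF, Finset.mem_symmDiff]; exact Or.inl ⟨h1, h3⟩
        exact hX1 x this (hX₁E h1) h2
      have hcom' : ∀ x, x ∈ F₂ → x ∈ M₁.E → x ∈ F₁ := by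
        intro x h1 h2
        by_contra h3
        have : x ∈ X := by rw [hXF, Finset.mem_symmDiff]; exact Or.inr ⟨h1, h3⟩
        exact hX1 x this h2 (hX₂E h1)
      refine ⟨F₁.filter (· ∈ M₂.E), ?_, ?_⟩
      · intro x hx
        rw [Finset.mem_coe, Finset.mem_filter] at hx
        exact ⟨hX₁E hx.1, hx.2⟩
      · refine Prod.ext ?_ ?_
        · have e1 : X.filter (· ∈ M₁.E) = symmDiff F₁ (F₁.filter (· ∈ M₂.E)) := by
            ext x
            rw [Finset.mem_filter, hXF, Finset.mem_symmDiff, Finset.mem_symmDiff, Finset.mem_filter]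
            constructor
            · rintro ⟨h | h, hx⟩
              · exact Or.inl ⟨h.1, fun h' => h.2 (hcom x h.1 h'.2)⟩
              · exact absurd (hcom' x h.1 hx) h.2
            · rintro (h | h)
              · refine ⟨Or.inl ⟨h.1, fun h' => h.2 ⟨h.1, hX₂E h'⟩⟩, hX₁E h.1⟩
              · exact absurd h.1.1 h.2
          change ∑ e ∈ X.filter (· ∈ M₁.E), q₁ e = _
          rw [e1, sum_symmDiff' c₁, hs1, zero_add]
        · have e2 : X.filter (· ∉ M₁.E) = symmDiff F₂ (F₁.filter (· ∈ M₂.E)) := by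
            ext x
            rw [Finset.mem_filter, hXF, Finset.mem_symmDiff, Finset.mem_symmDiff, Finset.mem_filter]
            constructor
            · rintro ⟨h | h, hx⟩
              · exact absurd (hX₁E h.1) hx
              · exact Or.inl ⟨h.1, fun h' => h.2 h'.1⟩
            · rintro (h | h)
              · refine ⟨Or.inr ⟨h.1, fun h' => h.2 ⟨h', hX₂E h.1⟩⟩, fun h' => h.2 ⟨hcom' x h.1 h', hX₂E h.1⟩⟩
              · exact absurd (hcom x h.1.1 h.1.2) h.2
          change ∑ e ∈ X.filter (· ∉ M₁.E), q₂ e = _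
          rw [e2, sum_symmDiff' c₂, hs2, zero_add]
    · rintro ⟨S, hS, hp⟩
      have hp1 : ∑ e ∈ X.filter (· ∈ M₁.E), q₁ e = ∑ e ∈ S, q₁ e := congrArg Prod.fst hp
      have hp2 : ∑ e ∈ X.filter (· ∉ M₁.E), q₂ e = ∑ e ∈ S, q₂ e := congrArg Prod.snd hp
      refine ⟨hX, ↑(symmDiff (X.filter (· ∈ M₁.E)) S), ↑(symmDiff (X.filter (· ∉ M₁.E)) S),
        ?_, ?_, ?_⟩
      · rw [hr₁ _ (by
          intro x hx
          rw [Finset.mem_coe, Finset.mem_symmDiff, Finset.mem_filter] at hx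
          rcases hx with hx | hx
          · exact hx.1.2
          · exact (hS hx.1).1), sum_symmDiff' c₁, hp1, c₁]
      · rw [hr₂ _ (by
          intro x hx
          rw [Finset.mem_coe, Finset.mem_symmDiff, Finset.mem_filter] at hx
          rcases hx with hx | hx
          · exact (hME (hX hx.1.1)).resolve_left hx.1.2
          · exact (hS hx.1).2), sum_symmDiff' c₂, hp2, c₂]
      · rw [← Finset.coe_symmDiff]
        congr 1
        have : symmDiff (symmDiff (X.filter (· ∈ M₁.E)) S) (symmDiff (X.filter (· ∉ M₁.E)) S) =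
            symmDiff (X.filter (· ∈ M₁.E)) (X.filter (· ∉ M₁.E)) := by
          rw [symmDiff_symmDiff_symmDiff_comm, symmDiff_self, symmDiff_bot]
        rw [this]
        ext x
        rw [Finset.mem_symmDiff, Finset.mem_filter, Finset.mem_filter]
        by_cases h1 : x ∈ M₁.E <;> simp [h1]

end H63Mat
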