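import Mathlib
import Pool.Agent.H63.MatK

set_option autoImplicit false
set_option linter.unusedSectionVars false

namespace H63Mat

universe u v

open Finset

variable {α : Type u}

lemma isCycle_empty (M : Matroid α) : IsCycle M ∅ := ⟨∅, by simp, by simp, by simp⟩

lemma isCycle_circuit {M : Matroid α} {C : Set α} (h : M.IsCircuit C) : IsCycle M C :=
  ⟨{C}, by simp, by simpa using h, by simp⟩

lemma IsCycle.exists_circuit {M : Matroid α} {X : Set α} (h : IsCycle M X) (hX : X.Nonempty) :
    ∃ C ⊆ X, M.IsCircuit C := by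
  obtain ⟨S, _, h2, rfl⟩ := h
  obtain ⟨x, C, hC, _⟩ := hX
  exact ⟨C, Set.subset_sUnion_of_mem hC, h2 C hC⟩

lemma isCycle_subset_circuit {M : Matroid α} {Z S : Set α} (hZ : M.IsCircuit Z) (hS : S ⊆ Z) :
    IsCycle M S ↔ S = ∅ ∨ S = Z := by
  constructor
  · intro h
    rcases S.eq_empty_or_nonempty with h0 | h0
    · exact Or.inl h0
    · right
      obtain ⟨C, hCS, hC⟩ := h.exists_circuit h0
      have : C = Z := hC.eq_of_subset_isCircuit hZ (hCS.trans hS)
      exact Set.Subset.antisymm hS (this ▸ hCS)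
  · rintro (rfl | rfl)
    · exact isCycle_empty M
    · exact isCycle_circuit hZ

lemma dep_iff_of_rep {Q : Type u} [AddCommGroup Q] {q : α → Q} {M : Matroid α} (h : Rep q M)
    (X : Finset α) (hX : ↑X ⊆ M.E) :
    M.Dep ↑X ↔ ∃ Y ⊆ X, Y.Nonempty ∧ ∑ e ∈ Y, q e = 0 := by
  constructor
  · intro hd
    obtain ⟨C, hCX, hC⟩ := hd.exists_isCircuit_subset
    obtain ⟨C', rfl⟩ := (X.finite_toSet.subset hCX).exists_finset_coe
    exact ⟨C', by exact_mod_cast hCX, by exact_mod_cast hC.nonempty,
      (h C' (hCX.trans hX)).mp (isCycle_circuit hC)⟩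
  · rintro ⟨Y, hYX, hne, hY⟩
    have hYX' : (Y : Set α) ⊆ X := by exact_mod_cast hYX
    obtain ⟨C, hC, hC'⟩ := ((h Y (hYX'.trans hX)).mpr hY).exists_circuit (by exact_mod_cast hne)
    exact hC'.dep.superset (hC.trans hYX') hX

theorem repd_map {β : Type u} {M : Matroid α} {k : ℕ} (h : Repd M k) (f : α → β)
    (hf : Set.InjOn f M.E) : Repd (M.map f hf) k := by
  classical
  obtain ⟨Q, _, q, V, c, hfin, hV, hB, hr⟩ := h
  let q' : β → Q := fun b => if h : ∃ a ∈ M.E, f a = b then q h.choose else 0
  have hq' : ∀ a ∈ M.E, q' (f a) = q a := by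
    intro a ha
    have h1 : ∃ a' ∈ M.E, f a' = f a := ⟨a, ha, rfl⟩
    change (if h : ∃ a' ∈ M.E, f a' = f a then q h.choose else 0) = q a
    rw [dif_pos h1]
    congr 1
    exact hf h1.choose_spec.1 ha h1.choose_spec.2
  have hsum : ∀ Y : Finset α, ↑Y ⊆ M.E → ∑ b ∈ Y.image f, q' b = ∑ a ∈ Y, q a := by
    intro Y hY
    rw [Finset.sum_image (fun a ha b hb hab => hf (hY ha) (hY hb) hab)]
    exact Finset.sum_congr rfl fun a ha => hq' a (hY ha)
  refine ⟨Q, inferInstance, q', V, c, ?_, ?_, hB, ?_⟩
  · rw [Matroid.map_ground]; exact hfin.image f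
  · rw [Matroid.map_ground]
    rintro _ ⟨a, ha, rfl⟩
    rw [hq' a ha]; exact hV a ha
  · refine rep_of_dep q' (M.map f hf) (by rw [Matroid.map_ground]; exact hfin.image f) ?_
    intro X hX
    rw [Matroid.map_ground] at hX
    rw [Matroid.map_dep_iff]
    constructor
    · rintro ⟨D, hD, hDX⟩
      have hDfin : D.Finite := hfin.subset hD.subset_ground
      obtain ⟨D', rfl⟩ := hDfin.exists_finset_coe
      obtain ⟨Y, hYD, hne, hY⟩ := (dep_iff_of_rep hr D' hD.subset_ground).mp hD
      refine ⟨Y.image f, ?_, hne.image f, ?_⟩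
      · intro b hb
        rw [← Finset.mem_coe, hDX]
        obtain ⟨a, ha, rfl⟩ := Finset.mem_image.mp hb
        exact ⟨a, hYD ha, rfl⟩
      · rw [hsum Y (fun x hx => hD.subset_ground (hYD hx)), hY]
    · rintro ⟨Y, hYX, hne, hY⟩
      -- preimages
      let P : Finset β → Finset α := fun Z => hfin.toFinset.filter fun a => f a ∈ Z
      have hP : ∀ Z : Finset β, ↑Z ⊆ f '' M.E → (P Z).image f = Z := by
        intro Z hZ
        ext b
        rw [Finset.mem_image]
        constructor
        · rintro ⟨a, ha, rfl⟩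
          exact (Finset.mem_filter.mp ha).2
        · intro hb
          obtain ⟨a, ha, rfl⟩ := hZ hb
          exact ⟨a, Finset.mem_filter.mpr ⟨hfin.mem_toFinset.mpr ha, hb⟩, rfl⟩
      have hPE : ∀ Z, (↑(P Z) : Set α) ⊆ M.E := fun Z a ha =>
        hfin.mem_toFinset.mp (Finset.mem_filter.mp ha).1
      have hYX' : (Y : Set β) ⊆ f '' M.E := (show (Y : Set β) ⊆ X by exact_mod_cast hYX).trans hX
      refine ⟨↑(P X), ?_, ?_⟩
      · rw [dep_iff_of_rep hr _ (hPE X)]
        refine ⟨P Y, ?_, ?_, ?_⟩
        · intro a ha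
          have := Finset.mem_filter.mp ha
          exact Finset.mem_filter.mpr ⟨this.1, hYX this.2⟩
        · obtain ⟨b, hb⟩ := hne
          obtain ⟨a, ha, rfl⟩ := hYX' hb
          exact ⟨a, Finset.mem_filter.mpr ⟨hfin.mem_toFinset.mpr ha, hb⟩⟩
        · rw [← hsum (P Y) (hPE Y), hP Y hYX', hY]
      · rw [← Finset.coe_image, hP X hX]

/-- bound for the number of leaves -/
def hh (m : ℕ) : ℕ := if 7 ≤ m then 24 * (m - 6) else if 3 ≤ m then 3 * (m - 2) else max 1 m

lemma hh_pos (m : ℕ) : 1 ≤ hh m := by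
  unfold hh; split_ifs <;> omega

lemma hh_one {a b : ℕ} (ha : 1 ≤ a) (hb : 1 ≤ b) : hh a + hh b ≤ hh (a + b) := by
  unfold hh; split_ifs <;> omega

lemma hh_two {a b : ℕ} (ha : 3 ≤ a) (hb : 3 ≤ b) : hh a + hh b ≤ hh (a + b - 2) := by
  unfold hh; split_ifs <;> omega

lemma hh_three {a b : ℕ} (ha : 7 ≤ a) (hb : 7 ≤ b) : hh a + hh b ≤ hh (a + b - 6) := by
  unfold hh; split_ifs <;> omega

lemma hh_le (m : ℕ) (hm : 1 ≤ m) : hh m ≤ 24 * m := by
  unfold hh; split_ifs <;> omega

lemma ncard_symmDiff {A B : Set α} (hA : A.Finite) (hB : B.Finite) :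
    (symmDiff A B).ncard + 2 * (A ∩ B).ncard = A.ncard + B.ncard := by
  have h1 : symmDiff A B = (A \ B) ∪ (B \ A) := rfl
  have h2 : Disjoint (A \ B) (B \ A) := by
    rw [Set.disjoint_left]
    intro x hx hy
    exact hy.2 hx.1
  rw [h1, Set.ncard_union_eq h2 hA.sdiff hB.sdiff]
  have h3 := Set.ncard_inter_add_ncard_sdiff_eq_ncard A B hA
  have h4 := Set.ncard_inter_add_ncard_sdiff_eq_ncard B A hB
  rw [Set.inter_comm B A] at h4
  omega

lemma Repd.finite {M : Matroid α} {k : ℕ} (h : Repd M k) : M.E.Finite := by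
  obtain ⟨_, _, _, _, _, hfin, _⟩ := h
  exact hfin

theorem repd_one {M M₁ M₂ : Matroid α} {k₁ k₂ : ℕ} (hk₁ : 1 ≤ k₁) (hk₂ : 1 ≤ k₂)
    (h₁ : Repd M₁ k₁) (h₂ : Repd M₂ k₂) (hE : M.E = symmDiff M₁.E M₂.E)
    (hcyc : ∀ X, IsCycle M X ↔ X ⊆ M.E ∧ ∃ X₁ X₂, IsCycle M₁ X₁ ∧ IsCycle M₂ X₂ ∧
      symmDiff X₁ X₂ = X) (hd : M₁.E ∩ M₂.E = ∅) : Repd M (k₁ + k₂) := by
  refine repd_sum hk₁ hk₂ h₁ h₂ hE hcyc ∅ (by simp) (by simp) ?_ ?_
  · intro S hS
    rw [hd, Set.subset_empty_iff] at hS
    rw [hS]
    exact ⟨fun _ => isCycle_empty _, fun _ => isCycle_empty _⟩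
  · intro S hS
    rw [hd, Set.subset_empty_iff] at hS
    rw [hS]
    exact Or.inl (isCycle_empty _)

lemma not_isCycle_singleton {M : Matroid α} {z : α} (h : ¬ M.IsLoop z) : ¬ IsCycle M {z} := by
  intro hc
  obtain ⟨C, hC, hC'⟩ := hc.exists_circuit ⟨z, rfl⟩
  have : C = {z} := by
    rcases Set.subset_singleton_iff_eq.mp hC with h1 | h1
    · rw [h1] at hC'
      exact absurd hC'.nonempty (by simp)
    · exact h1
  rw [this, Matroid.singleton_isCircuit] at hC'
  exact h hC'

theorem repd_two {M M₁ M₂ : Matroid α} {k₁ k₂ : ℕ} (hk₁ : 1 ≤ k₁) (hk₂ : 1 ≤ k₂)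
    (h₁ : Repd M₁ k₁) (h₂ : Repd M₂ k₂) (hE : M.E = symmDiff M₁.E M₂.E)
    (hcyc : ∀ X, IsCycle M X ↔ X ⊆ M.E ∧ ∃ X₁ X₂, IsCycle M₁ X₁ ∧ IsCycle M₂ X₂ ∧
      symmDiff X₁ X₂ = X) {z : α} (hz : M₁.E ∩ M₂.E = {z}) (hl₁ : ¬ M₁.IsLoop z)
    (hl₂ : ¬ M₂.IsLoop z) : Repd M (k₁ + k₂) := by
  classical
  have hS2 : ∀ S : Finset α, ↑S ⊆ M₁.E ∩ M₂.E → (S : Set α) = ∅ ∨ (S : Set α) = {z} := by
    intro S hS
    rw [hz] at hS
    exact Set.subset_singleton_iff_eq.mp hS
  refine repd_sum hk₁ hk₂ h₁ h₂ hE hcyc {z} (by simp) (by rw [hz]; simp) ?_ ?_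
  · intro S hS
    rcases hS2 S hS with h | h
    · rw [h]
      exact ⟨fun _ => isCycle_empty _, fun _ => isCycle_empty _⟩
    · rw [h]
      exact ⟨fun h' => absurd h' (not_isCycle_singleton hl₁),
        fun h' => absurd h' (not_isCycle_singleton hl₂)⟩
  · intro S hS
    rcases hS2 S hS with h | h
    · rw [h]; exact Or.inl (isCycle_empty _)
    · right
      refine ⟨z, by simp, ?_⟩
      rw [h, symmDiff_self]
      exact isCycle_empty _

theorem repd_three {M M₁ M₂ : Matroid α} {k₁ k₂ : ℕ} (hk₁ : 1 ≤ k₁) (hk₂ : 1 ≤ k₂)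
    (h₁ : Repd M₁ k₁) (h₂ : Repd M₂ k₂) (hE : M.E = symmDiff M₁.E M₂.E)
    (hcyc : ∀ X, IsCycle M X ↔ X ⊆ M.E ∧ ∃ X₁ X₂, IsCycle M₁ X₁ ∧ IsCycle M₂ X₂ ∧
      symmDiff X₁ X₂ = X) (hZc : (M₁.E ∩ M₂.E).ncard = 3) (hZ₁ : M₁.IsCircuit (M₁.E ∩ M₂.E))
    (hZ₂ : M₂.IsCircuit (M₁.E ∩ M₂.E)) : Repd M (k₁ + k₂) := by
  classical
  have hZfin : (M₁.E ∩ M₂.E).Finite := h₁.finite.inter_of_left _
  obtain ⟨T, hT⟩ := hZfin.exists_finset_coe
  have hTc : T.card = 3 := by
    rw [← hZc, ← hT, Set.ncard_coe_finset]
  refine repd_sum hk₁ hk₂ h₁ h₂ hE hcyc T (by omega) (by rw [hT]) ?_ ?_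
  · intro S hS
    rw [isCycle_subset_circuit hZ₁ hS, isCycle_subset_circuit hZ₂ hS]
  · intro S hS
    have hST : S ⊆ T := by
      rw [← hT] at hS
      exact_mod_cast hS
    have hcard := Finset.card_sdiff_of_subset hST
    by_cases h1 : S.card = 0
    · rw [Finset.card_eq_zero] at h1
      rw [h1, Finset.coe_empty]
      exact Or.inl (isCycle_empty _)
    by_cases h2 : S.card = 1
    · right
      obtain ⟨t, ht⟩ := Finset.card_eq_one.mp h2
      refine ⟨t, hST (by rw [ht]; simp), ?_⟩
      rw [ht, Finset.coe_singleton, symmDiff_self]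
      exact isCycle_empty _
    by_cases h3 : S.card = 2
    · right
      obtain ⟨t, ht⟩ := Finset.card_eq_one.mp (show (T \ S).card = 1 by omega)
      have htT : t ∈ T \ S := by rw [ht]; simp
      refine ⟨t, (Finset.mem_sdiff.mp htT).1, ?_⟩
      have : symmDiff (S : Set α) {t} = M₁.E ∩ M₂.E := by
        rw [← hT, ← Finset.coe_singleton, ← Finset.coe_symmDiff]
        congr 1
        ext x
        have hx := Finset.ext_iff.mp ht x
        rw [Finset.mem_sdiff, Finset.mem_singleton] at hx
        rw [Finset.mem_symmDiff, Finset.mem_singleton]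
        constructor
        · rintro (⟨h4, _⟩ | ⟨h4, _⟩)
          · exact hST h4
          · rw [h4]; exact (Finset.mem_sdiff.mp htT).1
        · intro h4
          by_cases h5 : x ∈ S
          · left
            refine ⟨h5, fun h6 => ?_⟩
            exact (hx.mpr h6).2 h5
          · right
            exact ⟨hx.mp ⟨h4, h5⟩, h5⟩
      rw [this]
      exact isCycle_circuit hZ₁
    · left
      have h4 := Finset.card_le_card hST
      have : S = T := Finset.eq_of_subset_of_card_le hST (by omega)
      rw [this, hT]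
      exact isCycle_circuit hZ₁

/-- the final count -/
theorem count_of_repd {M : Matroid α} {k : ℕ} (hk : k ≤ 24 * M.E.ncard) (h : Repd M k)
    (hm : 2 ≤ M.E.ncard) {ℓ : ℕ} (hℓ : ∀ C, M.IsCircuit C → ℓ ≤ C.ncard) (a : ℕ) :
    {C | M.IsCircuit C ∧ C.ncard ≤ a * ℓ}.encard ≤ ((M.E.ncard ^ (1792 * a) : ℕ) : ℕ∞) := by
  classical
  obtain ⟨Q, _, q, V, c, hfin, hV, hB, hr⟩ := h
  set m := M.E.ncard with hmdef
  rcases Nat.lt_or_ge ℓ 2 with hℓ2 | hℓ2
  · -- short girth
    let _ : Fintype M.E := hfin.fintype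
    have hcard : Fintype.card M.E = m := by
      rw [hmdef, ← Nat.card_coe_set_eq, Nat.card_eq_fintype_card]
    have h1 : {C | M.IsCircuit C ∧ C.ncard ≤ a * ℓ}.encard ≤
        {h : Finset M.E | h.card ≤ a}.encard := by
      refine Set.encard_le_encard_of_injOn
        (f := fun C => Finset.univ.filter fun e : M.E => (e : α) ∈ C) ?_ ?_
      · rintro C ⟨hC, hCa⟩
        change (Finset.univ.filter fun e : M.E => (e : α) ∈ C).card ≤ a
        have h2 : ((Finset.univ.filter fun e : M.E => (e : α) ∈ C).image (fun e : M.E => (e : α)) : Set α) = C := by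
          ext x
          simp only [Finset.coe_image, Set.mem_image, Finset.mem_coe, Finset.mem_filter,
            Finset.mem_univ, true_and, Subtype.exists, exists_and_right, exists_eq_right]
          exact ⟨fun h => h.2, fun h => ⟨hC.subset_ground h, h⟩⟩
        have h3 : (Finset.univ.filter fun e : M.E => (e : α) ∈ C).card = C.ncard := by
          rw [← h2, Set.ncard_coe_finset, Finset.card_image_of_injective _ Subtype.val_injective]
          congr 1
          ext e
          simp
        rw [h3]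
        refine hCa.trans ?_
        calc a * ℓ ≤ a * 1 := Nat.mul_le_mul_left _ (by omega)
          _ = a := mul_one a
      · rintro C ⟨hC, _⟩ D ⟨hD, _⟩ hCD
        ext x
        constructor
        · intro hx
          have := (Finset.ext_iff.mp hCD ⟨x, hC.subset_ground hx⟩)
          simp only [Finset.mem_filter, Finset.mem_univ, true_and] at this
          exact this.mp hx
        · intro hx
          have := (Finset.ext_iff.mp hCD ⟨x, hD.subset_ground hx⟩)
          simp only [Finset.mem_filter, Finset.mem_univ, true_and] at this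
          exact this.mpr hx
    refine le_trans h1 (le_trans (card_small_subsets _ _) ?_)
    rw [hcard]
    have h4 : (m + 1) ^ a ≤ m ^ (1792 * a) := by
      calc (m + 1) ^ a ≤ (m ^ 2) ^ a := Nat.pow_le_pow_left (by nlinarith) _
        _ = m ^ (2 * a) := by rw [← pow_mul]
        _ ≤ m ^ (1792 * a) := Nat.pow_le_pow_right (by omega) (by omega)
    exact_mod_cast h4
  · -- main case
    let J := {e : α // e ∈ M.E}
    let _ : Fintype J := hfin.fintype
    have hJc : Fintype.card J = m := by
      rw [hmdef, ← Nat.card_coe_set_eq, Nat.card_eq_fintype_card]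
    have hq0 : ∀ e ∈ M.E, q e ≠ 0 := by
      intro e he h0
      have h1 : IsCycle M ↑({e} : Finset α) := (hr {e} (by simpa using he)).mpr (by simpa using h0)
      obtain ⟨C, hC, hC'⟩ := h1.exists_circuit (by simp)
      have h2 := hℓ C hC'
      have h3 : C.ncard ≤ 1 := by
        refine (Set.ncard_le_ncard hC (Finset.finite_toSet _)).trans ?_
        rw [Set.ncard_coe_finset, Finset.card_singleton]
      omega
    let cst : J → Q → ℕ∞ := fun e x => if x = 0 then 0 else if x = q e then 1 else ⊤
    have hcst0 : ∀ e, cst e 0 = 0 := fun e => if_pos rfl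
    have hcst1 : ∀ e : J, cst e (q e) = 1 := fun e => by
      change (if q e = 0 then 0 else if q e = q e then 1 else ⊤ : ℕ∞) = 1
      rw [if_neg (hq0 e e.2), if_pos rfl]
    have hcst2 : ∀ (e : J) (x : Q), cst e x ≠ ⊤ → x = 0 ∨ x = q e := by
      intro e x hx
      by_contra hcon
      push Not at hcon
      exact hx (by
        change (if x = 0 then 0 else if x = q e then 1 else ⊤ : ℕ∞) = ⊤
        rw [if_neg hcon.1, if_neg hcon.2])
    have hadd : ∀ (e : J) (x y : Q), cst e (x + y) ≤ cst e x + cst e y := by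
      intro e x y
      by_cases hx : cst e x = ⊤
      · rw [hx]; simp
      by_cases hy : cst e y = ⊤
      · rw [hy]; simp
      rcases hcst2 e x hx with rfl | rfl
      · rw [zero_add, hcst0, zero_add]
      · rcases hcst2 e y hy with rfl | rfl
        · rw [add_zero, hcst0, add_zero]
        · rw [c, hcst0]; simp
    let S : Sys V J :=
      { U := fun e =>
          { carrier := {x | x = 0 ∨ x = q e}
            zero_mem' := Or.inl rfl
            add_mem' := by
              rintro x y (rfl | rfl) (rfl | rfl)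
              · simp
              · simp
              · simp
              · exact Or.inl (c _)
            neg_mem' := by
              rintro x (rfl | rfl)
              · simp
              · right
                rw [neg_eq_iff_add_eq_zero]; exact c _ }
        κ := cst
        d := cst
        card_le := fun e => by
          have h1 : ({x | x = 0 ∨ x = q e} : Set Q) ⊆ ↑({0, q e} : Finset Q) := by
            intro x hx
            simpa using hx
          refine le_trans (Set.encard_le_encard h1) ?_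
          rw [Set.encard_coe_eq_coe_finsetCard]
          have := Finset.card_le_two (a := (0 : Q)) (b := q e)
          exact_mod_cast (by omega : ({0, q e} : Finset Q).card ≤ 4)
        sub := fun e x hx hx0 => by
          have h1 : x = 0 ∨ x = q e := hx
          rw [h1.resolve_left hx0]
          exact hV e e.2
        κU := fun e x hx => hcst2 e x hx
        dU := fun e x hx => hcst2 e x hx
        d0 := hcst0
        dadd := hadd
        dκ := hadd }
    have hGood : Good S ℓ := by
      intro x hx hc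
      by_contra hne
      have hfinx : ∀ e, x e = 0 ∨ x e = q e := by
        intro e
        apply hcst2
        intro h
        have : cost S.d x = ⊤ := WithTop.sum_eq_top.mpr ⟨e, Finset.mem_univ e, h⟩
        rw [this] at hc
        simp at hc
      let X : Finset J := Finset.univ.filter fun e => x e ≠ 0
      have hXq : ∀ e ∈ X, x e = q e := fun e he =>
        (hfinx e).resolve_left (Finset.mem_filter.mp he).2
      have hX0 : ∀ e ∉ X, x e = 0 := fun e he => by
        by_contra h
        exact he (Finset.mem_filter.mpr ⟨Finset.mem_univ _, h⟩)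
      have hXne : X.Nonempty := by
        by_contra h
        rw [Finset.not_nonempty_iff_eq_empty] at h
        apply hne
        funext e
        exact hX0 e (by rw [h]; simp)
      have hsum0 : ∑ e ∈ X.map (Function.Embedding.subtype _), q e = 0 := by
        rw [Finset.sum_map, ← hx]
        rw [← Finset.sum_subset (Finset.subset_univ X) (fun e _ he => hX0 e he)]
        exact Finset.sum_congr rfl fun e he => (hXq e he).symm
      have hcyc := (hr (X.map (Function.Embedding.subtype _)) (by
        intro y hy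
        rw [Finset.mem_coe, Finset.mem_map] at hy
        obtain ⟨z, _, rfl⟩ := hy
        exact z.2)).mpr hsum0
      obtain ⟨C, hC, hC'⟩ := hcyc.exists_circuit (by
        rw [Finset.coe_nonempty, Finset.map_nonempty]; exact hXne)
      have h1 := hℓ C hC'
      have h2 : C.ncard ≤ X.card := by
        refine (Set.ncard_le_ncard hC (Finset.finite_toSet _)).trans ?_
        rw [Set.ncard_coe_finset, Finset.card_map]
      have h3 : cost S.d x = X.card := by
        unfold cost
        rw [← Finset.sum_subset (Finset.subset_univ X) (fun e _ he => by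
          rw [hX0 e he]; exact hcst0 e)]
        have : ∀ e ∈ X, S.d e (x e) = 1 := fun e he => by
          rw [hXq e he]; exact hcst1 e
        rw [Finset.sum_congr rfl this]
        simp
      rw [h3] at hc
      have h4 : X.card < ℓ := by exact_mod_cast hc
      omega
    have hfinal := hB J S ℓ hGood (2 * a)
    let wd : Set α → J → Q := fun C e => if (e : α) ∈ C then q e else 0
    have hwd1 : ∀ (C : Set α) (e : J), (e : α) ∈ C → wd C e = q e := fun C e h => if_pos h
    have hwd0 : ∀ (C : Set α) (e : J), (e : α) ∉ C → wd C e = 0 := fun C e h => if_neg h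
    have hinj : {C | M.IsCircuit C ∧ C.ncard ≤ a * ℓ}.encard ≤ (words S ℓ (2 * a)).encard := by
      refine Set.encard_le_encard_of_injOn (f := wd) ?_ ?_
      · rintro C ⟨hC, hCa⟩
        obtain ⟨C', rfl⟩ := (hfin.subset hC.subset_ground).exists_finset_coe
        rw [Set.ncard_coe_finset] at hCa
        have hCE : ∀ e ∈ C', e ∈ M.E := fun e he => hC.subset_ground he
        have hsumC := (hr C' hC.subset_ground).mp (isCycle_circuit hC)
        let X : Finset J := C'.subtype (· ∈ M.E)
        have hXmem : ∀ e : J, e ∈ X ↔ (e : α) ∈ C' := fun e => Finset.mem_subtype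
        refine ⟨?_, ?_⟩
        · have h1 : ∑ e : J, wd (↑C') e = ∑ e ∈ X, wd (↑C') e :=
            (Finset.sum_subset (Finset.subset_univ X) (fun e _ he => hwd0 _ e (fun h =>
              he ((hXmem e).mpr h)))).symm
          have h2 : ∑ e ∈ X, wd (↑C') e = ∑ e ∈ X, q e :=
            Finset.sum_congr rfl fun e he => hwd1 _ e ((hXmem e).mp he)
          have h3 : ∑ e ∈ X, q e = ∑ e ∈ C', q e :=
            Finset.sum_subtype_of_mem (fun e => q e) hCE
          rw [h1, h2, h3, hsumC]
        · have h3 : cost S.κ (wd ↑C') = C'.card := by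
            have h1 : cost S.κ (wd ↑C') = ∑ e ∈ X, S.κ e (wd (↑C') e) :=
              (Finset.sum_subset (Finset.subset_univ X) (fun e _ he => by
                rw [hwd0 _ e (fun h => he ((hXmem e).mpr h))]
                exact hcst0 e)).symm
            have h4 : ∀ e ∈ X, S.κ e (wd (↑C') e) = 1 := fun e he => by
              rw [hwd1 _ e ((hXmem e).mp he)]; exact hcst1 e
            rw [h1, Finset.sum_congr rfl h4]
            have h5 : X.card = C'.card := by
              rw [Finset.card_subtype, Finset.filter_true_of_mem hCE]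
            rw [Finset.sum_const, h5]
            simp
          rw [h3]
          have h6 : 2 * C'.card < (2 * a + 1) * ℓ := by
            calc 2 * C'.card ≤ 2 * (a * ℓ) := Nat.mul_le_mul_left _ hCa
              _ < (2 * a + 1) * ℓ := by
                have : (2 * a + 1) * ℓ = 2 * (a * ℓ) + ℓ := by ring
                omega
          exact_mod_cast h6
      · rintro C ⟨hC, _⟩ D ⟨hD, _⟩ hCD
        ext x
        constructor
        · intro hx
          by_contra hxD
          have := congrFun hCD ⟨x, hC.subset_ground hx⟩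
          rw [hwd1 C _ hx, hwd0 D _ hxD] at this
          exact hq0 x (hC.subset_ground hx) this
        · intro hx
          by_contra hxC
          have := congrFun hCD ⟨x, hD.subset_ground hx⟩
          rw [hwd0 C _ hxC, hwd1 D _ hx] at this
          exact hq0 x (hD.subset_ground hx) this.symm
    refine le_trans hinj (le_trans hfinal ?_)
    rw [hJc]
    have h7 : (m + (4 * k - 2)) ^ (112 * (2 * a)) ≤ m ^ (1792 * a) := by
      have h8 : m + (4 * k - 2) ≤ m ^ 8 := by
        have h9 : m + (4 * k - 2) ≤ 97 * m := by omega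
        have h10 : 97 ≤ m ^ 7 := by
          calc 97 ≤ 2 ^ 7 := by norm_num
            _ ≤ m ^ 7 := Nat.pow_le_pow_left hm _
        calc m + (4 * k - 2) ≤ 97 * m := h9
          _ ≤ m ^ 7 * m := Nat.mul_le_mul_right _ h10
          _ = m ^ 8 := by ring
      calc (m + (4 * k - 2)) ^ (112 * (2 * a)) ≤ (m ^ 8) ^ (112 * (2 * a)) :=
            Nat.pow_le_pow_left h8 _
        _ = m ^ (1792 * a) := by rw [← pow_mul]; congr 1; ring
    exact_mod_cast h7

end H63Mat
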